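import Pool.Agent.H200M.Fin

/-! # Project MC: thresholds given by the cube root of the volume. -/

set_option autoImplicit false

namespace Pool.Agent.H200M

open Finset Pool.Agent.TH176.Nag Pool.Agent.TH603.Sur Pool.Agent.TH2.NU Pool.Agent.TH641.UM
open Pool.Agent.Y205.FW Pool.Agent.Y205.MD Pool.Agent.H200W Pool.Agent.H200P Pool.Agent.H200C
open Pool.Agent.H200G Pool.Agent.H932R3 Pool.Agent.W609.CR

/-- With the cube root of the volume as a threshold there are always few values. -/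
theorem few_cube {n : ℕ} (w : Fin n → ℕ) (S : Finset (Fin n)) {c a X : ℝ} (ha0 : 0 ≤ a)
    (ha1 : a ≤ 1) (hac : a ≤ c / 3) (hX : 1 ≤ X) :
    Few w S (a * X ^ (1 / 3 : ℝ)) (c * X) := by
  classical
  right
  obtain ⟨q, hq⟩ : ∃ q : ℝ, q = X ^ (1 / 3 : ℝ) := ⟨_, rfl⟩
  have hX0 : 0 ≤ X := by linarith
  have hq0 : 0 ≤ q := by rw [hq]; positivity
  have hq3 : q ^ 3 = X := by
    rw [hq, ← Real.rpow_natCast, ← Real.rpow_mul hX0]
    norm_num
  have hqX : q ^ 2 ≤ X := by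
    have h1 : 1 ≤ q := by
      rw [hq]
      exact Real.one_le_rpow hX (by norm_num)
    calc q ^ 2 = q ^ 2 * 1 := by ring
      _ ≤ q ^ 2 * q := mul_le_mul_of_nonneg_left h1 (by positivity)
      _ = X := by rw [← hq3]; ring
  rw [← hq]
  refine ⟨by positivity, ?_⟩
  have h1 : (S.filter fun i => (w i : ℝ) ≤ a * q).image w ⊆ range (⌊a * q⌋₊ + 1) := by
    intro x hx
    obtain ⟨i, hi, rfl⟩ := mem_image.1 hx
    rw [mem_range]
    exact Nat.lt_succ_of_le (Nat.le_floor (mem_filter.1 hi).2)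
  have h2 := card_le_card h1
  rw [card_range] at h2
  have h2' : ((((S.filter fun i => (w i : ℝ) ≤ a * q).image w).card : ℕ) : ℝ) ≤
      (⌊a * q⌋₊ : ℝ) + 1 := by exact_mod_cast h2
  have hfl : (⌊a * q⌋₊ : ℝ) ≤ a * q := Nat.floor_le (by positivity)
  have h3 : a ^ 2 ≤ a := by
    calc a ^ 2 = a * a := by ring
      _ ≤ a * 1 := mul_le_mul_of_nonneg_left ha1 ha0
      _ = a := mul_one _
  have h4 : a ^ 3 ≤ a := by
    calc a ^ 3 = a ^ 2 * a := by ring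
      _ ≤ a * 1 := mul_le_mul h3 ha1 ha0 ha0
      _ = a := mul_one _
  have h5 : a ^ 3 * q ^ 3 ≤ a * X := by
    rw [hq3]
    exact mul_le_mul_of_nonneg_right h4 hX0
  have h6 : a ^ 2 * q ^ 2 ≤ a * X := mul_le_mul h3 hqX (by positivity) ha0
  have h7 : a * X ≤ c / 3 * X := mul_le_mul_of_nonneg_right hac hX0
  calc ((((S.filter fun i => (w i : ℝ) ≤ a * q).image w).card : ℝ) + 1) * (a * q) ^ 2
      ≤ (a * q + 2) * (a * q) ^ 2 := mul_le_mul_of_nonneg_right (by linarith) (by positivity)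
    _ = a ^ 3 * q ^ 3 + 2 * (a ^ 2 * q ^ 2) := by ring
    _ ≤ a * X + 2 * (a * X) := by linarith
    _ ≤ c * X := by linarith

theorem XA_three {n d : ℕ} {w : Fin n → ℕ} {p : Fin 3 → Fin n} (hp : Function.Injective p)
    (h : w (p 0) + w (p 1) + w (p 2) ≤ d) : 1 ≤ XA w (univ.image p) d := by
  classical
  unfold XA
  rw [sum_image (fun a _ b _ hab => hp hab), Fin.sum_univ_three]
  have h0 : (w (p 0) : ℝ) + w (p 1) + w (p 2) ≤ d := by exact_mod_cast h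
  have a0 : (0 : ℝ) ≤ w (p 0) := Nat.cast_nonneg _
  have a1 : (0 : ℝ) ≤ w (p 1) := Nat.cast_nonneg _
  have a2 : (0 : ℝ) ≤ w (p 2) := Nat.cast_nonneg _
  generalize (w (p 0) : ℝ) = x at *
  generalize (w (p 1) : ℝ) = y at *
  generalize (w (p 2) : ℝ) = z at *
  have h1 : (x + y + z) ^ 2 ≤ (d : ℝ) ^ 2 := pow_le_pow_left₀ (by linarith) h0 2
  nlinarith [mul_nonneg a0 a1, mul_nonneg a0 a2, mul_nonneg a1 a2]

/-- Three arbitrary multiplicities; the threshold is the cube root of the volume left by them. -/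
theorem main3_cube (h : Main3) (ε : ℝ) (hε : 0 < ε) : ∃ c : ℝ, 0 < c ∧
    ∀ {n d : ℕ} (w : Fin n → ℕ) (p : Fin 3 → Fin n), Function.Injective p → w (p 2) ≤ w (p 1) →
      w (p 1) ≤ w (p 0) → w (p 0) + w (p 1) + w (p 2) ≤ d →
      (∀ i, (∀ j, p j ≠ i) → (w i : ℝ) ≤ c * ((d : ℝ) - w (p 0))) →
      (∑ i ∈ (univ \ univ.image p).filter
          (fun i => c * XA w (univ.image p) d ^ (1 / 3 : ℝ) < (w i : ℝ)), (w i : ℝ) ^ 2 ≤
          (1 - ε) * XA w (univ.image p) d ∨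
        ε * XA w (univ.image p) d ≤ ∑ i ∈ (univ \ univ.image p).filter
          (fun i => (w i : ℝ) ≤ c * XA w (univ.image p) d ^ (1 / 3 : ℝ)), (w i : ℝ) ^ 2) →
      GenExp d w := by
  classical
  obtain ⟨c0, hc0, H⟩ := h ε hε
  obtain ⟨a, ha⟩ : ∃ a : ℝ, a = min 1 (c0 / 3) := ⟨_, rfl⟩
  have ha0 : 0 < a := by rw [ha]; exact lt_min one_pos (by linarith)
  have ha1 : a ≤ 1 := by rw [ha]; exact min_le_left _ _
  have hac : a ≤ c0 / 3 := by rw [ha]; exact min_le_right _ _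
  refine ⟨c0 * a, mul_pos hc0 ha0, fun {n d} w p h1 h2 h3 h4 h5 h6 => ?_⟩
  have hX := XA_three h1 h4
  have hd : (0 : ℝ) ≤ (d : ℝ) - w (p 0) := by
    have : ((w (p 0) : ℕ) : ℝ) ≤ (d : ℝ) := by exact_mod_cast (by omega : w (p 0) ≤ d)
    linarith
  refine @H n d (a * XA w (univ.image p) d ^ (1 / 3 : ℝ)) w p h1 h2 h3 h4
    (fun i hi => (h5 i hi).trans ?_) (few_cube w _ ha0.le ha1 hac hX) ?_
  · apply mul_le_mul_of_nonneg_right _ hd
    calc c0 * a ≤ c0 * 1 := mul_le_mul_of_nonneg_left ha1 hc0.le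
      _ = c0 := mul_one _
  · have e : c0 * a * XA w (univ.image p) d ^ (1 / 3 : ℝ) =
      c0 * (a * XA w (univ.image p) d ^ (1 / 3 : ℝ)) := by ring
    rw [e] at h6
    exact h6

/-- smaller thresholds give stronger conditions -/
theorem alt_le {n : ℕ} {w : Fin n → ℕ} {S : Finset (Fin n)} {A B t t' : ℝ} (h : t' ≤ t)
    (h1 : ∑ i ∈ S.filter (fun i => t' < (w i : ℝ)), (w i : ℝ) ^ 2 ≤ A ∨
      B ≤ ∑ i ∈ S.filter (fun i => (w i : ℝ) ≤ t'), (w i : ℝ) ^ 2) :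
    ∑ i ∈ S.filter (fun i => t < (w i : ℝ)), (w i : ℝ) ^ 2 ≤ A ∨
      B ≤ ∑ i ∈ S.filter (fun i => (w i : ℝ) ≤ t), (w i : ℝ) ^ 2 := by
  rcases h1 with h1 | h1
  · left
    refine le_trans (sum_le_sum_of_subset_of_nonneg (fun i hi => ?_) fun _ _ _ => sq_nonneg _) h1
    rw [mem_filter] at hi ⊢
    exact ⟨hi.1, lt_of_le_of_lt h hi.2⟩
  · right
    refine h1.trans (sum_le_sum_of_subset_of_nonneg (fun i hi => ?_) fun _ _ _ => sq_nonneg _)
    rw [mem_filter] at hi ⊢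
    exact ⟨hi.1, hi.2.trans h⟩

/-- Both forms with one constant. -/
theorem main3_both (h : Main3) (ε : ℝ) (hε : 0 < ε) : ∃ c : ℝ, 0 < c ∧
    ∀ {n d : ℕ} (w : Fin n → ℕ) (p : Fin 3 → Fin n), Function.Injective p → w (p 2) ≤ w (p 1) →
      w (p 1) ≤ w (p 0) → w (p 0) + w (p 1) + w (p 2) ≤ d →
      (∀ i, (∀ j, p j ≠ i) → (w i : ℝ) ≤ c * ((d : ℝ) - w (p 0))) →
      (∑ i ∈ (univ \ univ.image p).filter
          (fun i => c * XA w (univ.image p) d ^ (1 / 3 : ℝ) < (w i : ℝ)), (w i : ℝ) ^ 2 ≤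
          (1 - ε) * XA w (univ.image p) d ∨
        ε * XA w (univ.image p) d ≤ ∑ i ∈ (univ \ univ.image p).filter
          (fun i => (w i : ℝ) ≤ c * XA w (univ.image p) d ^ (1 / 3 : ℝ)), (w i : ℝ) ^ 2 ∨
        ∃ μ : ℝ, 0 ≤ μ ∧ Few w (univ \ univ.image p) μ (c * XA w (univ.image p) d) ∧
          (∑ i ∈ (univ \ univ.image p).filter (fun i => c * μ < (w i : ℝ)), (w i : ℝ) ^ 2 ≤
              (1 - ε) * XA w (univ.image p) d ∨
            ε * XA w (univ.image p) d ≤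
              ∑ i ∈ (univ \ univ.image p).filter (fun i => (w i : ℝ) ≤ c * μ), (w i : ℝ) ^ 2)) →
      GenExp d w := by
  obtain ⟨c1, hc1, H1⟩ := main3_cube h ε hε
  obtain ⟨c2, hc2, H2⟩ := h ε hε
  refine ⟨min c1 c2, lt_min hc1 hc2, fun {n d} w p h1 h2 h3 h4 h5 h6 => ?_⟩
  have hX := XA_three h1 h4
  have hX0 : (0 : ℝ) ≤ XA w (univ.image p) d := by linarith
  have hd : (0 : ℝ) ≤ (d : ℝ) - w (p 0) := by
    have : ((w (p 0) : ℕ) : ℝ) ≤ (d : ℝ) := by exact_mod_cast (by omega : w (p 0) ≤ d)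
    linarith
  intro K _ _ P hP
  rcases h6 with h6 | h6 | ⟨μ, hμ, h6, h7⟩
  · exact H1 w p h1 h2 h3 h4 (fun i hi => (h5 i hi).trans
      (mul_le_mul_of_nonneg_right (min_le_left _ _) hd))
      (alt_le (mul_le_mul_of_nonneg_right (min_le_left _ _) (by positivity)) (Or.inl h6)) hP
  · exact H1 w p h1 h2 h3 h4 (fun i hi => (h5 i hi).trans
      (mul_le_mul_of_nonneg_right (min_le_left _ _) hd))
      (alt_le (mul_le_mul_of_nonneg_right (min_le_left _ _) (by positivity)) (Or.inr h6)) hP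
  · have h9 : Few w (univ \ univ.image p) μ (c2 * XA w (univ.image p) d) := by
      rcases h6 with h6 | ⟨h6, h8⟩
      · exact Or.inl h6
      · exact Or.inr ⟨h6, h8.trans (mul_le_mul_of_nonneg_right (min_le_right _ _) hX0)⟩
    exact H2 w p h1 h2 h3 h4 (fun i hi => (h5 i hi).trans
      (mul_le_mul_of_nonneg_right (min_le_right _ _) hd)) (μ := μ) h9
      (alt_le (mul_le_mul_of_nonneg_right (min_le_right _ _) hμ) h7) hP

end Pool.Agent.H200M
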