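import Pool.Agent.Q26.MC.BoxT
import Pool.Agent.Q26.MC.Merge
import Pool.Agent.Q166.MC.Slab
import Pool.Agent.Q166.MC.Tri
import Pool.Agent.Q186.MC.Greedy
import Pool.Agent.Q92.MC.ItemR
import Pool.Agent.Q195.MC.RegI
import Pool.Agent.Q195.MC.Exp
import Pool.Agent.Q14.MC.RegM
import Pool.Agent.Q14.MC.KCM
import Pool.Agent.Q14.MC.Scale
import Pool.Agent.Q14.MC.Nef3
import Pool.Agent.Q224.MC.KCR
import Pool.Agent.Q224.MC.Main
import Pool.Agent.Q150.MC.CoreT
import Pool.Agent.H200G.AllNef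
import Pool.Agent.H200M.Cube

/-! # Project MC: the assembly of the lemmas.

The lemmas of `Stm`, `Stm2`, `Stm3` were proved by helper14, helper26, helper92, helper150, helper166,
helper186, helper195 and helper224. -/

set_option autoImplicit false

namespace Pool.Agent.H200M

open Finset Pool.Agent.H200W Pool.Agent.H200P Pool.Agent.H200C Pool.Agent.H200G Pool.Agent

theorem p_boxT : BoxT := Q26.MC.boxT
theorem p_slabRS : SlabRS := Q166.MC.slabRS p_boxT
theorem p_slabRE : SlabRE := Q166.MC.slabRE p_boxT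
theorem p_fitP : FitP := Q166.MC.fitP
theorem p_triRS : TriRS := Q166.MC.triRS p_slabRS p_fitP
theorem p_triRE : TriRE := Q166.MC.triRE p_slabRE p_fitP
theorem p_greedyR : GreedyR := Q186.MC.greedyR
theorem p_packR : PackR := Q186.MC.packR p_greedyR
theorem p_itemR : ItemR := Q92.MC.itemR p_packR p_triRS p_triRE p_fitP
theorem p_merge : Merge := Q26.MC.merge
theorem p_regI : RegI := Q195.MC.regI p_slab p_trU p_cutl
theorem p_regM : RegM := Q14.MC.regM p_merge p_cutl p_itemR
theorem p_kCM : KCM := Q14.MC.kCM p_regI p_regM p_unitsR p_leafG p_numG p_acc p_color p_colNum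
theorem p_kCR : KCR := Q224.MC.kCR p_kCM
theorem p_expM : ExpM := Q195.MC.expM p_kCR p_rankG
theorem p_scaleM : ScaleM := Q14.MC.scaleM p_expM p_expAb p_unGr p_repUn p_rankG p_hered
theorem p_coreT : CoreT := Q150.MC.coreT p_scaleM
theorem main3_all : Main3 := Q224.MC.main3 p_coreT p_win3 p_corner3 p_rankG
theorem mainCh_all : MainCh := Q224.MC.mainCh p_coreT p_winC
theorem nef3_all : Nef3 := Q14.MC.nef3 main3_all nefExp

theorem conc3_all : ∃ c : ℝ → ℝ, (∀ ε, 0 < ε → 0 < c ε) ∧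
    ∀ {n d : ℕ} (w : Fin n → ℕ), ¬ Conc3 c d w → GenExp d w := exists_conc3 main3_all

theorem concCh_all : ∃ c : ℝ → ℝ, (∀ ε, 0 < ε → 0 < c ε) ∧
    ∀ {n d : ℕ} (w : Fin n → ℕ), ¬ ConcCh c d w → GenExp d w := exists_concCh mainCh_all

end Pool.Agent.H200M
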