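import Pool.Agent.H200G.Stm4
import Pool.Agent.H200P.All

/-! # Project MC (core, packed and graded multiplicities). Definitions.

Three kinds of multiplicities: a core `K0` (three arbitrary ones, or a chain) for which the windows
`WinAb h K0 d` are known; middle ones `K`, arbitrary and at most a small part of `h`; small ones, in groups with
few values. The middle and the small ones are combined to items of height `h`: right triangles into which the
middle ones are packed in slabs and boxes, as in project PK, and whose rest is filled by the items of the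
small ones. -/

set_option autoImplicit false

namespace Pool.Agent.H200M

open Finset Pool.Agent.TH176.Nag Pool.Agent.TH603.Sur Pool.Agent.TH2.NU Pool.Agent.TH641.UM
open Pool.Agent.Y205.FW Pool.Agent.Y205.MD Pool.Agent.H200W Pool.Agent.H200P Pool.Agent.H200C
open Pool.Agent.H200G

/-- The list of slabs `(W, B)` (of width between `W` and `W + G`, with the pairs `B`) fits into the right
triangle of base `b` and slope `ρ`. -/
def FitR (G ρ : ℝ) : ℝ → List (ℝ × List (ℕ × ℕ)) → Prop
  | b, [] => 14 * G ≤ b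
  | b, (W, B) :: L => 15 * G ≤ W ∧
      (∀ p ∈ B, (p.1 : ℝ) + 2 + 13 * G ≤ W ∧ (p.2 : ℝ) + 2 + 13 * G ≤ W) ∧
      ρ * (W + G) + (W + G) + 1 + (B.map (ht G)).sum ≤ b ∧ FitR G ρ (b - ρ * (W + G)) L

/-- an item of height `h` whose two needs are comparable, with a need at most `1024 h ^ 2` -/
def Ir (h : ℝ) (x : Multiset ℕ × ℝ × ℝ) : Prop :=
  UnitS h x.1 x.2.1 ∧ UnitE h x.1 x.2.2 ∧ 0 ≤ x.2.2 ∧ x.2.2 ≤ 768 * h ^ 2 ∧ x.2.2 ≤ x.2.1 ∧
    x.2.1 ≤ 4 / 3 * x.2.2

/-- `∑ m ^ 2` -/
noncomputable def q0 (K : Multiset ℕ) : ℝ := (K.map fun m : ℕ => (m : ℝ) ^ 2).sum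

/-- `∑ (m + 1) ^ 2` -/
noncomputable def q1 (K : Multiset ℕ) : ℝ := (K.map fun m : ℕ => ((m : ℝ) + 1) ^ 2).sum

/-- `∑ (m + 16 G) ^ 2` -/
noncomputable def qG (G : ℝ) (K : Multiset ℕ) : ℝ :=
  (K.map fun m : ℕ => ((m : ℝ) + 16 * G) ^ 2).sum

end Pool.Agent.H200M
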