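import Pool.Agent.H200M.Stm3
import Pool.Agent.Q299.CH.Two

/-! # Project MC: the classes. -/

set_option autoImplicit false

namespace Pool.Agent.H200M

open Finset Pool.Agent.TH176.Nag Pool.Agent.TH603.Sur Pool.Agent.TH2.NU Pool.Agent.TH641.UM
open Pool.Agent.Y205.FW Pool.Agent.Y205.MD Pool.Agent.H200W Pool.Agent.H200P Pool.Agent.H200C
open Pool.Agent.H200G Pool.Agent.H932R3 Pool.Agent.W609.CR

/-- The points outside `C` have a volume `X` at their disposal (twice the number of forms left by the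
points in `C`, as expected), and it is concentrated in their large multiplicities: for every `μ` such
that all nonzero multiplicities `≤ μ` outside `C` are taken at least `2 ^ 29` times there, or the number
of the values `≤ μ`, plus `1`, times `μ ^ 2` is at most `c X`, the multiplicities larger than `c μ` have
more than the part `1 - ε` of `X`, and those at most `c μ` less than the part `ε`. -/
def Top (c ε : ℝ) {n : ℕ} (d : ℕ) (w : Fin n → ℕ) (C : Finset (Fin n)) : Prop :=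
  ∀ μ : ℝ, Few w (univ \ C) μ (c * XA w C d) →
    (1 - ε) * XA w C d < ∑ i ∈ (univ \ C).filter (fun i => c * μ < (w i : ℝ)), (w i : ℝ) ^ 2 ∧
    ∑ i ∈ (univ \ C).filter (fun i => (w i : ℝ) ≤ c * μ), (w i : ℝ) ^ 2 < ε * XA w C d

/-- The class `(d; w)` is concentrated outside of any three points: for every `ε > 0` and all three points
`p` with `w (p 2) ≤ w (p 1) ≤ w (p 0)`, `w (p 0) + w (p 1) + w (p 2) ≤ d`, such that all others have
multiplicities at most `c(ε) (d - w (p 0))`, `Top` holds. -/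
def Conc3 (c : ℝ → ℝ) {n : ℕ} (d : ℕ) (w : Fin n → ℕ) : Prop :=
  ∀ (ε : ℝ) (p : Fin 3 → Fin n), 0 < ε → Function.Injective p → w (p 2) ≤ w (p 1) →
    w (p 1) ≤ w (p 0) → w (p 0) + w (p 1) + w (p 2) ≤ d →
    (∀ i, (∀ j, p j ≠ i) → (w i : ℝ) ≤ c ε * ((d : ℝ) - w (p 0))) →
    Top (c ε) ε d w (univ.image p)

/-- The point `p` and the points in `A` have arbitrary multiplicities on a chain of curves of degrees
`E 0 ≥ E 1 ≥ … ≥ 1`, with a margin given by `t`. -/
def ChainCore (t d : ℕ) {n : ℕ} (w : Fin n → ℕ) (p : Fin n) (A : Finset (Fin n)) : Prop :=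
  p ∉ A ∧ ∃ (E : ℕ → ℕ) (m : ℕ), Antitone E ∧ (∀ k, 1 ≤ E k) ∧ (∀ i ∈ A, w i ≤ m) ∧
    w p + ∑ j ∈ range m, E j + 2 ^ 27 * t * E 0 ≤ d ∧
    ∀ k < m, (k = 0 ∨ E k < E (k - 1)) → ∑ i ∈ A, (w i - k) + E k * ∑ j ∈ range k, E j +
      2 ^ 31 * t * E k * (E 0 + E k * (A.filter fun i => k < w i ∧ w i ≤ k + 2 ^ 26 * t).card) ≤
        E k * d

/-- The class `(d; w)` is concentrated outside of any chain: for every `ε > 0` and all `t ≥ 1`, `p`, `A` with
`ChainCore t d w p A` such that all other multiplicities are at most `c(ε) t`, `Top` holds. -/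
def ConcCh (c : ℝ → ℝ) {n : ℕ} (d : ℕ) (w : Fin n → ℕ) : Prop :=
  ∀ (ε : ℝ) (t : ℕ) (p : Fin n) (A : Finset (Fin n)), 0 < ε → 1 ≤ t → ChainCore t d w p A →
    (∀ i, i ∉ insert p A → (w i : ℝ) ≤ c ε * t) → Top (c ε) ε d w (insert p A)

theorem exists_conc3 (h : Main3) : ∃ c : ℝ → ℝ, (∀ ε, 0 < ε → 0 < c ε) ∧
    ∀ {n d : ℕ} (w : Fin n → ℕ), ¬ Conc3 c d w → GenExp d w := by
  classical
  unfold Main3 at h
  choose! c hc H using h
  refine ⟨c, hc, fun {n d} w hw => ?_⟩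
  unfold Conc3 at hw
  push Not at hw
  obtain ⟨ε, p, hε, h1, h2, h3, h4, h5, h6⟩ := hw
  unfold Top at h6
  push Not at h6
  obtain ⟨μ, h7, h8⟩ := h6
  refine H ε hε w p h1 h2 h3 h4 h5 h7 ?_
  rcases le_or_gt (∑ i ∈ (univ \ univ.image p).filter
      (fun i => c ε * μ < (w i : ℝ)), (w i : ℝ) ^ 2) ((1 - ε) * XA w (univ.image p) d) with h9 | h9
  · exact Or.inl h9
  · exact Or.inr (h8 h9)

theorem exists_concCh (h : MainCh) : ∃ c : ℝ → ℝ, (∀ ε, 0 < ε → 0 < c ε) ∧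
    ∀ {n d : ℕ} (w : Fin n → ℕ), ¬ ConcCh c d w → GenExp d w := by
  classical
  unfold MainCh at h
  choose! c hc H using h
  refine ⟨c, hc, fun {n d} w hw => ?_⟩
  unfold ConcCh at hw
  push Not at hw
  obtain ⟨ε, t, p, A, hε, h1, ⟨h2, E, m, h3, h4, h5, h6, h7⟩, h8, h9⟩ := hw
  unfold Top at h9
  push Not at h9
  obtain ⟨μ, h10, h11⟩ := h9
  refine H ε hε w p A E h2 h1 h3 h4 h5 h6 h7 h8 h10 ?_
  rcases le_or_gt (∑ i ∈ (univ \ insert p A).filter
      (fun i => c ε * μ < (w i : ℝ)), (w i : ℝ) ^ 2) ((1 - ε) * XA w (insert p A) d) with h12 | h12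
  · exact Or.inl h12
  · exact Or.inr (h11 h12)

/-- Two curves: degree `e` for `h` steps, then lines. -/
theorem core_two {n d e h t : ℕ} {w : Fin n → ℕ} {p : Fin n} {A : Finset (Fin n)} (hp : p ∉ A)
    (he : 1 ≤ e) (H1 : w p + e * h + 2 ^ 27 * t * e ≤ d)
    (H2 : ∀ i ∈ A, w p + e * h + (w i - h) + 2 ^ 27 * t * e ≤ d)
    (H3 : e * h + ∑ i ∈ A, (w i - h) + 2 ^ 31 * t *
      (e + (A.filter fun i => h < w i ∧ w i ≤ h + 2 ^ 26 * t).card) ≤ d)
    (H4 : ∑ i ∈ A, w i + 2 ^ 31 * t * e ^ 2 *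
      (1 + (A.filter fun i => 0 < w i ∧ w i ≤ 2 ^ 26 * t).card) ≤ e * d) :
    ChainCore t d w p A := by
  have hE0 : (if 0 < h then e else 1) ≤ e := by split_ifs <;> omega
  refine ⟨hp, fun k => if k < h then e else 1, A.sup w, ?_, ?_, ?_, ?_, ?_⟩
  · intro a b hab
    simp only
    split_ifs <;> omega
  · intro k
    simp only
    split_ifs <;> omega
  · intro i hi
    exact Finset.le_sup hi
  · simp only
    rw [Pool.Agent.Q299.CH.sum_two]
    have h1 : 2 ^ 27 * t * (if 0 < h then e else 1) ≤ 2 ^ 27 * t * e :=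
      Nat.mul_le_mul_left _ hE0
    rcases Nat.lt_or_ge h (A.sup w) with hm | hm
    · have hA : A.Nonempty := by
        rw [Finset.nonempty_iff_ne_empty]
        rintro rfl
        simp at hm
      obtain ⟨i, hi, hiw⟩ := Finset.exists_mem_eq_sup A hA w
      have h2 := H2 i hi
      rw [← hiw] at h2
      rw [min_eq_right hm.le]
      omega
    · rw [min_eq_left hm, Nat.sub_eq_zero_of_le hm]
      have h2 : e * A.sup w ≤ e * h := Nat.mul_le_mul_left _ hm
      omega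
  · intro k hk hst
    simp only at hst ⊢
    rw [Pool.Agent.Q299.CH.sum_two]
    rcases Nat.eq_zero_or_pos k with hk0 | hk0
    · subst hk0
      rcases Nat.eq_zero_or_pos h with hh | hh
      · subst hh
        simp only [lt_irrefl, if_false, Nat.zero_min, Nat.mul_zero, Nat.sub_zero, Nat.sub_self,
          Nat.add_zero, Nat.one_mul, Nat.mul_one, Nat.zero_add] at H3 ⊢
        refine le_trans ?_ H3
        gcongr
      · rw [if_pos hh]
        simp only [Nat.zero_min, Nat.mul_zero, Nat.sub_zero, Nat.zero_sub, Nat.add_zero,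
          Nat.zero_add] at H4 ⊢
        refine le_trans (le_of_eq ?_) H4
        ring
    · have hkh : k = h := by
        rcases hst with hst | hst
        · omega
        · split_ifs at hst <;> omega
      subst hkh
      rw [if_neg (lt_irrefl k), if_pos hk0, min_self, Nat.sub_self]
      simp only [Nat.add_zero, Nat.one_mul, Nat.mul_one]
      refine le_trans (le_of_eq ?_) H3
      ring

/-- one curve of degree `e` -/
theorem core_e {n d e M t : ℕ} {w : Fin n → ℕ} {p : Fin n} {A : Finset (Fin n)}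
    (hp : p ∉ A) (he : 1 ≤ e) (hM : ∀ i ∈ A, w i ≤ M)
    (h3 : w p + e * M + 2 ^ 31 * t * e ≤ d)
    (h4 : ∑ i ∈ A, w i + 2 ^ 31 * t * e ^ 2 *
      (1 + (A.filter fun i => 0 < w i ∧ w i ≤ 2 ^ 26 * t).card) ≤ e * d) :
    ChainCore t d w p A := by
  have h6 : 2 ^ 27 * t * e ≤ 2 ^ 31 * t * e :=
    Nat.mul_le_mul_right _ (Nat.mul_le_mul_right _ (by norm_num))
  have h7 : ∑ i ∈ A, (w i - M) = 0 :=
    Finset.sum_eq_zero fun i hi => Nat.sub_eq_zero_of_le (hM i hi)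
  have h8 : (A.filter fun i => M < w i ∧ w i ≤ M + 2 ^ 26 * t) = ∅ := by
    rw [Finset.filter_eq_empty_iff]
    intro i hi h
    have := hM i hi
    omega
  refine core_two (h := M) hp he ?_ ?_ ?_ h4
  · omega
  · intro i hi
    rw [Nat.sub_eq_zero_of_le (hM i hi)]
    omega
  · rw [h7, h8, Finset.card_empty]
    simp only [add_zero]
    clear h4 h8
    omega

/-- Standard classes with margin whose large part has nonnegative intersection with the anticanonical
class, with margin. -/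
theorem core_ac {n d a t : ℕ} {w : Fin n → ℕ} (hw : Antitone w) (hn : 3 ≤ n)
    (ha : a < n) (hwp : w ⟨a, ha⟩ ≤ t)
    (h3 : ∀ i j k : Fin n, i ≠ j → i ≠ k → j ≠ k → w i + w j + w k + 2 ^ 34 * t ≤ d)
    (h4 : ∑ i ∈ univ.filter (fun i : Fin n => i.1 < a), w i + 2 ^ 35 * t *
      (1 + (univ.filter fun i : Fin n => i.1 < a ∧ w i ≤ 2 ^ 26 * t).card) ≤ 3 * d) :
    ChainCore t d w ⟨a, ha⟩ (univ.filter fun i : Fin n => i.1 < a) := by
  classical
  obtain ⟨A, hA⟩ : ∃ A : Finset (Fin n), A = univ.filter fun i : Fin n => i.1 < a := ⟨_, rfl⟩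
  obtain ⟨p, hp⟩ : ∃ p : Fin n, p = ⟨a, ha⟩ := ⟨_, rfl⟩
  obtain ⟨T, hTr⟩ : ∃ T : Finset (Fin n), T = {⟨0, by omega⟩, ⟨1, by omega⟩, ⟨2, by omega⟩} :=
    ⟨_, rfl⟩
  obtain ⟨h, hh⟩ : ∃ h : ℕ, h = if h' : 3 < a then w ⟨3, by omega⟩ else 0 := ⟨_, rfl⟩
  rw [← hA]
  rw [← hp] at hwp ⊢
  have hpA : p ∉ A := by
    rw [hA, hp, mem_filter]
    simp
  have hh1 : ∀ i : Fin n, i.1 ≤ 3 → h ≤ w i := by
    intro i hi
    rw [hh]
    split_ifs with h'
    · exact hw (Fin.le_def.2 hi)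
    · exact Nat.zero_le _
  have hh2 : ∀ i ∈ A, 3 ≤ i.1 → w i ≤ h := by
    intro i hi hi3
    rw [hA, mem_filter] at hi
    rw [hh, dif_pos (by omega)]
    exact hw (Fin.le_def.2 hi3)
  have hT3 : ∀ i : Fin n, i ∉ T → 3 ≤ i.1 := by
    intro i hi
    by_contra h'
    apply hi
    rw [hTr]
    simp only [mem_insert, mem_singleton, Fin.ext_iff]
    omega
  have hTc : T.card ≤ 3 := by
    rw [hTr]
    exact card_le_three
  have hTs : ∑ i ∈ T, (w i - h) = (w ⟨0, by omega⟩ - h) + (w ⟨1, by omega⟩ - h) +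
      (w ⟨2, by omega⟩ - h) := by
    rw [hTr, sum_insert (by simp [Fin.ext_iff]), sum_insert (by simp [Fin.ext_iff]),
      sum_singleton, add_assoc]
  have a0 := hh1 ⟨0, by omega⟩ (by simp)
  have a1 := hh1 ⟨1, by omega⟩ (by simp)
  have a2 := hh1 ⟨2, by omega⟩ (by simp)
  have h012 := h3 ⟨0, by omega⟩ ⟨1, by omega⟩ ⟨2, by omega⟩ (by simp [Fin.ext_iff])
    (by simp [Fin.ext_iff]) (by simp [Fin.ext_iff])
  have hsumA : ∑ i ∈ A, (w i - h) ≤ ∑ i ∈ T, (w i - h) := by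
    calc ∑ i ∈ A, (w i - h) = ∑ i ∈ A ∩ T, (w i - h) := by
          symm
          apply sum_subset inter_subset_left
          intro i hi hi'
          exact Nat.sub_eq_zero_of_le (hh2 i hi (hT3 i fun h' => hi' (mem_inter.2 ⟨hi, h'⟩)))
      _ ≤ ∑ i ∈ T, (w i - h) :=
          sum_le_sum_of_subset_of_nonneg inter_subset_right fun _ _ _ => Nat.zero_le _
  have hcard : (A.filter fun i => h < w i ∧ w i ≤ h + 2 ^ 26 * t).card ≤ 3 := by
    refine le_trans (card_le_card ?_) hTc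
    intro i hi
    rw [mem_filter] at hi
    by_contra h'
    have := hh2 i hi.1 (hT3 i h')
    omega
  clear hh
  obtain ⟨x0, hx0⟩ : ∃ x0 : ℕ, x0 = w ⟨0, by omega⟩ := ⟨_, rfl⟩
  obtain ⟨x1, hx1⟩ : ∃ x1 : ℕ, x1 = w ⟨1, by omega⟩ := ⟨_, rfl⟩
  obtain ⟨x2, hx2⟩ : ∃ x2 : ℕ, x2 = w ⟨2, by omega⟩ := ⟨_, rfl⟩
  rw [← hx0, ← hx1, ← hx2] at hTs h012
  rw [← hx0] at a0
  rw [← hx1] at a1
  rw [← hx2] at a2
  have hle0 : ∀ i : Fin n, w i ≤ x0 := fun i => hx0 ▸ hw (Fin.le_def.2 (Nat.zero_le _))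
  refine core_two (e := 3) (h := h) hpA (by norm_num) ?_ ?_ ?_ ?_
  · clear h4 hcard
    omega
  · intro i _
    have := hle0 i
    clear h4 hcard
    omega
  · have h6 : 2 ^ 31 * t *
        (3 + (A.filter fun i => h < w i ∧ w i ≤ h + 2 ^ 26 * t).card) ≤
        2 ^ 31 * t * 6 := Nat.mul_le_mul_left _ (by omega)
    clear h4
    omega
  · obtain ⟨g, hg⟩ : ∃ g : ℕ, g =
      (univ.filter fun i : Fin n => i.1 < a ∧ w i ≤ 2 ^ 26 * t).card := ⟨_, rfl⟩
    have h6 : (A.filter fun i => 0 < w i ∧ w i ≤ 2 ^ 26 * t).card ≤ g := by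
      rw [hg]
      refine card_le_card fun i hi => ?_
      rw [mem_filter, hA, mem_filter] at hi
      rw [mem_filter]
      exact ⟨mem_univ _, hi.1.2, hi.2.2⟩
    rw [← hg] at h4
    rw [hA] at h6 ⊢
    have h7 : 2 ^ 31 * t * 3 ^ 2 *
        (1 + ((univ.filter fun i : Fin n => i.1 < a).filter
          fun i => 0 < w i ∧ w i ≤ 2 ^ 26 * t).card) ≤
        2 ^ 35 * t * (1 + g) := by
      apply Nat.mul_le_mul _ (by omega)
      clear h4 h6 h012 hcard h3
      omega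
    omega

end Pool.Agent.H200M
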