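import Pool.Agent.H200M.Two

/-! # Project MC: away from the critical volume. -/

set_option autoImplicit false

namespace Pool.Agent.H200M

open Finset Pool.Agent.TH176.Nag Pool.Agent.TH603.Sur Pool.Agent.TH2.NU Pool.Agent.TH641.UM
open Pool.Agent.Y205.FW Pool.Agent.Y205.MD Pool.Agent.H200W Pool.Agent.H200P Pool.Agent.H200C
open Pool.Agent.H200G Pool.Agent.H932R3 Pool.Agent.W609.CR

/-- The points outside `C` have a volume `X` at their disposal (twice the number of forms left by the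
points in `C`, as expected). They fill it up to the part `ε`, and with their large multiplicities: the
sum of all `w i (w i + 1)` outside `C` differs from `X` by less than `ε X`; and for every `μ` such that
all nonzero multiplicities `≤ μ` outside `C` are taken at least `2 ^ 29` times there, or the number of
the values `≤ μ`, plus `1`, times `μ ^ 2` is at most `c X`, the squares of the multiplicities larger
than `c μ` have a sum larger than `(1 - ε) X`, and the squares of those at most `c μ` a sum less than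
`ε X`. -/
def Tight (c ε : ℝ) {n : ℕ} (d : ℕ) (w : Fin n → ℕ) (C : Finset (Fin n)) : Prop :=
  |XA w C d - ∑ i ∈ univ \ C, (w i : ℝ) * (w i + 1)| < ε * XA w C d ∧
    ∀ μ : ℝ, Few w (univ \ C) μ (c * XA w C d) →
      (1 - ε) * XA w C d < ∑ i ∈ (univ \ C).filter (fun i => c * μ < (w i : ℝ)), (w i : ℝ) ^ 2 ∧
      ∑ i ∈ (univ \ C).filter (fun i => (w i : ℝ) ≤ c * μ), (w i : ℝ) ^ 2 < ε * XA w C d

/-- The class `(d; w)` is tight outside of any three points: for every `ε > 0` and all three points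
`p` with `w (p 2) ≤ w (p 1) ≤ w (p 0)`, `w (p 0) + w (p 1) + w (p 2) ≤ d`, such that all others have
multiplicities at most `c(ε) (d - w (p 0))`, `Tight` holds. -/
def Tight3 (c : ℝ → ℝ) {n : ℕ} (d : ℕ) (w : Fin n → ℕ) : Prop :=
  ∀ (ε : ℝ) (p : Fin 3 → Fin n), 0 < ε → Function.Injective p → w (p 2) ≤ w (p 1) →
    w (p 1) ≤ w (p 0) → w (p 0) + w (p 1) + w (p 2) ≤ d →
    (∀ i, (∀ j, p j ≠ i) → (w i : ℝ) ≤ c ε * ((d : ℝ) - w (p 0))) →
    Tight (c ε) ε d w (univ.image p)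

/-- The class `(d; w)` is tight outside of any chain: for every `ε > 0` and all `t ≥ 1`, `p`, `A` with
`ChainCore t d w p A` such that all other multiplicities are at most `c(ε) t`, `Tight` holds. -/
def TightCh (c : ℝ → ℝ) {n : ℕ} (d : ℕ) (w : Fin n → ℕ) : Prop :=
  ∀ (ε : ℝ) (t : ℕ) (p : Fin n) (A : Finset (Fin n)), 0 < ε → 1 ≤ t → ChainCore t d w p A →
    (∀ i, i ∉ insert p A → (w i : ℝ) ≤ c ε * t) → Tight (c ε) ε d w (insert p A)

/-- `Crit` implies that the expected dimension is small against the volume, if the latter is large. -/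
theorem crit_near {c ε : ℝ} (hc : 0 < c) (hε : 0 < ε) (hε1 : ε ≤ 1) : ∃ Y : ℝ, 1 ≤ Y ∧
    ∀ {n d : ℕ} (w : Fin n → ℕ) (C : Finset (Fin n)), Crit c (ε / 8) d w C → Y ≤ XA w C d →
      |XA w C d - ∑ i ∈ univ \ C, (w i : ℝ) * (w i + 1)| < ε * XA w C d := by
  classical
  obtain ⟨a, ha⟩ : ∃ a : ℝ, a = min 1 (c / 3) := ⟨_, rfl⟩
  have ha0 : 0 < a := by rw [ha]; exact lt_min one_pos (by linarith)
  have ha1 : a ≤ 1 := by rw [ha]; exact min_le_left _ _
  have hac : a ≤ c / 3 := by rw [ha]; exact min_le_right _ _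
  obtain ⟨b, hb⟩ : ∃ b : ℝ, b = 8 / (ε * c * a) := ⟨_, rfl⟩
  have hb0 : 0 < b := by rw [hb]; positivity
  refine ⟨max 1 (b ^ 3), le_max_left _ _, fun {n d} w C hC hY => ?_⟩
  have hX1 : 1 ≤ XA w C d := (le_max_left _ _).trans hY
  have hX3 : b ^ 3 ≤ XA w C d := (le_max_right _ _).trans hY
  obtain ⟨h1, h2⟩ := hC
  obtain ⟨h3, h4⟩ := h2 (a * XA w C d ^ (1 / 3 : ℝ)) (few_cube w _ ha0.le ha1 hac hX1)
  obtain ⟨X, hX⟩ : ∃ X, X = XA w C d := ⟨_, rfl⟩
  rw [← hX] at h1 h3 h4 hX1 hX3 ⊢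
  have hX0 : 0 ≤ X := by linarith
  obtain ⟨q, hq⟩ : ∃ q : ℝ, q = X ^ (1 / 3 : ℝ) := ⟨_, rfl⟩
  have hq0 : 0 ≤ q := by rw [hq]; positivity
  have hq3 : q ^ 3 = X := by
    rw [hq, ← Real.rpow_natCast, ← Real.rpow_mul hX0]
    norm_num
  have hbq : b ≤ q := by
    by_contra hlt
    push Not at hlt
    have := pow_lt_pow_left₀ hlt hq0 (by norm_num : (3 : ℕ) ≠ 0)
    linarith
  rw [← hq] at h3 h4
  obtain ⟨T, hT⟩ : ∃ T : ℝ, T = c * (a * q) := ⟨_, rfl⟩
  rw [← hT] at h3 h4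
  have hT8 : 8 / ε ≤ T := by
    rw [hT]
    have e : 8 / ε = c * (a * b) := by
      rw [hb]
      field_simp
    rw [e]
    exact mul_le_mul_of_nonneg_left (mul_le_mul_of_nonneg_left hbq ha0.le) hc.le
  have hT0 : 0 < T := lt_of_lt_of_le (by positivity) hT8
  have hsplit : ∀ f : Fin n → ℝ, ∑ i ∈ univ \ C, f i =
      ∑ i ∈ (univ \ C).filter (fun i => T < (w i : ℝ)), f i +
      ∑ i ∈ (univ \ C).filter (fun i => (w i : ℝ) ≤ T), f i := fun f => by
    rw [← sum_filter_add_sum_filter_not (univ \ C) (fun i => T < (w i : ℝ))]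
    congr 1
    apply sum_congr _ fun _ _ => rfl
    ext i
    simp only [mem_filter, not_lt]
  -- the linear term
  have h5 : ∑ i ∈ (univ \ C).filter (fun i => (w i : ℝ) ≤ T), (w i : ℝ) ≤ ε / 8 * X := by
    refine le_trans (sum_le_sum fun i _ => ?_) h4.le
    rcases Nat.eq_zero_or_pos (w i) with h0 | h0
    · rw [h0]
      norm_num
    · have : (1 : ℝ) ≤ w i := by exact_mod_cast h0
      nlinarith
  have h6 : T * ∑ i ∈ (univ \ C).filter (fun i => T < (w i : ℝ)), (w i : ℝ) ≤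
      ∑ i ∈ (univ \ C).filter (fun i => T < (w i : ℝ)), (w i : ℝ) ^ 2 := by
    rw [mul_sum]
    refine sum_le_sum fun i hi => ?_
    have h7 := (mem_filter.1 hi).2
    nlinarith
  have h7 : ∑ i ∈ (univ \ C).filter (fun i => T < (w i : ℝ)), (w i : ℝ) ^ 2 ≤
      ∑ i ∈ univ \ C, (w i : ℝ) ^ 2 :=
    sum_le_sum_of_subset_of_nonneg (filter_subset _ _) fun _ _ _ => sq_nonneg _
  have h8 : ∑ i ∈ (univ \ C).filter (fun i => T < (w i : ℝ)), (w i : ℝ) ≤ ε / 4 * X := by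
    have h9 : T * ∑ i ∈ (univ \ C).filter (fun i => T < (w i : ℝ)), (w i : ℝ) ≤ 2 * X := by
      nlinarith
    have h10 : 2 * X ≤ T * (ε / 4 * X) := by
      have h11 : 8 ≤ T * ε := by
        rw [div_le_iff₀ hε] at hT8
        exact hT8
      nlinarith
    exact le_of_mul_le_mul_left (h9.trans h10) hT0
  have h9 : ∑ i ∈ univ \ C, (w i : ℝ) * (w i + 1) =
      ∑ i ∈ univ \ C, (w i : ℝ) ^ 2 + ∑ i ∈ univ \ C, (w i : ℝ) := by
    rw [← sum_add_distrib]
    exact sum_congr rfl fun _ _ => by ring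
  have h10 : ∑ i ∈ univ \ C, (w i : ℝ) ≤ 3 * ε / 8 * X := by
    rw [hsplit]
    linarith
  have h11 : (0 : ℝ) ≤ ∑ i ∈ univ \ C, (w i : ℝ) := sum_nonneg fun _ _ => Nat.cast_nonneg _
  rw [h9, abs_lt]
  have h12 : 0 < ε * X := by positivity
  constructor
  · nlinarith
  · nlinarith

/-- `Crit` for large volumes gives `Tight`. -/
theorem crit_tight (ε : ℝ) (hε : 0 < ε) {c : ℝ} (hc : 0 < c) : ∃ Y : ℝ, 1 ≤ Y ∧
    ∀ {n d : ℕ} (w : Fin n → ℕ) (C : Finset (Fin n)) {c' : ℝ}, 0 < c' → c' ≤ c →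
      Crit c (min ε 1 / 8) d w C → Y ≤ XA w C d → Tight c' ε d w C := by
  obtain ⟨Y, hY, H⟩ := crit_near hc (lt_min hε one_pos) (min_le_right ε 1)
  refine ⟨Y, hY, fun {n d} w C c' hc' hcc h1 h2 => ?_⟩
  have hX : 0 ≤ XA w C d := by linarith
  have h3 : min ε 1 / 8 ≤ ε := by
    have := min_le_left ε 1
    linarith
  refine ⟨lt_of_lt_of_le (H w C h1 h2) (mul_le_mul_of_nonneg_right (min_le_left _ _) hX),
    fun μ hμ => ?_⟩
  obtain ⟨h4, h5⟩ := h1.2 _ (Few.shrink hc' hcc hμ)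
  rw [shrink_mul hc] at h4 h5
  refine ⟨lt_of_le_of_lt (mul_le_mul_of_nonneg_right (by linarith) hX) h4,
    lt_of_lt_of_le h5 (mul_le_mul_of_nonneg_right h3 hX)⟩

/-- `Crit` implies that there are points outside of `C`, if the volume is positive. -/
theorem Crit.exists {c ε : ℝ} {n d : ℕ} {w : Fin n → ℕ} {C : Finset (Fin n)}
    (h : Crit c ε d w C) (hε : ε ≤ 1) (hX : 0 ≤ c * XA w C d) (hX' : 0 ≤ XA w C d) :
    ∃ i, i ∉ C ∧ 1 ≤ w i := by
  by_contra hn
  push Not at hn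
  have h1 := (h.2 0 (Or.inr ⟨le_rfl, by simpa using hX⟩)).1
  have h2 : ∑ i ∈ (univ \ C).filter (fun i => c * 0 < (w i : ℝ)), (w i : ℝ) ^ 2 = 0 :=
    sum_eq_zero fun i hi => by
      have h3 := hn i (mem_sdiff.1 (mem_filter.1 hi).1).2
      have h4 : w i = 0 := by omega
      rw [h4]
      norm_num
  rw [h2] at h1
  nlinarith

/-- the volume left by three points -/
theorem XA_three_sq {n d : ℕ} {w : Fin n → ℕ} {p : Fin 3 → Fin n} (hp : Function.Injective p)
    (h1 : w (p 2) ≤ w (p 1)) (h2 : w (p 1) ≤ w (p 0)) (h : w (p 0) + w (p 1) + w (p 2) ≤ d) :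
    (d : ℝ) * ((d : ℝ) - w (p 0)) + 2 * d + 2 ≤ XA w (univ.image p) d := by
  classical
  unfold XA
  rw [sum_image (fun a _ b _ hab => hp hab), Fin.sum_univ_three]
  have h0 : (w (p 0) : ℝ) + w (p 1) + w (p 2) ≤ d := by exact_mod_cast h
  have h1' : (w (p 2) : ℝ) ≤ w (p 1) := by exact_mod_cast h1
  have h2' : (w (p 1) : ℝ) ≤ w (p 0) := by exact_mod_cast h2
  have a0 : (0 : ℝ) ≤ w (p 0) := Nat.cast_nonneg _
  have a1 : (0 : ℝ) ≤ w (p 1) := Nat.cast_nonneg _
  have a2 : (0 : ℝ) ≤ w (p 2) := Nat.cast_nonneg _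
  generalize (w (p 0) : ℝ) = x at *
  generalize (w (p 1) : ℝ) = y at *
  generalize (w (p 2) : ℝ) = z at *
  have h3 : y * y ≤ x * y := mul_le_mul_of_nonneg_right h2' a1
  have h4 : z * z ≤ x * z := mul_le_mul_of_nonneg_right (h1'.trans h2') a2
  have h5 : x * (x + y + z) ≤ x * d := mul_le_mul_of_nonneg_left h0 a0
  nlinarith

/-- the volume left by a chain -/
theorem XA_chain {n t d : ℕ} {w : Fin n → ℕ} {p : Fin n} {A : Finset (Fin n)}
    (ht : 1 ≤ t) (h : ChainCore t d w p A) : (t : ℝ) ^ 2 ≤ XA w (insert p A) d ∧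
      (t : ℝ) ≤ XA w (insert p A) d := by
  classical
  obtain ⟨e, he, h1, h2, h3⟩ := chain_vol h
  have htR : (1 : ℝ) ≤ t := by exact_mod_cast ht
  have heR : (1 : ℝ) ≤ e := by exact_mod_cast he
  have h1R : 2 ^ 27 * (t : ℝ) * e ≤ d := by exact_mod_cast h1
  have hd : (t : ℝ) ≤ d := by nlinarith
  have hd0 : (0 : ℝ) ≤ d := Nat.cast_nonneg _
  have hX : XA w (insert p A) d = ((d : ℝ) ^ 2 - ∑ i ∈ insert p A, (w i : ℝ) ^ 2) + 3 * d + 2 -
      ∑ i ∈ insert p A, (w i : ℝ) := by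
    unfold XA
    have : ∑ i ∈ insert p A, (w i : ℝ) * (w i + 1) =
        ∑ i ∈ insert p A, (w i : ℝ) ^ 2 + ∑ i ∈ insert p A, (w i : ℝ) := by
      rw [← sum_add_distrib]
      exact sum_congr rfl fun _ _ => by ring
    rw [this]
    ring
  have h4 : (t : ℝ) * d ≤ XA w (insert p A) d := by
    rw [hX]
    have h5 : (e : ℝ) * d ≤ (t : ℝ) * e * d := by
      have : (e : ℝ) * d * 1 ≤ e * d * t := mul_le_mul_of_nonneg_left htR (by positivity)
      linarith
    have h6 : (t : ℝ) * d ≤ (t : ℝ) * e * d := by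
      have : (t : ℝ) * d * 1 ≤ t * d * e := mul_le_mul_of_nonneg_left heR (by positivity)
      linarith
    have h7 : (0 : ℝ) ≤ (t : ℝ) * e * d := by positivity
    nlinarith
  refine ⟨le_trans ?_ h4, le_trans ?_ h4⟩
  · nlinarith
  · nlinarith

/-- Three arbitrary multiplicities: everything with one constant. -/
theorem main3_tight (ε : ℝ) (hε : 0 < ε) : ∃ c : ℝ, 0 < c ∧ ∀ {n d : ℕ} (w : Fin n → ℕ)
    (p : Fin 3 → Fin n), Function.Injective p → w (p 2) ≤ w (p 1) → w (p 1) ≤ w (p 0) →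
    w (p 0) + w (p 1) + w (p 2) ≤ d →
    (∀ i, (∀ j, p j ≠ i) → (w i : ℝ) ≤ c * ((d : ℝ) - w (p 0))) →
    ¬ Tight c ε d w (univ.image p) → GenExp d w := by
  classical
  have hε8 : 0 < min ε 1 / 8 := by
    have : 0 < min ε 1 := lt_min hε one_pos
    linarith
  obtain ⟨c1, hc1, H1⟩ := main3_two (min ε 1 / 8) hε8
  obtain ⟨Y, hY, H2⟩ := crit_tight ε hε hc1
  refine ⟨min c1 (1 / Y), lt_min hc1 (by positivity), fun {n d} w p h1 h2 h3 h4 h5 h6 => ?_⟩
  have hc : 0 < min c1 (1 / Y) := lt_min hc1 (by positivity)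
  have hd : (0 : ℝ) ≤ (d : ℝ) - w (p 0) := by
    have : ((w (p 0) : ℕ) : ℝ) ≤ (d : ℝ) := by exact_mod_cast (by omega : w (p 0) ≤ d)
    linarith
  have hX := XA_three_sq h1 h2 h3 h4
  have hd0 : (0 : ℝ) ≤ d := Nat.cast_nonneg _
  have hX0 : 0 < XA w (univ.image p) d := by nlinarith
  refine @H1 n d w p h1 h2 h3 h4 (fun i hi => (h5 i hi).trans
      (mul_le_mul_of_nonneg_right (min_le_left _ _) hd)) fun h7 => h6 ?_
  refine @H2 n d w (univ.image p) _ hc (min_le_left _ _) h7 ?_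
  by_contra hlt
  push Not at hlt
  have h8 : min ε 1 / 8 ≤ 1 := by
    have := min_le_right ε 1
    linarith
  obtain ⟨i, hi, hi1⟩ := h7.exists h8 (by positivity) hX0.le
  have h9 := h5 i fun j hj => hi (mem_image.2 ⟨j, mem_univ _, hj⟩)
  have h10 : (1 : ℝ) ≤ w i := by exact_mod_cast hi1
  have h11 : min c1 (1 / Y) * ((d : ℝ) - w (p 0)) ≤ 1 / Y * ((d : ℝ) - w (p 0)) :=
    mul_le_mul_of_nonneg_right (min_le_right _ _) hd
  have h12 : Y ≤ (d : ℝ) - w (p 0) := by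
    have h13 : 1 ≤ 1 / Y * ((d : ℝ) - w (p 0)) := h10.trans (h9.trans h11)
    have h14 : 0 < Y := by linarith
    rw [one_div, inv_mul_eq_div, le_div_iff₀ h14] at h13
    linarith
  rcases Nat.eq_zero_or_pos d with h13 | h13
  · have h15 : (d : ℝ) = 0 := by rw [h13]; norm_num
    have h14 : (0 : ℝ) ≤ w (p 0) := Nat.cast_nonneg _
    linarith
  · have h14 : (1 : ℝ) ≤ d := by exact_mod_cast h13
    nlinarith

/-- Chains: everything with one constant. -/
theorem mainCh_tight (ε : ℝ) (hε : 0 < ε) : ∃ c : ℝ, 0 < c ∧ ∀ {n d t : ℕ} (w : Fin n → ℕ)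
    (p : Fin n) (A : Finset (Fin n)), 1 ≤ t → ChainCore t d w p A →
    (∀ i, i ∉ insert p A → (w i : ℝ) ≤ c * t) → ¬ Tight c ε d w (insert p A) → GenExp d w := by
  classical
  have hε8 : 0 < min ε 1 / 8 := by
    have : 0 < min ε 1 := lt_min hε one_pos
    linarith
  obtain ⟨c1, hc1, H1⟩ := mainCh_two (min ε 1 / 8) hε8
  obtain ⟨Y, hY, H2⟩ := crit_tight ε hε hc1
  refine ⟨min c1 (1 / Y), lt_min hc1 (by positivity), fun {n d t} w p A ht hcc h5 h6 => ?_⟩
  have hc : 0 < min c1 (1 / Y) := lt_min hc1 (by positivity)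
  have htR : (0 : ℝ) ≤ t := Nat.cast_nonneg _
  have hX := XA_chain ht hcc
  have ht1 : (1 : ℝ) ≤ t := by exact_mod_cast ht
  have hX0 : 0 < XA w (insert p A) d := by linarith [hX.2]
  refine @H1 n d t w p A ht hcc (fun i hi => (h5 i hi).trans
      (mul_le_mul_of_nonneg_right (min_le_left _ _) htR)) fun h7 => h6 ?_
  refine @H2 n d w (insert p A) _ hc (min_le_left _ _) h7 ?_
  by_contra hlt
  push Not at hlt
  have h8 : min ε 1 / 8 ≤ 1 := by
    have := min_le_right ε 1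
    linarith
  obtain ⟨i, hi, hi1⟩ := h7.exists h8 (by positivity) hX0.le
  have h9 := h5 i hi
  have h10 : (1 : ℝ) ≤ w i := by exact_mod_cast hi1
  have h11 : min c1 (1 / Y) * (t : ℝ) ≤ 1 / Y * (t : ℝ) :=
    mul_le_mul_of_nonneg_right (min_le_right _ _) htR
  have h12 : Y ≤ (t : ℝ) := by
    have h13 : 1 ≤ 1 / Y * (t : ℝ) := h10.trans (h9.trans h11)
    have h14 : 0 < Y := by linarith
    rw [one_div, inv_mul_eq_div, le_div_iff₀ h14] at h13
    linarith
  linarith [hX.2]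

theorem tight3_all : ∃ c : ℝ → ℝ, (∀ ε, 0 < ε → 0 < c ε) ∧
    ∀ {n d : ℕ} (w : Fin n → ℕ), ¬ Tight3 c d w → GenExp d w := by
  have h := main3_tight
  choose! c hc H using h
  refine ⟨c, hc, fun {n d} w hw => ?_⟩
  unfold Tight3 at hw
  push Not at hw
  obtain ⟨ε, p, hε, h1, h2, h3, h4, h5, h6⟩ := hw
  exact @H ε hε n d w p h1 h2 h3 h4 h5 h6

theorem tightCh_all : ∃ c : ℝ → ℝ, (∀ ε, 0 < ε → 0 < c ε) ∧
    ∀ {n d : ℕ} (w : Fin n → ℕ), ¬ TightCh c d w → GenExp d w := by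
  have h := mainCh_tight
  choose! c hc H using h
  refine ⟨c, hc, fun {n d} w hw => ?_⟩
  unfold TightCh at hw
  push Not at hw
  obtain ⟨ε, t, p, A, hε, h1, h2, h3, h4⟩ := hw
  exact @H ε hε n d t w p A h1 h2 h3 h4

/-- A subset of points with a prescribed sum, up to one term. -/
theorem exists_subset_sum {ι : Type*} [DecidableEq ι] (S : Finset ι) (f : ι → ℝ) {m B : ℝ}
    (hf : ∀ i ∈ S, 0 ≤ f i) (hm : ∀ i ∈ S, f i ≤ m) (hB : 0 ≤ B) :
    ∃ T ⊆ S, ∑ i ∈ T, f i ≤ B ∧ (T = S ∨ B - m < ∑ i ∈ T, f i) := by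
  induction S using Finset.induction_on with
  | empty => exact ⟨∅, Subset.refl _, by simpa using hB, Or.inl rfl⟩
  | insert a S ha ih =>
    obtain ⟨T, hT, h1, h2⟩ := ih (fun i hi => hf i (mem_insert_of_mem hi))
      (fun i hi => hm i (mem_insert_of_mem hi))
    have haT : a ∉ T := fun h => ha (hT h)
    rcases h2 with h2 | h2
    · subst h2
      rcases le_or_gt (∑ i ∈ insert a T, f i) B with h3 | h3
      · exact ⟨insert a T, Subset.refl _, h3, Or.inl rfl⟩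
      · refine ⟨T, subset_insert _ _, h1, Or.inr ?_⟩
        rw [sum_insert haT] at h3
        have := hm a (mem_insert_self _ _)
        linarith
    · exact ⟨T, hT.trans (subset_insert _ _), h1, Or.inr h2⟩

/-- Removal of points outside of `C`: the part left free can be made to lie between `ε / 2` and `ε`. -/
theorem drop_near {n d : ℕ} {w : Fin n → ℕ} {C : Finset (Fin n)} {ε M : ℝ} (hε : 0 < ε)
    (hε1 : ε ≤ 1) (hX : 0 ≤ XA w C d) (hw : ∀ i ∉ C, (w i : ℝ) ≤ M)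
    (hM : 4 * M ^ 2 ≤ ε * XA w C d) :
    ∃ v : Fin n → ℕ, (∀ i, v i ≤ w i) ∧ (∀ i ∈ C, v i = w i) ∧
      ε / 2 * XA w C d ≤ XA w C d - ∑ i ∈ univ \ C, (v i : ℝ) * (v i + 1) ∧
      XA w C d - ∑ i ∈ univ \ C, (v i : ℝ) * (v i + 1) ≤
        max (XA w C d - ∑ i ∈ univ \ C, (w i : ℝ) * (w i + 1)) (ε * XA w C d) := by
  classical
  obtain ⟨X, hX'⟩ : ∃ X, X = XA w C d := ⟨_, rfl⟩
  rw [← hX'] at hX hM ⊢
  obtain ⟨T, hT, h1, h2⟩ := exists_subset_sum (univ \ C) (fun i => (w i : ℝ) * (w i + 1))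
    (m := ε / 2 * X) (B := (1 - ε / 2) * X) (fun i _ => by positivity) (fun i hi => by
      have h3 := hw i (mem_sdiff.1 hi).2
      rcases Nat.eq_zero_or_pos (w i) with h0 | h0
      · rw [h0]
        norm_num
        positivity
      · have h4 : (1 : ℝ) ≤ w i := by exact_mod_cast h0
        have h5 : (w i : ℝ) * (w i + 1) ≤ 2 * (w i : ℝ) ^ 2 := by nlinarith
        have h6 : (w i : ℝ) ^ 2 ≤ M ^ 2 := pow_le_pow_left₀ (by linarith) h3 2
        linarith) (mul_nonneg (by linarith) hX)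
  have hTC : ∀ i ∈ T, i ∉ C := fun i hi => (mem_sdiff.1 (hT hi)).2
  refine ⟨fun i => if i ∈ C ∪ T then w i else 0, fun i => ?_, fun i hi => ?_, ?_⟩
  · dsimp only
    split
    · exact le_rfl
    · exact Nat.zero_le _
  · dsimp only
    rw [if_pos (mem_union_left _ hi)]
  · have h3 : ∑ i ∈ univ \ C, ((if i ∈ C ∪ T then w i else 0 : ℕ) : ℝ) *
        ((if i ∈ C ∪ T then w i else 0 : ℕ) + 1) = ∑ i ∈ T, (w i : ℝ) * (w i + 1) := by
      rw [← sum_subset hT fun i hi hiT => ?_]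
      · refine sum_congr rfl fun i hi => ?_
        rw [if_pos (mem_union_right _ hi)]
      · rw [if_neg (by
          rw [mem_union, not_or]
          exact ⟨(mem_sdiff.1 hi).2, hiT⟩)]
        norm_num
    rw [h3]
    refine ⟨by linarith, ?_⟩
    rcases h2 with h2 | h2
    · rw [h2]
      exact le_max_left _ _
    · exact le_trans (by linarith) (le_max_right _ _)

end Pool.Agent.H200M
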