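import Pool.Agent.H200M.Near

/-! # Project MC: the dimension, without exceptions, up to a fraction of the volume. -/

set_option autoImplicit false

namespace Pool.Agent.H200M

open Finset Pool.Agent.H200W Pool.Agent.H200P Pool.Agent.H200C Pool.Agent.H200G
open Pool.Agent.TH167 Pool.Agent.TH167.SH Pool.Agent.TH442.NF Pool.Agent.H932R3 Pool.Agent.W609.CR
open Pool.Agent

/-- For points with algebraically independent coordinates the forms of degree `d` with multiplicities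
at least `w i` at the points have dimension at most `B`. -/
def GenLe (B : ℝ) {n : ℕ} (d : ℕ) (w : Fin n → ℕ) : Prop :=
  ∀ {K : Type} [Field K] [CharZero K] {P : Fin n → Fin 2 → K},
    AlgebraicIndependent ℚ (fun ij : Fin n × Fin 2 => P ij.1 ij.2) →
      (Module.finrank K ↥(SHDefs.sys P d w) : ℝ) ≤ B

theorem sys_le {K : Type} [Field K] {n : ℕ} {P : Fin n → Fin 2 → K} {d : ℕ} {v w : Fin n → ℕ}
    (h : ∀ i, v i ≤ w i) :
    Module.finrank K ↥(SHDefs.sys P d w) ≤ Module.finrank K ↥(SHDefs.sys P d v) := by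
  rw [sys_eq, sys_eq]
  have hle : VS (fun j => aff (P j)) w d ≤ VS (fun j => aff (P j)) v d := by
    rintro G ⟨hG1, hG2⟩
    have h2 : G ∈ ⨅ i, (RingHom.ker (MvPolynomial.eval (aff (P i)))) ^ (w i) := hG2
    have h3 : G ∈ ⨅ i, (RingHom.ker (MvPolynomial.eval (aff (P i)))) ^ (v i) := by
      rw [Submodule.mem_iInf] at h2 ⊢
      exact fun i => Ideal.pow_le_pow_right (h i) (h2 i)
    exact ⟨hG1, h3⟩
  have hfin : Module.Finite K ↥(VS (fun j => aff (P j)) v d) := by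
    have : Module.Finite K ↥(MvPolynomial.homogeneousSubmodule (Fin 3) K d) :=
      Module.Finite.iff_fg.2 (MvPolynomial.homogeneousSubmodule_fg _ _ d)
    exact Submodule.finiteDimensional_of_le (S₂ := MvPolynomial.homogeneousSubmodule (Fin 3) K d)
      inf_le_left
  exact Submodule.finrank_mono hle

theorem genLe_of {n d : ℕ} {v w : Fin n → ℕ} {B : ℝ} (h : ∀ i, v i ≤ w i) (hv : GenExp d v)
    (hB : ((max 0 (chi d v) : ℤ) : ℝ) ≤ B) : GenLe B d w := by
  intro K _ _ P hP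
  have h1 := hv hP
  rw [expDim_iff, ← sys_eq] at h1
  have h2 := sys_le (K := K) (P := P) (d := d) h
  have h3 : (Module.finrank K ↥(SHDefs.sys P d w) : ℝ) ≤
      (Module.finrank K ↥(SHDefs.sys P d v) : ℝ) := by exact_mod_cast h2
  have h4 : (Module.finrank K ↥(SHDefs.sys P d v) : ℝ) = ((max 0 (chi d v) : ℤ) : ℝ) := by
    rw [← h1]
    norm_num
  linarith

/-- twice the Euler characteristic -/
theorem two_chi_XA {n : ℕ} (d : ℕ) (w : Fin n → ℕ) (C : Finset (Fin n)) :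
    2 * ((chi d w : ℤ) : ℝ) = XA w C d - ∑ i ∈ univ \ C, (w i : ℝ) * (w i + 1) := by
  have hch : ∀ m : ℕ, 2 * (((m + 1).choose 2 : ℕ) : ℝ) = (m : ℝ) * (m + 1) := fun m => by
    have h : (m + 1).choose 2 * 2 = (m + 1) * m := by
      rw [Nat.choose_two_right, Nat.add_sub_cancel]
      exact Nat.div_mul_cancel (by
        have := Nat.even_mul_succ_self m
        rw [mul_comm] at this
        exact this.two_dvd)
    have h' : (((m + 1).choose 2 : ℕ) : ℝ) * 2 = ((m : ℝ) + 1) * m := by exact_mod_cast h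
    linarith
  have h1 : ((chi d w : ℤ) : ℝ) = (((d + 1 + 1).choose 2 : ℕ) : ℝ) -
      ∑ i, (((w i + 1).choose 2 : ℕ) : ℝ) := by
    unfold chi
    push_cast
    rfl
  have h2 : 2 * ∑ i, (((w i + 1).choose 2 : ℕ) : ℝ) = ∑ i, (w i : ℝ) * (w i + 1) := by
    rw [mul_sum]
    exact sum_congr rfl fun i _ => hch _
  have h3 := hch (d + 1)
  rw [h1, mul_sub, h2, h3]
  unfold XA
  rw [← sum_sdiff (subset_univ C)]
  push_cast
  ring

/-- A smaller constant. -/
theorem Tight.mono {c c' ε : ℝ} {n d : ℕ} {w : Fin n → ℕ} {C : Finset (Fin n)}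
    (h : Tight c ε d w C) (hc' : 0 < c') (hcc : c' ≤ c) : Tight c' ε d w C := by
  refine ⟨h.1, fun μ hμ => ?_⟩
  have h1 := h.2 _ (Few.shrink hc' hcc hμ)
  rw [shrink_mul (lt_of_lt_of_le hc' hcc)] at h1
  exact h1

/-- From a class which is not tight, by removal of points. -/
theorem genLe_of_tight {n d : ℕ} {w : Fin n → ℕ} {C : Finset (Fin n)} {c ε M : ℝ} (hε : 0 < ε)
    (hε1 : ε ≤ 1) (hX : 0 ≤ XA w C d) (hw : ∀ i ∉ C, (w i : ℝ) ≤ M)
    (hM : 4 * M ^ 2 ≤ ε * XA w C d)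
    (h : ∀ v : Fin n → ℕ, (∀ i, v i ≤ w i) → (∀ i ∈ C, v i = w i) → ¬ Tight c (ε / 2) d v C →
      GenExp d v) :
    GenLe (max ((chi d w : ℤ) : ℝ) (ε * XA w C d / 2)) d w := by
  obtain ⟨v, h1, h2, h3, h4⟩ := drop_near hε hε1 hX hw hM
  have hXv : XA v C d = XA w C d := by
    unfold XA
    congr 1
    exact sum_congr rfl fun i hi => by rw [h2 i hi]
  refine @genLe_of n d v w _ h1 (@h v h1 h2 fun ht => ?_) ?_
  · have h5 := ht.1
    rw [hXv] at h5
    have h6 := (abs_lt.1 h5).2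
    linarith
  · have h5 := two_chi_XA d v C
    have h6 := two_chi_XA d w C
    rw [hXv] at h5
    rw [Int.cast_max, max_le_iff]
    have h7 : 0 ≤ ε * XA w C d := mul_nonneg hε.le hX
    refine ⟨?_, ?_⟩
    · push_cast
      exact le_trans (by linarith) (le_max_right _ _)
    · rcases le_total (XA w C d - ∑ i ∈ univ \ C, (w i : ℝ) * (w i + 1)) (ε * XA w C d) with h8 | h8
      · rw [max_eq_right h8] at h4
        exact le_trans (by linarith) (le_max_right _ _)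
      · rw [max_eq_left h8] at h4
        exact le_trans (by linarith) (le_max_left _ _)

/-- Three arbitrary multiplicities: everything, and the bound of the dimension without exceptions. -/
theorem main3_dim (ε : ℝ) (hε : 0 < ε) : ∃ c : ℝ, 0 < c ∧ ∀ {n d : ℕ} (w : Fin n → ℕ)
    (p : Fin 3 → Fin n), Function.Injective p → w (p 2) ≤ w (p 1) → w (p 1) ≤ w (p 0) →
    w (p 0) + w (p 1) + w (p 2) ≤ d →
    (∀ i, (∀ j, p j ≠ i) → (w i : ℝ) ≤ c * ((d : ℝ) - w (p 0))) →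
    (¬ Tight c ε d w (univ.image p) → GenExp d w) ∧
      GenLe (max ((chi d w : ℤ) : ℝ) (ε * XA w (univ.image p) d / 2)) d w := by
  classical
  obtain ⟨c1, hc1, H1⟩ := main3_tight ε hε
  obtain ⟨δ, hδ⟩ : ∃ δ, δ = min ε 1 := ⟨_, rfl⟩
  have hδ0 : 0 < δ := by rw [hδ]; exact lt_min hε one_pos
  have hδ1 : δ ≤ 1 := by rw [hδ]; exact min_le_right _ _
  have hδε : δ ≤ ε := by rw [hδ]; exact min_le_left _ _
  obtain ⟨c2, hc2, H2⟩ := main3_tight (δ / 2) (by linarith)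
  have hc : 0 < min c1 (min c2 (δ / 4)) := lt_min hc1 (lt_min hc2 (by linarith))
  refine ⟨min c1 (min c2 (δ / 4)), hc, fun {n d} w p h1 h2 h3 h4 h5 => ?_⟩
  have hd : (0 : ℝ) ≤ (d : ℝ) - w (p 0) := by
    have : ((w (p 0) : ℕ) : ℝ) ≤ (d : ℝ) := by exact_mod_cast (by omega : w (p 0) ≤ d)
    linarith
  have hX := XA_three_sq h1 h2 h3 h4
  have hd0 : (0 : ℝ) ≤ d := Nat.cast_nonneg _
  have hX0 : 0 < XA w (univ.image p) d := by nlinarith
  have hw0 : (0 : ℝ) ≤ w (p 0) := Nat.cast_nonneg _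
  have hX2 : ((d : ℝ) - w (p 0)) ^ 2 ≤ XA w (univ.image p) d := by nlinarith
  refine ⟨fun h6 => @H1 n d w p h1 h2 h3 h4 (fun i hi => (h5 i hi).trans
      (mul_le_mul_of_nonneg_right (min_le_left _ _) hd)) fun h7 => h6 (h7.mono hc (min_le_left _ _)),
    ?_⟩
  have h6 : GenLe (max ((chi d w : ℤ) : ℝ) (δ * XA w (univ.image p) d / 2)) d w := by
    refine genLe_of_tight (c := c2) (M := δ / 4 * ((d : ℝ) - w (p 0))) hδ0 hδ1 hX0.le
      (fun i hi => ?_) ?_ fun v hv1 hv2 hv3 => ?_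
    · have h7 : ∀ j, p j ≠ i := fun j hj => hi (mem_image.2 ⟨j, mem_univ _, hj⟩)
      exact (h5 i h7).trans (mul_le_mul_of_nonneg_right ((min_le_right _ _).trans
        (min_le_right _ _)) hd)
    · have h7 : 4 * (δ / 4 * ((d : ℝ) - w (p 0))) ^ 2 = δ ^ 2 / 4 * ((d : ℝ) - w (p 0)) ^ 2 := by ring
      rw [h7]
      have h8 : δ ^ 2 / 4 ≤ δ := by nlinarith
      exact mul_le_mul h8 hX2 (sq_nonneg _) hδ0.le
    · have e : ∀ j, v (p j) = w (p j) := fun j => hv2 _ (mem_image.2 ⟨j, mem_univ _, rfl⟩)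
      refine @H2 n d v p h1 (by rw [e, e]; exact h2) (by rw [e, e]; exact h3)
        (by rw [e, e, e]; exact h4) (fun i hi => ?_) hv3
      rw [e]
      have h7 : ((v i : ℕ) : ℝ) ≤ w i := by exact_mod_cast hv1 i
      exact h7.trans ((h5 i hi).trans (mul_le_mul_of_nonneg_right ((min_le_right _ _).trans
        (min_le_left _ _)) hd))
  intro K _ _ P hP
  refine (h6 hP).trans (max_le_max le_rfl ?_)
  have := mul_le_mul_of_nonneg_right hδε hX0.le
  linarith

/-- Chains: everything, and the bound of the dimension without exceptions. -/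
theorem mainCh_dim (ε : ℝ) (hε : 0 < ε) : ∃ c : ℝ, 0 < c ∧ ∀ {n d t : ℕ} (w : Fin n → ℕ)
    (p : Fin n) (A : Finset (Fin n)), 1 ≤ t → ChainCore t d w p A →
    (∀ i, i ∉ insert p A → (w i : ℝ) ≤ c * t) →
    (¬ Tight c ε d w (insert p A) → GenExp d w) ∧
      GenLe (max ((chi d w : ℤ) : ℝ) (ε * XA w (insert p A) d / 2)) d w := by
  classical
  obtain ⟨c1, hc1, H1⟩ := mainCh_tight ε hε
  obtain ⟨δ, hδ⟩ : ∃ δ, δ = min ε 1 := ⟨_, rfl⟩
  have hδ0 : 0 < δ := by rw [hδ]; exact lt_min hε one_pos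
  have hδ1 : δ ≤ 1 := by rw [hδ]; exact min_le_right _ _
  have hδε : δ ≤ ε := by rw [hδ]; exact min_le_left _ _
  obtain ⟨c2, hc2, H2⟩ := mainCh_tight (δ / 2) (by linarith)
  have hc : 0 < min c1 (min c2 (δ / 4)) := lt_min hc1 (lt_min hc2 (by linarith))
  refine ⟨min c1 (min c2 (δ / 4)), hc, fun {n d t} w p A ht hcc h5 => ?_⟩
  have htR : (0 : ℝ) ≤ t := Nat.cast_nonneg _
  have ht1 : (1 : ℝ) ≤ t := by exact_mod_cast ht
  obtain ⟨hX2, hX1⟩ := XA_chain ht hcc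
  have hX0 : 0 < XA w (insert p A) d := by linarith
  refine ⟨fun h6 => @H1 n d t w p A ht hcc (fun i hi => (h5 i hi).trans
      (mul_le_mul_of_nonneg_right (min_le_left _ _) htR)) fun h7 => h6 (h7.mono hc (min_le_left _ _)),
    ?_⟩
  have h6 : GenLe (max ((chi d w : ℤ) : ℝ) (δ * XA w (insert p A) d / 2)) d w := by
    refine genLe_of_tight (c := c2) (M := δ / 4 * (t : ℝ)) hδ0 hδ1 hX0.le
      (fun i hi => ?_) ?_ fun v hv1 hv2 hv3 => ?_
    · exact (h5 i hi).trans (mul_le_mul_of_nonneg_right ((min_le_right _ _).trans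
        (min_le_right _ _)) htR)
    · have h7 : 4 * (δ / 4 * (t : ℝ)) ^ 2 = δ ^ 2 / 4 * (t : ℝ) ^ 2 := by ring
      rw [h7]
      have h8 : δ ^ 2 / 4 ≤ δ := by nlinarith
      exact mul_le_mul h8 hX2 (sq_nonneg _) hδ0.le
    · have hvc : ChainCore t d v p A := by
        obtain ⟨a1, E, m, a2, a3, a4, a5, a6⟩ := hcc
        have e : ∀ i ∈ A, v i = w i := fun i hi => hv2 i (mem_insert_of_mem hi)
        have ep : v p = w p := hv2 p (mem_insert_self _ _)
        refine ⟨a1, E, m, a2, a3, fun i hi => by rw [e i hi]; exact a4 i hi, by rw [ep]; exact a5,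
          fun k hk hk' => ?_⟩
        have h7 := a6 k hk hk'
        have h8 : ∑ i ∈ A, (v i - k) = ∑ i ∈ A, (w i - k) :=
          sum_congr rfl fun i hi => by rw [e i hi]
        have h9 : (A.filter fun i => k < v i ∧ v i ≤ k + 2 ^ 26 * t) =
            A.filter fun i => k < w i ∧ w i ≤ k + 2 ^ 26 * t :=
          filter_congr fun i hi => by rw [e i hi]
        rw [h8, h9]
        exact h7
      refine @H2 n d t v p A ht hvc (fun i hi => ?_) hv3
      have h7 : ((v i : ℕ) : ℝ) ≤ w i := by exact_mod_cast hv1 i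
      exact h7.trans ((h5 i hi).trans (mul_le_mul_of_nonneg_right ((min_le_right _ _).trans
        (min_le_left _ _)) htR))
  intro K _ _ P hP
  refine (h6 hP).trans (max_le_max le_rfl ?_)
  have := mul_le_mul_of_nonneg_right hδε hX0.le
  linarith

/-- `D` is at most the larger one of the Euler characteristic of the class `(d; w)` and of `ε X / 2`, `X / 2`
the number of forms left by three points `p` with `w (p 2) ≤ w (p 1) ≤ w (p 0)`,
`w (p 0) + w (p 1) + w (p 2) ≤ d`, as expected, for all `ε > 0` and all such `p` for which all others have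
multiplicities at most `c(ε) (d - w (p 0))`. -/
def Bound3 (c : ℝ → ℝ) {n : ℕ} (d : ℕ) (w : Fin n → ℕ) (D : ℝ) : Prop :=
  ∀ (ε : ℝ) (p : Fin 3 → Fin n), 0 < ε → Function.Injective p → w (p 2) ≤ w (p 1) →
    w (p 1) ≤ w (p 0) → w (p 0) + w (p 1) + w (p 2) ≤ d →
    (∀ i, (∀ j, p j ≠ i) → (w i : ℝ) ≤ c ε * ((d : ℝ) - w (p 0))) →
    D ≤ max (((d + 2).choose 2 : ℝ) - ∑ i, ((w i + 1).choose 2 : ℝ))
      (ε * XA w (univ.image p) d / 2)

/-- `D` is at most the larger one of the Euler characteristic of the class `(d; w)` and of `ε X / 2`, `X / 2`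
the number of forms left by the points `p` and `A` of a chain, as expected, for all `ε > 0` and all `t ≥ 1`,
`p`, `A` with `ChainCore t d w p A` such that all other multiplicities are at most `c(ε) t`. -/
def BoundCh (c : ℝ → ℝ) {n : ℕ} (d : ℕ) (w : Fin n → ℕ) (D : ℝ) : Prop :=
  ∀ (ε : ℝ) (t : ℕ) (p : Fin n) (A : Finset (Fin n)), 0 < ε → 1 ≤ t → ChainCore t d w p A →
    (∀ i, i ∉ insert p A → (w i : ℝ) ≤ c ε * t) →
    D ≤ max (((d + 2).choose 2 : ℝ) - ∑ i, ((w i + 1).choose 2 : ℝ))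
      (ε * XA w (insert p A) d / 2)

theorem chi_cast {n : ℕ} (d : ℕ) (w : Fin n → ℕ) : ((chi d w : ℤ) : ℝ) =
    ((d + 2).choose 2 : ℝ) - ∑ i, ((w i + 1).choose 2 : ℝ) := by
  unfold chi
  push_cast
  rfl

/-- For points with algebraically independent coordinates the dimension satisfies `Bound3`. -/
def Gen3 (c : ℝ → ℝ) : Prop := ∀ {n d : ℕ} (w : Fin n → ℕ) {K : Type} [Field K] [CharZero K]
  {P : Fin n → Fin 2 → K}, AlgebraicIndependent ℚ (fun ij : Fin n × Fin 2 => P ij.1 ij.2) →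
    Bound3 c d w (Module.finrank K ↥(SHDefs.sys P d w) : ℝ)

/-- For points with algebraically independent coordinates the dimension satisfies `BoundCh`. -/
def GenCh (c : ℝ → ℝ) : Prop := ∀ {n d : ℕ} (w : Fin n → ℕ) {K : Type} [Field K] [CharZero K]
  {P : Fin n → Fin 2 → K}, AlgebraicIndependent ℚ (fun ij : Fin n × Fin 2 => P ij.1 ij.2) →
    BoundCh c d w (Module.finrank K ↥(SHDefs.sys P d w) : ℝ)

/-- Three arbitrary multiplicities, one function for all `ε`. -/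
theorem dim3_all : ∃ c : ℝ → ℝ, (∀ ε, 0 < ε → 0 < c ε) ∧
    (∀ {n d : ℕ} (w : Fin n → ℕ), ¬ Tight3 c d w → GenExp d w) ∧ Gen3 c := by
  have h := main3_dim
  choose! c hc H using h
  refine ⟨c, hc, fun {n d} w hw => ?_, fun {n d} w K _ _ P hP ε p hε h1 h2 h3 h4 h5 => ?_⟩
  · unfold Tight3 at hw
    push Not at hw
    obtain ⟨ε, p, hε, h1, h2, h3, h4, h5, h6⟩ := hw
    exact (@H ε hε n d w p h1 h2 h3 h4 h5).1 h6
  · rw [← chi_cast]
    exact (@H ε hε n d w p h1 h2 h3 h4 h5).2 hP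

/-- Chains, one function for all `ε`. -/
theorem dimCh_all : ∃ c : ℝ → ℝ, (∀ ε, 0 < ε → 0 < c ε) ∧
    (∀ {n d : ℕ} (w : Fin n → ℕ), ¬ TightCh c d w → GenExp d w) ∧ GenCh c := by
  have h := mainCh_dim
  choose! c hc H using h
  refine ⟨c, hc, fun {n d} w hw => ?_, fun {n d} w K _ _ P hP ε t p A hε h1 h2 h3 => ?_⟩
  · unfold TightCh at hw
    push Not at hw
    obtain ⟨ε, t, p, A, hε, h1, h2, h3, h4⟩ := hw
    exact (@H ε hε n d t w p A h1 h2 h3).1 h4
  · rw [← chi_cast]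
    exact (@H ε hε n d t w p A h1 h2 h3).2 hP

/-- Three arbitrary multiplicities, also with the cube root of the volume as a threshold. -/
theorem main3_both_dim (ε : ℝ) (hε : 0 < ε) : ∃ c : ℝ, 0 < c ∧
    ∀ {n d : ℕ} (w : Fin n → ℕ) (p : Fin 3 → Fin n), Function.Injective p → w (p 2) ≤ w (p 1) →
      w (p 1) ≤ w (p 0) → w (p 0) + w (p 1) + w (p 2) ≤ d →
      (∀ i, (∀ j, p j ≠ i) → (w i : ℝ) ≤ c * ((d : ℝ) - w (p 0))) →
      ((ε * XA w (univ.image p) d ≤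
          |XA w (univ.image p) d - ∑ i ∈ univ \ univ.image p, (w i : ℝ) * (w i + 1)| ∨
        ∑ i ∈ (univ \ univ.image p).filter
          (fun i => c * XA w (univ.image p) d ^ (1 / 3 : ℝ) < (w i : ℝ)), (w i : ℝ) ^ 2 ≤
          (1 - ε) * XA w (univ.image p) d ∨
        ε * XA w (univ.image p) d ≤ ∑ i ∈ (univ \ univ.image p).filter
          (fun i => (w i : ℝ) ≤ c * XA w (univ.image p) d ^ (1 / 3 : ℝ)), (w i : ℝ) ^ 2 ∨
        ∃ μ : ℝ, 0 ≤ μ ∧ Few w (univ \ univ.image p) μ (c * XA w (univ.image p) d) ∧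
          (∑ i ∈ (univ \ univ.image p).filter (fun i => c * μ < (w i : ℝ)), (w i : ℝ) ^ 2 ≤
              (1 - ε) * XA w (univ.image p) d ∨
            ε * XA w (univ.image p) d ≤
              ∑ i ∈ (univ \ univ.image p).filter (fun i => (w i : ℝ) ≤ c * μ), (w i : ℝ) ^ 2)) →
      GenExp d w) ∧
      GenLe (max ((chi d w : ℤ) : ℝ) (ε * XA w (univ.image p) d / 2)) d w := by
  obtain ⟨c0, hc0, H⟩ := main3_dim ε hε
  obtain ⟨a, ha⟩ : ∃ a : ℝ, a = min 1 (c0 / 3) := ⟨_, rfl⟩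
  have ha0 : 0 < a := by rw [ha]; exact lt_min one_pos (by linarith)
  have ha1 : a ≤ 1 := by rw [ha]; exact min_le_left _ _
  have hac : a ≤ c0 / 3 := by rw [ha]; exact min_le_right _ _
  have hle : c0 * a ≤ c0 := by
    calc c0 * a ≤ c0 * 1 := mul_le_mul_of_nonneg_left ha1 hc0.le
      _ = c0 := mul_one _
  refine ⟨c0 * a, mul_pos hc0 ha0, fun {n d} w p h1 h2 h3 h4 h5 => ?_⟩
  have hX := XA_three h1 h4
  have hd : (0 : ℝ) ≤ (d : ℝ) - w (p 0) := by
    have : ((w (p 0) : ℕ) : ℝ) ≤ (d : ℝ) := by exact_mod_cast (by omega : w (p 0) ≤ d)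
    linarith
  have H0 := @H n d w p h1 h2 h3 h4
    (fun i hi => (h5 i hi).trans (mul_le_mul_of_nonneg_right hle hd))
  refine ⟨fun h6 => ?_, H0.2⟩
  refine H0.1 fun ht => ?_
  have e : c0 * a * XA w (univ.image p) d ^ (1 / 3 : ℝ) =
    c0 * (a * XA w (univ.image p) d ^ (1 / 3 : ℝ)) := by ring
  have ht1 := ht.2 _ (few_cube w _ ha0.le ha1 hac hX)
  rcases h6 with h6 | h6 | h6 | ⟨μ, hμ, h6, h7⟩
  · exact absurd ht.1 (not_lt.2 h6)
  · rw [e] at h6
    exact absurd ht1.1 (not_lt.2 h6)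
  · rw [e] at h6
    exact absurd ht1.2 (not_lt.2 h6)
  · have ht2 := (ht.mono (mul_pos hc0 ha0) hle).2 μ h6
    rcases h7 with h7 | h7
    · exact absurd ht2.1 (not_lt.2 h7)
    · exact absurd ht2.2 (not_lt.2 h7)

/-- On an open set the dimension is the one for algebraically independent coordinates. -/
theorem open_prop {n : ℕ} (d : ℕ) (w : Fin n → ℕ) : ∃ F : MvPolynomial (Fin n × Fin 2) ℚ, F ≠ 0 ∧
    ∀ (K : Type) [Field K] [CharZero K] (P : Fin n → Fin 2 → K),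
      MvPolynomial.aeval (fun ij : Fin n × Fin 2 => P ij.1 ij.2) F ≠ 0 →
        ∀ q : ℝ → Prop, (∀ {P0 : Fin n → Fin 2 → ℂ},
          AlgebraicIndependent ℚ (fun ij : Fin n × Fin 2 => P0 ij.1 ij.2) →
            q (Module.finrank ℂ ↥(SHDefs.sys P0 d w) : ℝ)) →
          q (Module.finrank K ↥(SHDefs.sys P d w) : ℝ) := by
  obtain ⟨g, F, hF, hF'⟩ := SH.dim_gen w d
  refine ⟨F, hF, fun K _ _ P hP q hq => ?_⟩
  obtain ⟨P0, hP0⟩ := exists_gen n
  have h1 := hq hP0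
  have h2 := hF' ℂ P0 fun h0 => hF (hP0.eq_zero_of_aeval_eq_zero F h0)
  have h3 := hF' K P hP
  rw [sys_eq] at h1 ⊢
  rw [h2] at h1
  rw [h3]
  exact h1

/-- The dimension of a class carried to a standard class. -/
theorem dim_carried {n : ℕ} (hn : 4 ≤ n) {d : ℕ} {w : Fin n → ℕ} {d' : ℕ} {w' : Fin n → ℕ}
    (h : Ch (cls d w) (cls d' w'))
    (hs : ∀ i j k, i ≠ j → i ≠ k → j ≠ k → w' i + w' j + w' k ≤ d')
    {K : Type} [Field K] [CharZero K] {P : Fin n → Fin 2 → K}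
    (hP : AlgebraicIndependent ℚ (fun ij : Fin n × Fin 2 => P ij.1 ij.2)) :
    Module.finrank K ↥(SHDefs.sys P d w) = Module.finrank K ↥(SHDefs.sys P d' w') := by
  obtain ⟨P1, d1, w1, hP1, -, he, hc, hd⟩ := echain hP (enef_of_std hn P hs) h.symm
  obtain ⟨rfl, rfl⟩ := cls_inj he
  rw [sys_eq, sys_eq, dim_same hP hP1, hd]

theorem Gen3.open1 {c : ℝ → ℝ} (hc : Gen3 c) {n : ℕ} (d : ℕ) (w : Fin n → ℕ) :
    ∃ F : MvPolynomial (Fin n × Fin 2) ℚ, F ≠ 0 ∧
    ∀ (K : Type) [Field K] [CharZero K] (P : Fin n → Fin 2 → K),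
      MvPolynomial.aeval (fun ij : Fin n × Fin 2 => P ij.1 ij.2) F ≠ 0 →
        Bound3 c d w (Module.finrank K ↥(SHDefs.sys P d w) : ℝ) := by
  obtain ⟨F, hF, hF'⟩ := open_prop d w
  exact ⟨F, hF, fun K _ _ P hP => hF' K P hP (Bound3 c d w) fun {P0} hP0 => hc w hP0⟩

theorem GenCh.open1 {c : ℝ → ℝ} (hc : GenCh c) {n : ℕ} (d : ℕ) (w : Fin n → ℕ) :
    ∃ F : MvPolynomial (Fin n × Fin 2) ℚ, F ≠ 0 ∧
    ∀ (K : Type) [Field K] [CharZero K] (P : Fin n → Fin 2 → K),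
      MvPolynomial.aeval (fun ij : Fin n × Fin 2 => P ij.1 ij.2) F ≠ 0 →
        BoundCh c d w (Module.finrank K ↥(SHDefs.sys P d w) : ℝ) := by
  obtain ⟨F, hF, hF'⟩ := open_prop d w
  exact ⟨F, hF, fun K _ _ P hP => hF' K P hP (BoundCh c d w) fun {P0} hP0 => hc w hP0⟩

theorem GenLe.open {B : ℝ} {n d : ℕ} {w : Fin n → ℕ} (h : GenLe B d w) :
    ∃ F : MvPolynomial (Fin n × Fin 2) ℚ, F ≠ 0 ∧
    ∀ (K : Type) [Field K] [CharZero K] (P : Fin n → Fin 2 → K),
      MvPolynomial.aeval (fun ij : Fin n × Fin 2 => P ij.1 ij.2) F ≠ 0 →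
        (Module.finrank K ↥(SHDefs.sys P d w) : ℝ) ≤ B := by
  obtain ⟨F, hF, hF'⟩ := open_prop d w
  exact ⟨F, hF, fun K _ _ P hP => hF' K P hP (fun x => x ≤ B) fun {P0} hP0 => h hP0⟩

/-- Three arbitrary multiplicities: the bound for all classes carried to a standard class. -/
theorem Gen3.open {c : ℝ → ℝ} (hc : Gen3 c) {n : ℕ} (hn : 4 ≤ n) (d : ℕ) (w : Fin n → ℕ) :
    ∃ F : MvPolynomial (Fin n × Fin 2) ℚ, F ≠ 0 ∧
    ∀ (K : Type) [Field K] [CharZero K] (P : Fin n → Fin 2 → K),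
      MvPolynomial.aeval (fun ij : Fin n × Fin 2 => P ij.1 ij.2) F ≠ 0 →
        ∀ (d' : ℕ) (w' : Fin n → ℕ), Ch (cls d w) (cls d' w') →
          (∀ i j k, i ≠ j → i ≠ k → j ≠ k → w' i + w' j + w' k ≤ d') →
          Bound3 c d' w' (Module.finrank K ↥(SHDefs.sys P d w) : ℝ) := by
  obtain ⟨F, hF, hF'⟩ := open_prop d w
  refine ⟨F, hF, fun K _ _ P hP d' w' h hs => hF' K P hP (Bound3 c d' w') fun {P0} hP0 => ?_⟩
  rw [dim_carried hn h hs hP0]
  exact hc w' hP0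

/-- Chains: the bound for all classes carried to a standard class. -/
theorem GenCh.open {c : ℝ → ℝ} (hc : GenCh c) {n : ℕ} (hn : 4 ≤ n) (d : ℕ) (w : Fin n → ℕ) :
    ∃ F : MvPolynomial (Fin n × Fin 2) ℚ, F ≠ 0 ∧
    ∀ (K : Type) [Field K] [CharZero K] (P : Fin n → Fin 2 → K),
      MvPolynomial.aeval (fun ij : Fin n × Fin 2 => P ij.1 ij.2) F ≠ 0 →
        ∀ (d' : ℕ) (w' : Fin n → ℕ), Ch (cls d w) (cls d' w') →
          (∀ i j k, i ≠ j → i ≠ k → j ≠ k → w' i + w' j + w' k ≤ d') →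
          BoundCh c d' w' (Module.finrank K ↥(SHDefs.sys P d w) : ℝ) := by
  obtain ⟨F, hF, hF'⟩ := open_prop d w
  refine ⟨F, hF, fun K _ _ P hP d' w' h hs => hF' K P hP (BoundCh c d' w') fun {P0} hP0 => ?_⟩
  rw [dim_carried hn h hs hP0]
  exact hc w' hP0

end Pool.Agent.H200M
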