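import Pool.Agent.H200M.Asm

/-! # Project MC: nef classes. -/

set_option autoImplicit false

namespace Pool.Agent.H200M

open Finset Pool.Agent.H200W Pool.Agent.H200P Pool.Agent.W609.CR Pool.Agent

/-- The real class `c H - ∑ x_i E_i`, `x_i ≥ 0`: three points `p` with arbitrary coefficients
`x (p 2) ≤ x (p 1) ≤ x (p 0)`, `x (p 0) + x (p 1) + x (p 2) ≤ c`, `x (p 0) < c`; the others are at most
`g (c - x (p 0))`; for some `M` all nonzero values `≤ M` at the other points are taken at least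
`2 ^ 29` times there, or the number `k` of the values `≤ M` satisfies `(k + 1) M ^ 2 ≤ g V`,
`V = c ^ 2 - ∑_j x (p j) ^ 2`; and the other coefficients `≤ g M` have `∑ x_i ^ 2 ≥ ε V`. -/
def Part3 (g ε : ℝ) {n : ℕ} (c : ℝ) (x : Fin n → ℝ) : Prop :=
  (∀ i, 0 ≤ x i) ∧ ∃ (p : Fin 3 → Fin n) (M : ℝ), Function.Injective p ∧ x (p 2) ≤ x (p 1) ∧
    x (p 1) ≤ x (p 0) ∧ x (p 0) + x (p 1) + x (p 2) ≤ c ∧ x (p 0) < c ∧
    (∀ i, (∀ j, p j ≠ i) → x i ≤ g * (c - x (p 0))) ∧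
    ((∀ i, (∀ j, p j ≠ i) → x i ≠ 0 → x i ≤ M →
        2 ^ 29 ≤ (univ.filter fun k => (∀ j, p j ≠ k) ∧ x k = x i).card) ∨
      0 ≤ M ∧ ((((univ.filter fun i => (∀ j, p j ≠ i) ∧ x i ≤ M).image x).card : ℝ) + 1) * M ^ 2 ≤
        g * (c ^ 2 - ∑ j, x (p j) ^ 2)) ∧
    ε * (c ^ 2 - ∑ j, x (p j) ^ 2) ≤
      ∑ i ∈ univ.filter (fun i => (∀ j, p j ≠ i) ∧ x i ≤ g * M), x i ^ 2

/-- `Part3` with strict upper bounds. -/
def Part3S (g ε : ℝ) {n : ℕ} (c : ℝ) (x : Fin n → ℝ) : Prop :=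
  (∀ i, 0 ≤ x i) ∧ ∃ (p : Fin 3 → Fin n) (M : ℝ), Function.Injective p ∧ x (p 2) ≤ x (p 1) ∧
    x (p 1) ≤ x (p 0) ∧ x (p 0) + x (p 1) + x (p 2) < c ∧
    (∀ i, (∀ j, p j ≠ i) → x i < g * (c - x (p 0))) ∧
    ((∀ i, (∀ j, p j ≠ i) → x i ≠ 0 → x i ≤ M →
        2 ^ 29 ≤ (univ.filter fun k => (∀ j, p j ≠ k) ∧ x k = x i).card) ∨
      0 ≤ M ∧ ((((univ.filter fun i => (∀ j, p j ≠ i) ∧ x i ≤ M).image x).card : ℝ) + 1) * M ^ 2 <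
        g * (c ^ 2 - ∑ j, x (p j) ^ 2)) ∧
    ε * (c ^ 2 - ∑ j, x (p j) ^ 2) ≤
      ∑ i ∈ univ.filter (fun i => (∀ j, p j ≠ i) ∧ x i ≤ g * M), x i ^ 2

theorem nef_fun3 : ∃ γ : ℝ → ℝ, (∀ ε, 0 < ε → 0 < γ ε) ∧ ∀ (ε : ℝ), 0 < ε → ∀ {n : ℕ}
    {P : Fin n → Fin 2 → ℂ}, AlgebraicIndependent ℚ (fun ij : Fin n × Fin 2 => P ij.1 ij.2) →
    ∀ (c : ℝ) (x : Fin n → ℝ), Part3 (γ ε) ε c x → ∑ i, x i ^ 2 ≤ c ^ 2 →
    ∀ (G : MvPolynomial (Fin 3) ℂ) (e : ℕ) (u : Fin n → ℕ), G ≠ 0 → G.IsHomogeneous e →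
      (∀ i, Van (Pool.Agent.W609.CR.aff (P i)) (u i) G) → ∑ i, x i * (u i : ℝ) ≤ c * e := by
  have h := nef3_all
  unfold Nef3 at h
  choose! γ hγ H using h
  refine ⟨γ, hγ, fun ε hε {n P} hP c x hx hc G e u hG hGe hu => ?_⟩
  obtain ⟨h0, p, M, h1, h2, h3, h4, h5, h6, h7, h8⟩ := hx
  exact H ε hε hP c M x p h1 h0 h2 h3 h4 h5 h6 h7 h8 hc G e u hG hGe hu

theorem Part3S.shrink {g ε : ℝ} (hε : 0 < ε) {n : ℕ} {c : ℝ} {x : Fin n → ℝ}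
    (h : Part3S g ε c x) (hc : ∑ i, x i ^ 2 < c ^ 2) :
    ∃ c', c' < c ∧ Part3 g ε c' x ∧ ∑ i, x i ^ 2 ≤ c' ^ 2 := by
  obtain ⟨h0, p, M, h1, h2, h3, h4, h5, h6, h7⟩ := h
  have hc0 : 0 < c := by
    have := h0 (p 0)
    have := h0 (p 1)
    have := h0 (p 2)
    linarith
  have e1 : ∀ᶠ t in nhds c, x (p 0) + x (p 1) + x (p 2) < t := lt_mem_nhds h4
  have e2 : ∀ᶠ t in nhds c, ∀ i, (∀ j, p j ≠ i) → x i < g * (t - x (p 0)) := by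
    rw [Filter.eventually_all]
    intro i
    by_cases hi : ∀ j, p j ≠ i
    · have hcont : Continuous fun t : ℝ => g * (t - x (p 0)) := by fun_prop
      filter_upwards [hcont.continuousAt.eventually (lt_mem_nhds (h5 i hi))] with t ht _
      exact ht
    · exact Filter.Eventually.of_forall fun t h => absurd h hi
  have e3 : ∀ᶠ t in nhds c, ((∀ i, (∀ j, p j ≠ i) → x i ≠ 0 → x i ≤ M →
        2 ^ 29 ≤ (univ.filter fun k => (∀ j, p j ≠ k) ∧ x k = x i).card) ∨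
      0 ≤ M ∧ ((((univ.filter fun i => (∀ j, p j ≠ i) ∧ x i ≤ M).image x).card : ℝ) + 1) * M ^ 2 <
        g * (t ^ 2 - ∑ j, x (p j) ^ 2)) := by
    rcases h6 with h6 | ⟨h6, h8⟩
    · exact Filter.Eventually.of_forall fun t => Or.inl h6
    · have hcont : Continuous fun t : ℝ => g * (t ^ 2 - ∑ j, x (p j) ^ 2) := by fun_prop
      filter_upwards [hcont.continuousAt.eventually (lt_mem_nhds h8)] with t ht
      exact Or.inr ⟨h6, ht⟩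
  have e4 : ∀ᶠ t in nhds c, ∑ i, x i ^ 2 < t ^ 2 := by
    have hcont : Continuous fun t : ℝ => t ^ 2 := by fun_prop
    exact hcont.continuousAt.eventually (lt_mem_nhds hc)
  have e5 : ∀ᶠ t in nhds c, 0 < t := lt_mem_nhds hc0
  have e6 := (e1.and (e2.and (e3.and (e4.and e5))))
  have e7 : ∀ᶠ t in nhdsWithin c (Set.Iio c), t < c := self_mem_nhdsWithin
  obtain ⟨t, ht, a1, a2, a3, a4, a5⟩ := (e7.and (nhdsWithin_le_nhds e6)).exists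
  have b0 := h0 (p 0)
  have b1 := h0 (p 1)
  have b2 := h0 (p 2)
  refine ⟨t, ht, ⟨h0, p, M, h1, h2, h3, a1.le, ?_, fun i hi => (a2 i hi).le, ?_, ?_⟩, a4.le⟩
  · by_contra hcon
    have h9 : x (p 1) + x (p 2) < 0 := by linarith
    linarith
  · rcases a3 with a3 | ⟨a3, a6⟩
    · exact Or.inl a3
    · exact Or.inr ⟨a3, a6.le⟩
  · refine le_trans ?_ h7
    have h9 : t ^ 2 ≤ c ^ 2 := pow_le_pow_left₀ a5.le ht.le 2
    exact mul_le_mul_of_nonneg_left (by linarith) hε.le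

end Pool.Agent.H200M
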