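import Pool.Agent.H200M.Room
import Pool.Agent.H200M.Nef

/-! # Project MC: nef classes, without a condition on the small coefficients. -/

set_option autoImplicit false

namespace Pool.Agent.H200M

open Finset Pool.Agent.H200W Pool.Agent.H200P Pool.Agent.W609.CR Pool.Agent.H932R3 Pool.Agent

/-- Three arbitrary coefficients, the others at most a fraction of `c - x (p 0)`, self-intersection at
least the part `ε` of the volume left by the three. -/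
theorem nef3_room (ε : ℝ) (hε : 0 < ε) : ∃ γ : ℝ, 0 < γ ∧ ∀ {n : ℕ} {P : Fin n → Fin 2 → ℂ},
    AlgebraicIndependent ℚ (fun ij : Fin n × Fin 2 => P ij.1 ij.2) →
    ∀ (c : ℝ) (x : Fin n → ℝ) (p : Fin 3 → Fin n), Function.Injective p → (∀ i, 0 ≤ x i) →
    x (p 2) ≤ x (p 1) → x (p 1) ≤ x (p 0) → x (p 0) + x (p 1) + x (p 2) ≤ c →
    (∀ i, (∀ j, p j ≠ i) → x i ≤ γ * (c - x (p 0))) →
    ∑ i ∈ univ \ univ.image p, x i ^ 2 ≤ (1 - ε) * (c ^ 2 - ∑ j, x (p j) ^ 2) →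
    ∀ (G : MvPolynomial (Fin 3) ℂ) (e : ℕ) (u : Fin n → ℕ), G ≠ 0 → G.IsHomogeneous e →
      (∀ i, Van (aff (P i)) (u i) G) → ∑ i, x i * (u i : ℝ) ≤ c * e := by
  classical
  obtain ⟨ε', hε'0, hε'1, hε'2⟩ : ∃ ε' : ℝ, 0 < ε' ∧ ε' ≤ 1 ∧ ε' ≤ ε :=
    ⟨min ε 1, lt_min hε one_pos, min_le_right _ _, min_le_left _ _⟩
  obtain ⟨γ, hγ, H⟩ := main3_all ε' hε'0
  refine ⟨γ, hγ, fun {n P} hP c x p hp hx h21 h10 hs hle hsq G e u hG hGe hu => ?_⟩
  have hc0 : 0 ≤ c := by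
    have := hx (p 0)
    have := hx (p 1)
    have := hx (p 2)
    linarith
  obtain ⟨V, hV⟩ : ∃ V : ℝ, V = c ^ 2 - ∑ j, x (p j) ^ 2 := ⟨_, rfl⟩
  have hVe : V = c ^ 2 - (x (p 0) ^ 2 + x (p 1) ^ 2 + x (p 2) ^ 2) := by
    rw [hV, Fin.sum_univ_three]
  have hV0 : 0 ≤ V := by
    rw [hVe]
    have a0 := hx (p 0)
    have a1 := hx (p 1)
    have a2 := hx (p 2)
    have h1 : (x (p 0) + x (p 1) + x (p 2)) ^ 2 ≤ c ^ 2 := pow_le_pow_left₀ (by linarith) hs 2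
    nlinarith [mul_nonneg a0 a1, mul_nonneg a0 a2, mul_nonneg a1 a2]
  have hsq' : ∑ i ∈ univ \ univ.image p, x i ^ 2 ≤ (1 - ε') * V := by
    rw [← hV] at hsq
    exact hsq.trans (mul_le_mul_of_nonneg_right (by linarith) hV0)
  have hsplit : ∀ f : Fin n → ℝ, ∑ i, f i = (f (p 0) + f (p 1) + f (p 2)) +
      ∑ i ∈ univ \ univ.image p, f i := fun f => by
    rw [← sum_img hp, add_comm]
    exact (sum_sdiff (subset_univ _)).symm
  have key : ∀ N : ℕ, 1 ≤ N → (N : ℝ) * (∑ i, x i * (u i : ℝ) - c * e) ≤ e + ∑ i, (u i : ℝ) := by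
    intro N hN
    have hNR : (1 : ℝ) ≤ N := by exact_mod_cast hN
    obtain ⟨v, hv⟩ : ∃ v : Fin n → ℕ, v = fun i => ⌊(N : ℝ) * x i⌋₊ := ⟨_, rfl⟩
    obtain ⟨d, hd⟩ : ∃ d : ℕ, d = ⌈(N : ℝ) * c⌉₊ := ⟨_, rfl⟩
    have hv1 : ∀ i, (v i : ℝ) ≤ N * x i := fun i => by
      rw [hv]
      exact Nat.floor_le (mul_nonneg (Nat.cast_nonneg _) (hx i))
    have hv2 : ∀ i, (N : ℝ) * x i - 1 ≤ v i := fun i => by
      rw [hv]
      exact (Nat.sub_one_lt_floor _).le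
    have hd1 : (N : ℝ) * c ≤ d := by
      rw [hd]
      exact Nat.le_ceil _
    have hd2 : (d : ℝ) ≤ N * c + 1 := by
      rw [hd]
      exact (Nat.ceil_lt_add_one (mul_nonneg (Nat.cast_nonneg _) hc0)).le
    have hvm : ∀ i j, x i ≤ x j → v i ≤ v j := fun i j hij => by
      rw [hv]
      exact Nat.floor_le_floor (mul_le_mul_of_nonneg_left hij (Nat.cast_nonneg _))
    have hsR : (v (p 0) : ℝ) + v (p 1) + v (p 2) ≤ d := by
      have a0 := hv1 (p 0)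
      have a1 := hv1 (p 1)
      have a2 := hv1 (p 2)
      have h1 := mul_le_mul_of_nonneg_left hs (Nat.cast_nonneg (α := ℝ) N)
      nlinarith
    have hsN : v (p 0) + v (p 1) + v (p 2) ≤ d := by exact_mod_cast hsR
    have hVd : (N : ℝ) ^ 2 * V ≤ (d : ℝ) ^ 2 - (v (p 0) ^ 2 + v (p 1) ^ 2 + v (p 2) ^ 2) := by
      rw [hVe]
      have h1 : ((N : ℝ) * c) ^ 2 ≤ (d : ℝ) ^ 2 :=
        pow_le_pow_left₀ (mul_nonneg (Nat.cast_nonneg _) hc0) hd1 2
      have h2 : ∀ i, (v i : ℝ) ^ 2 ≤ (N * x i) ^ 2 := fun i =>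
        pow_le_pow_left₀ (Nat.cast_nonneg _) (hv1 i) 2
      have b0 := h2 (p 0)
      have b1 := h2 (p 1)
      have b2 := h2 (p 2)
      nlinarith
    have hSv : ∑ i ∈ univ \ univ.image p, (v i : ℝ) ^ 2 ≤ (N : ℝ) ^ 2 * ((1 - ε') * V) := by
      calc ∑ i ∈ univ \ univ.image p, (v i : ℝ) ^ 2
          ≤ ∑ i ∈ univ \ univ.image p, (N : ℝ) ^ 2 * x i ^ 2 := by
            refine sum_le_sum fun i _ => ?_
            calc (v i : ℝ) ^ 2 ≤ (N * x i) ^ 2 := pow_le_pow_left₀ (Nat.cast_nonneg _) (hv1 i) 2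
              _ = _ := by ring
        _ = (N : ℝ) ^ 2 * ∑ i ∈ univ \ univ.image p, x i ^ 2 := by rw [mul_sum]
        _ ≤ _ := mul_le_mul_of_nonneg_left hsq' (by positivity)
    have hsqv : ∑ i, v i ^ 2 ≤ d ^ 2 := by
      have h1 : ∑ i, (v i : ℝ) ^ 2 ≤ (d : ℝ) ^ 2 := by
        rw [hsplit]
        have h2 : (N : ℝ) ^ 2 * ((1 - ε') * V) ≤ (N : ℝ) ^ 2 * V := by
          have h3 : 0 ≤ (N : ℝ) ^ 2 * V := by positivity
          nlinarith
        linarith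
      exact_mod_cast h1
    have hk : ∀ k : ℕ, 1 ≤ k → ExpDim ℂ (fun i => k * v i) P (k * d) := by
      intro k hk
      have hkR : (1 : ℝ) ≤ k := by exact_mod_cast hk
      have hX : (k : ℝ) ^ 2 * ((N : ℝ) ^ 2 * V) ≤
          XA (fun i => k * v i) (univ.image p) (k * d) := by
        unfold XA
        rw [sum_img hp fun i => (((k * v i : ℕ) : ℝ)) * ((k * v i : ℕ) + 1)]
        push_cast
        have h1 := mul_le_mul_of_nonneg_left hVd (by positivity : (0 : ℝ) ≤ (k : ℝ) ^ 2)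
        have h2 : 0 ≤ (k : ℝ) * (3 * d - (v (p 0) + v (p 1) + v (p 2))) :=
          mul_nonneg (by positivity) (by
            have : (0 : ℝ) ≤ d := Nat.cast_nonneg _
            linarith)
        refine h1.trans ?_
        have h3 : ((k : ℝ) * d + 1) * (k * d + 2) - (k * v (p 0) * (k * v (p 0) + 1) +
            k * v (p 1) * (k * v (p 1) + 1) + k * v (p 2) * (k * v (p 2) + 1)) =
            (k : ℝ) ^ 2 * ((d : ℝ) ^ 2 - (v (p 0) ^ 2 + v (p 1) ^ 2 + v (p 2) ^ 2)) +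
            (k : ℝ) * (3 * d - (v (p 0) + v (p 1) + v (p 2))) + 2 := by ring
        rw [h3]
        linarith
      refine @H n (k * d) 0 (fun i => k * v i) p hp ?_ ?_ ?_ (fun i hi => ?_) ?_ (Or.inl ?_)
        ℂ _ _ P hP
      · exact Nat.mul_le_mul_left _ (hvm _ _ h21)
      · exact Nat.mul_le_mul_left _ (hvm _ _ h10)
      · rw [← Nat.mul_add, ← Nat.mul_add]
        exact Nat.mul_le_mul_left _ hsN
      · have h1 := hle i hi
        have h2 := hv1 i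
        have h3 := hv1 (p 0)
        push_cast
        have h4 : (v i : ℝ) ≤ γ * ((d : ℝ) - v (p 0)) := by
          calc (v i : ℝ) ≤ N * x i := h2
            _ ≤ N * (γ * (c - x (p 0))) := mul_le_mul_of_nonneg_left h1 (Nat.cast_nonneg _)
            _ = γ * (N * c - N * x (p 0)) := by ring
            _ ≤ γ * ((d : ℝ) - v (p 0)) := mul_le_mul_of_nonneg_left (by linarith) hγ.le
        calc (k : ℝ) * v i ≤ k * (γ * ((d : ℝ) - v (p 0))) :=
              mul_le_mul_of_nonneg_left h4 (Nat.cast_nonneg _)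
          _ = _ := by ring
      · left
        intro i _ hi0 hi1
        have : (1 : ℝ) ≤ ((k * v i : ℕ) : ℝ) := by
          have : 1 ≤ k * v i := Nat.one_le_iff_ne_zero.2 hi0
          exact_mod_cast this
        linarith
      · refine le_trans (sum_le_sum_of_subset_of_nonneg (filter_subset _ _)
          fun _ _ _ => sq_nonneg _) ?_
        calc ∑ i ∈ univ \ univ.image p, (((k * v i : ℕ) : ℝ)) ^ 2
            = (k : ℝ) ^ 2 * ∑ i ∈ univ \ univ.image p, (v i : ℝ) ^ 2 := by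
              rw [mul_sum]
              refine sum_congr rfl fun i _ => ?_
              push_cast
              ring
          _ ≤ (k : ℝ) ^ 2 * ((N : ℝ) ^ 2 * ((1 - ε') * V)) :=
              mul_le_mul_of_nonneg_left hSv (by positivity)
          _ = (1 - ε') * ((k : ℝ) ^ 2 * ((N : ℝ) ^ 2 * V)) := by ring
          _ ≤ _ := mul_le_mul_of_nonneg_left hX (by linarith)
    have h1 := nefExp (P := P) (v := v) (d := d) (k0 := 1) hsqv hk G e u hG hGe hu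
    have h2 : ∑ i, (v i : ℝ) * u i ≤ (d : ℝ) * e := by exact_mod_cast h1
    have h3 : ∑ i, ((N : ℝ) * x i - 1) * (u i : ℝ) ≤ ∑ i, (v i : ℝ) * u i :=
      sum_le_sum fun i _ => mul_le_mul_of_nonneg_right (hv2 i) (Nat.cast_nonneg _)
    have h4 : ∑ i, ((N : ℝ) * x i - 1) * (u i : ℝ) = N * ∑ i, x i * (u i : ℝ) - ∑ i, (u i : ℝ) := by
      rw [mul_sum, ← sum_sub_distrib]
      refine sum_congr rfl fun i _ => ?_
      ring
    have h5 : (d : ℝ) * e ≤ (N * c + 1) * e := mul_le_mul_of_nonneg_right hd2 (Nat.cast_nonneg _)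
    rw [h4] at h3
    nlinarith
  by_contra hcon
  push Not at hcon
  obtain ⟨D, hD⟩ : ∃ D : ℝ, D = ∑ i, x i * (u i : ℝ) - c * e := ⟨_, rfl⟩
  have hD0 : 0 < D := by rw [hD]; linarith
  obtain ⟨N, hN⟩ := exists_nat_gt ((e + ∑ i, (u i : ℝ)) / D)
  have h1 := key (N + 1) (by omega)
  rw [← hD] at h1
  rw [div_lt_iff₀ hD0] at hN
  push_cast at h1
  linarith

/-- The real class `c H - ∑ x_i E_i`, `x_i ≥ 0`: three points `p` with arbitrary coefficients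
`x (p 2) ≤ x (p 1) ≤ x (p 0)`, `x (p 0) + x (p 1) + x (p 2) ≤ c`, `x (p 0) < c`; the others are at most
`g (c - x (p 0))`; with `V = c ^ 2 - ∑_j x (p j) ^ 2`, one of the following holds (sums over the other
points): `∑ x_i ^ 2 ≤ (1 - ε) V`; or for some `M` all nonzero values `≤ M` at the other points are taken at
least `2 ^ 29` times there, or the number `k` of the values `≤ M` satisfies `(k + 1) M ^ 2 ≤ g V`, and
the coefficients `≤ g M` have `∑ x_i ^ 2 ≥ ε V`. -/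
def Room3 (g ε : ℝ) {n : ℕ} (c : ℝ) (x : Fin n → ℝ) : Prop :=
  (∀ i, 0 ≤ x i) ∧ ∃ p : Fin 3 → Fin n, Function.Injective p ∧ x (p 2) ≤ x (p 1) ∧
    x (p 1) ≤ x (p 0) ∧ x (p 0) + x (p 1) + x (p 2) ≤ c ∧ x (p 0) < c ∧
    (∀ i, (∀ j, p j ≠ i) → x i ≤ g * (c - x (p 0))) ∧
    (∑ i ∈ univ \ univ.image p, x i ^ 2 ≤ (1 - ε) * (c ^ 2 - ∑ j, x (p j) ^ 2) ∨ ∃ M : ℝ,
      ((∀ i, (∀ j, p j ≠ i) → x i ≠ 0 → x i ≤ M →
          2 ^ 29 ≤ (univ.filter fun k => (∀ j, p j ≠ k) ∧ x k = x i).card) ∨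
        0 ≤ M ∧ ((((univ.filter fun i => (∀ j, p j ≠ i) ∧ x i ≤ M).image x).card : ℝ) + 1) * M ^ 2 ≤
          g * (c ^ 2 - ∑ j, x (p j) ^ 2)) ∧
      ε * (c ^ 2 - ∑ j, x (p j) ^ 2) ≤
        ∑ i ∈ univ.filter (fun i => (∀ j, p j ≠ i) ∧ x i ≤ g * M), x i ^ 2)

/-- `Room3` with strict upper bounds. -/
def Room3S (g ε : ℝ) {n : ℕ} (c : ℝ) (x : Fin n → ℝ) : Prop :=
  (∀ i, 0 ≤ x i) ∧ ∃ p : Fin 3 → Fin n, Function.Injective p ∧ x (p 2) ≤ x (p 1) ∧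
    x (p 1) ≤ x (p 0) ∧ x (p 0) + x (p 1) + x (p 2) < c ∧
    (∀ i, (∀ j, p j ≠ i) → x i < g * (c - x (p 0))) ∧
    (∑ i ∈ univ \ univ.image p, x i ^ 2 < (1 - ε) * (c ^ 2 - ∑ j, x (p j) ^ 2) ∨ ∃ M : ℝ,
      ((∀ i, (∀ j, p j ≠ i) → x i ≠ 0 → x i ≤ M →
          2 ^ 29 ≤ (univ.filter fun k => (∀ j, p j ≠ k) ∧ x k = x i).card) ∨
        0 ≤ M ∧ ((((univ.filter fun i => (∀ j, p j ≠ i) ∧ x i ≤ M).image x).card : ℝ) + 1) * M ^ 2 <
          g * (c ^ 2 - ∑ j, x (p j) ^ 2)) ∧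
      ε * (c ^ 2 - ∑ j, x (p j) ^ 2) ≤
        ∑ i ∈ univ.filter (fun i => (∀ j, p j ≠ i) ∧ x i ≤ g * M), x i ^ 2)

theorem nef_room : ∃ γ : ℝ → ℝ, (∀ ε, 0 < ε → 0 < γ ε) ∧ ∀ (ε : ℝ), 0 < ε → ∀ {n : ℕ}
    {P : Fin n → Fin 2 → ℂ}, AlgebraicIndependent ℚ (fun ij : Fin n × Fin 2 => P ij.1 ij.2) →
    ∀ (c : ℝ) (x : Fin n → ℝ), Room3 (γ ε) ε c x → ∑ i, x i ^ 2 ≤ c ^ 2 →
    ∀ (G : MvPolynomial (Fin 3) ℂ) (e : ℕ) (u : Fin n → ℕ), G ≠ 0 → G.IsHomogeneous e →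
      (∀ i, Van (Pool.Agent.W609.CR.aff (P i)) (u i) G) → ∑ i, x i * (u i : ℝ) ≤ c * e := by
  have h1 := nef3_all
  unfold Nef3 at h1
  choose! g1 hg1 H1 using h1
  have h2 := nef3_room
  choose! g2 hg2 H2 using h2
  refine ⟨fun ε => min (g1 ε) (g2 ε), fun ε hε => lt_min (hg1 ε hε) (hg2 ε hε),
    fun ε hε {n P} hP c x hx hc G e u hG hGe hu => ?_⟩
  obtain ⟨h0, p, a1, a2, a3, a4, a5, a6, a7⟩ := hx
  have hcx : 0 < c - x (p 0) := by linarith
  have hV0 : 0 ≤ c ^ 2 - ∑ j, x (p j) ^ 2 := by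
    rw [Fin.sum_univ_three]
    have b0 := h0 (p 0)
    have b1 := h0 (p 1)
    have b2 := h0 (p 2)
    have h1 : (x (p 0) + x (p 1) + x (p 2)) ^ 2 ≤ c ^ 2 := pow_le_pow_left₀ (by linarith) a4 2
    nlinarith [mul_nonneg b0 b1, mul_nonneg b0 b2, mul_nonneg b1 b2]
  rcases a7 with a7 | ⟨M, a7, a8⟩
  · exact H2 ε hε hP c x p a1 h0 a2 a3 a4 (fun i hi => (a6 i hi).trans
      (mul_le_mul_of_nonneg_right (min_le_right _ _) hcx.le)) a7 G e u hG hGe hu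
  · have hg : 0 < min (g1 ε) (g2 ε) := lt_min (hg1 ε hε) (hg2 ε hε)
    obtain ⟨q, hq⟩ : ∃ q : ℝ, q = min (g1 ε) (g2 ε) / g1 ε := ⟨_, rfl⟩
    have hq0 : 0 < q := by rw [hq]; exact div_pos hg (hg1 ε hε)
    have hq1 : q ≤ 1 := by rw [hq]; exact (div_le_one (hg1 ε hε)).2 (min_le_left _ _)
    have hqg : g1 ε * (q * M) = min (g1 ε) (g2 ε) * M := by
      rw [hq]
      have := (hg1 ε hε).ne'
      field_simp
    refine H1 ε hε hP c (q * M) x p a1 h0 a2 a3 a4 a5 (fun i hi => (a6 i hi).trans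
      (mul_le_mul_of_nonneg_right (min_le_left _ _) hcx.le)) ?_ ?_ hc G e u hG hGe hu
    · rcases a7 with a7 | ⟨a7, a9⟩
      · left
        intro i hi hi0 hiM
        refine a7 i hi hi0 ?_
        have h3 : 0 < x i := lt_of_le_of_ne (h0 i) (Ne.symm hi0)
        rcases le_or_gt 0 M with h4 | h4
        · nlinarith
        · have h5 : q * M < 0 := mul_neg_of_pos_of_neg hq0 h4
          linarith
      · right
        refine ⟨mul_nonneg hq0.le a7, ?_⟩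
        have h4 : q * M ≤ M := by nlinarith
        have h5 : ((((univ.filter fun i => (∀ j, p j ≠ i) ∧ x i ≤ q * M).image x).card : ℕ) : ℝ) ≤
            (((univ.filter fun i => (∀ j, p j ≠ i) ∧ x i ≤ M).image x).card : ℕ) := by
          exact_mod_cast card_le_card (image_subset_image fun i hi => by
            rw [mem_filter] at hi ⊢
            exact ⟨hi.1, hi.2.1, hi.2.2.trans h4⟩)
        have h6 : (q * M) ^ 2 ≤ M ^ 2 := pow_le_pow_left₀ (mul_nonneg hq0.le a7) h4 2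
        calc ((((univ.filter fun i => (∀ j, p j ≠ i) ∧ x i ≤ q * M).image x).card : ℝ) + 1) *
              (q * M) ^ 2
            ≤ ((((univ.filter fun i => (∀ j, p j ≠ i) ∧ x i ≤ M).image x).card : ℝ) + 1) * M ^ 2 :=
              mul_le_mul (by linarith) h6 (by positivity) (by positivity)
          _ ≤ min (g1 ε) (g2 ε) * (c ^ 2 - ∑ j, x (p j) ^ 2) := a9
          _ ≤ _ := mul_le_mul_of_nonneg_right (min_le_left _ _) hV0
    · rw [hqg]
      exact a8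

theorem Room3S.shrink {g ε : ℝ} (hε : 0 < ε) {n : ℕ} {c : ℝ} {x : Fin n → ℝ}
    (h : Room3S g ε c x) (hc : ∑ i, x i ^ 2 < c ^ 2) :
    ∃ c', c' < c ∧ Room3 g ε c' x ∧ ∑ i, x i ^ 2 ≤ c' ^ 2 := by
  obtain ⟨h0, p, h1, h2, h3, h4, h5, h6⟩ := h
  have hc0 : 0 < c := by
    have := h0 (p 0)
    have := h0 (p 1)
    have := h0 (p 2)
    linarith
  have e1 : ∀ᶠ t in nhds c, x (p 0) + x (p 1) + x (p 2) < t := lt_mem_nhds h4
  have e2 : ∀ᶠ t in nhds c, ∀ i, (∀ j, p j ≠ i) → x i < g * (t - x (p 0)) := by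
    rw [Filter.eventually_all]
    intro i
    by_cases hi : ∀ j, p j ≠ i
    · have hcont : Continuous fun t : ℝ => g * (t - x (p 0)) := by fun_prop
      filter_upwards [hcont.continuousAt.eventually (lt_mem_nhds (h5 i hi))] with t ht _
      exact ht
    · exact Filter.Eventually.of_forall fun t h => absurd h hi
  have e3 : ∀ᶠ t in nhds c, t ≤ c →
      (∑ i ∈ univ \ univ.image p, x i ^ 2 ≤ (1 - ε) * (t ^ 2 - ∑ j, x (p j) ^ 2) ∨ ∃ M : ℝ,
      ((∀ i, (∀ j, p j ≠ i) → x i ≠ 0 → x i ≤ M →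
          2 ^ 29 ≤ (univ.filter fun k => (∀ j, p j ≠ k) ∧ x k = x i).card) ∨
        0 ≤ M ∧ ((((univ.filter fun i => (∀ j, p j ≠ i) ∧ x i ≤ M).image x).card : ℝ) + 1) * M ^ 2 ≤
          g * (t ^ 2 - ∑ j, x (p j) ^ 2)) ∧
      ε * (t ^ 2 - ∑ j, x (p j) ^ 2) ≤
        ∑ i ∈ univ.filter (fun i => (∀ j, p j ≠ i) ∧ x i ≤ g * M), x i ^ 2) := by
    have e5 : ∀ᶠ t in nhds c, 0 < t := lt_mem_nhds hc0
    rcases h6 with h6 | ⟨M, h6, h7⟩
    · have hcont : Continuous fun t : ℝ => (1 - ε) * (t ^ 2 - ∑ j, x (p j) ^ 2) := by fun_prop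
      filter_upwards [hcont.continuousAt.eventually (lt_mem_nhds h6)] with t ht _
      exact Or.inl ht.le
    · have hle : ∀ t : ℝ, 0 < t → t ≤ c → ε * (t ^ 2 - ∑ j, x (p j) ^ 2) ≤
          ∑ i ∈ univ.filter (fun i => (∀ j, p j ≠ i) ∧ x i ≤ g * M), x i ^ 2 := fun t h8 h9 => by
        refine le_trans ?_ h7
        have h9 : t ^ 2 ≤ c ^ 2 := pow_le_pow_left₀ h8.le h9 2
        exact mul_le_mul_of_nonneg_left (by linarith) hε.le
      rcases h6 with h6 | ⟨h6, h8⟩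
      · filter_upwards [e5] with t h8 h9
        exact Or.inr ⟨M, Or.inl h6, hle t h8 h9⟩
      · have hcont : Continuous fun t : ℝ => g * (t ^ 2 - ∑ j, x (p j) ^ 2) := by fun_prop
        filter_upwards [e5, hcont.continuousAt.eventually (lt_mem_nhds h8)] with t h8 ht h9
        exact Or.inr ⟨M, Or.inr ⟨h6, ht.le⟩, hle t h8 h9⟩
  have e4 : ∀ᶠ t in nhds c, ∑ i, x i ^ 2 < t ^ 2 := by
    have hcont : Continuous fun t : ℝ => t ^ 2 := by fun_prop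
    exact hcont.continuousAt.eventually (lt_mem_nhds hc)
  have e6 := (e1.and (e2.and (e3.and e4)))
  have e7 : ∀ᶠ t in nhdsWithin c (Set.Iio c), t < c := self_mem_nhdsWithin
  obtain ⟨t, ht, a1, a2, a3, a4⟩ := (e7.and (nhdsWithin_le_nhds e6)).exists
  have b0 := h0 (p 0)
  have b1 := h0 (p 1)
  have b2 := h0 (p 2)
  refine ⟨t, ht, ⟨h0, p, h1, h2, h3, a1.le, ?_, fun i hi => (a2 i hi).le, a3 ht.le⟩, a4.le⟩
  by_contra hcon
  have h9 : x (p 1) + x (p 2) < 0 := by linarith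
  linarith

end Pool.Agent.H200M
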