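import Pool.Agent.H200M.Room

/-! # Project MC: nef classes with a chain of arbitrary coefficients. -/

set_option autoImplicit false

namespace Pool.Agent.H200M

open Finset Pool.Agent.H200W Pool.Agent.H200P Pool.Agent.W609.CR Pool.Agent.H932R3 Pool.Agent

/-- The point `p` and the points in `A` have arbitrary coefficients on a chain of `h` curves of degree
`e`, followed by lines, with a margin given by `t`. -/
structure CoreR (t c : ℝ) {n : ℕ} (x : Fin n → ℝ) (p : Fin n) (A : Finset (Fin n)) (e : ℕ)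
    (h : ℝ) : Prop where
  notMem : p ∉ A
  one_le : 1 ≤ e
  h_nonneg : 0 ≤ h
  t_pos : 0 < t
  c1 : x p + e * h + 2 ^ 28 * e * t ≤ c
  c2 : ∀ i ∈ A, x p + e * h + (x i - h) + 2 ^ 28 * e * t ≤ c
  c3 : e * h + ∑ i ∈ A, max (x i - h) 0 + 2 ^ 32 * t *
    (e + ((A.filter fun i => h < x i ∧ x i ≤ h + 2 ^ 27 * t).card : ℝ)) ≤ c
  c4 : ∑ i ∈ A, x i + 2 ^ 32 * t * e ^ 2 *
    (1 + ((A.filter fun i => 0 < x i ∧ x i ≤ 2 ^ 27 * t).card : ℝ)) ≤ e * c

/-- from real to natural chains -/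
theorem CoreR.round {t c : ℝ} {n : ℕ} {x : Fin n → ℝ} {p : Fin n} {A : Finset (Fin n)} {e : ℕ}
    {h : ℝ} (H : CoreR t c x p A e h) (hx : ∀ i, 0 ≤ x i) {N : ℕ} (hN : 1 ≤ (N : ℝ) * t)
    (hNA : (A.card : ℝ) ≤ N * t) :
    ChainCore ⌊(N : ℝ) * t⌋₊ ⌈(N : ℝ) * c⌉₊ (fun i => ⌊(N : ℝ) * x i⌋₊) p A := by
  classical
  obtain ⟨v, hv⟩ : ∃ v : Fin n → ℕ, v = fun i => ⌊(N : ℝ) * x i⌋₊ := ⟨_, rfl⟩
  obtain ⟨d, hd⟩ : ∃ d : ℕ, d = ⌈(N : ℝ) * c⌉₊ := ⟨_, rfl⟩
  obtain ⟨T, hT⟩ : ∃ T : ℕ, T = ⌊(N : ℝ) * t⌋₊ := ⟨_, rfl⟩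
  obtain ⟨g, hg⟩ : ∃ g : ℕ, g = ⌊(N : ℝ) * h⌋₊ := ⟨_, rfl⟩
  rw [← hv, ← hd, ← hT]
  have hN0 : (0 : ℝ) ≤ N := Nat.cast_nonneg _
  have ht := H.t_pos
  have hh := H.h_nonneg
  have heR : (1 : ℝ) ≤ e := by exact_mod_cast H.one_le
  have hv1 : ∀ i, (v i : ℝ) ≤ N * x i := fun i => by
    rw [hv]
    exact Nat.floor_le (mul_nonneg hN0 (hx i))
  have hv2 : ∀ i, (N : ℝ) * x i < v i + 1 := fun i => by
    rw [hv]
    exact Nat.lt_floor_add_one _
  have hd1 : (N : ℝ) * c ≤ d := by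
    rw [hd]
    exact Nat.le_ceil _
  have hT1 : (T : ℝ) ≤ N * t := by
    rw [hT]
    exact Nat.floor_le (mul_nonneg hN0 ht.le)
  have hg1 : (g : ℝ) ≤ N * h := by
    rw [hg]
    exact Nat.floor_le (mul_nonneg hN0 hh)
  have hg2 : (N : ℝ) * h < g + 1 := by
    rw [hg]
    exact Nat.lt_floor_add_one _
  have hsub : ∀ i, (((v i - g : ℕ)) : ℝ) ≤ N * max (x i - h) 0 + 1 := by
    intro i
    rcases Nat.le_total (v i) g with h1 | h1
    · rw [Nat.sub_eq_zero_of_le h1]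
      have : 0 ≤ (N : ℝ) * max (x i - h) 0 := mul_nonneg hN0 (le_max_right _ _)
      push_cast
      linarith
    · rw [Nat.cast_sub h1]
      have h2 : (N : ℝ) * (x i - h) ≤ N * max (x i - h) 0 :=
        mul_le_mul_of_nonneg_left (le_max_left _ _) hN0
      have h3 := hv1 i
      linarith
  have hcard1 : ((A.filter fun i => g < v i ∧ v i ≤ g + 2 ^ 26 * T).card : ℝ) ≤
      ((A.filter fun i => h < x i ∧ x i ≤ h + 2 ^ 27 * t).card : ℝ) := by
    have h1 : (A.filter fun i => g < v i ∧ v i ≤ g + 2 ^ 26 * T) ⊆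
        (A.filter fun i => h < x i ∧ x i ≤ h + 2 ^ 27 * t) := by
      intro i hi
      rw [mem_filter] at hi ⊢
      obtain ⟨a1, a2, a3⟩ := hi
      have hNp : (0 : ℝ) < N := by
        rcases hN0.eq_or_lt with h5 | h5
        · rw [← h5, zero_mul] at hN
          linarith
        · exact h5
      have b2 : (g : ℝ) + 1 ≤ v i := by exact_mod_cast a2
      have b3 : (v i : ℝ) ≤ g + 2 ^ 26 * T := by exact_mod_cast a3
      have b4 := hv1 i
      have b5 := hv2 i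
      refine ⟨a1, ?_, ?_⟩
      · have : (N : ℝ) * h < N * x i := by linarith
        exact lt_of_mul_lt_mul_left this hN0
      · have : (N : ℝ) * x i ≤ N * (h + 2 ^ 27 * t) := by nlinarith
        exact le_of_mul_le_mul_left this hNp
    exact_mod_cast card_le_card h1
  have hcard2 : ((A.filter fun i => 0 < v i ∧ v i ≤ 2 ^ 26 * T).card : ℝ) ≤
      ((A.filter fun i => 0 < x i ∧ x i ≤ 2 ^ 27 * t).card : ℝ) := by
    have h1 : (A.filter fun i => 0 < v i ∧ v i ≤ 2 ^ 26 * T) ⊆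
        (A.filter fun i => 0 < x i ∧ x i ≤ 2 ^ 27 * t) := by
      intro i hi
      rw [mem_filter] at hi ⊢
      obtain ⟨a1, a2, a3⟩ := hi
      have hNp : (0 : ℝ) < N := by
        rcases hN0.eq_or_lt with h5 | h5
        · rw [← h5, zero_mul] at hN
          linarith
        · exact h5
      have b2 : (1 : ℝ) ≤ v i := by exact_mod_cast a2
      have b3 : (v i : ℝ) ≤ 2 ^ 26 * T := by exact_mod_cast a3
      have b4 := hv1 i
      have b5 := hv2 i
      refine ⟨a1, ?_, ?_⟩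
      · have : (N : ℝ) * 0 < N * x i := by linarith
        exact lt_of_mul_lt_mul_left this hN0
      · have : (N : ℝ) * x i ≤ N * (2 ^ 27 * t) := by nlinarith
        exact le_of_mul_le_mul_left this hNp
    exact_mod_cast card_le_card h1
  have k1 : (N : ℝ) * (x p + e * h + 2 ^ 28 * e * t) ≤ N * c :=
    mul_le_mul_of_nonneg_left H.c1 hN0
  have k0 : 0 ≤ (N : ℝ) * t := mul_nonneg hN0 ht.le
  have kT : (T : ℝ) * e ≤ N * t * e := mul_le_mul_of_nonneg_right hT1 (by linarith)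
  have kg : (g : ℝ) * e ≤ N * h * e := mul_le_mul_of_nonneg_right hg1 (by linarith)
  have ke : (N : ℝ) * t ≤ N * t * e := le_mul_of_one_le_right k0 heR
  refine core_two (e := e) (h := g) H.notMem H.one_le ?_ ?_ ?_ ?_
  · have h1 := hv1 p
    have h2 : (v p : ℝ) + e * g + 2 ^ 27 * T * e ≤ d := by nlinarith
    exact_mod_cast h2
  · intro i hi
    have h1 := hv1 p
    have h2 := hsub i
    have h3 := mul_le_mul_of_nonneg_left (H.c2 i hi) hN0
    have h4 : (v p : ℝ) + e * g + ((v i - g : ℕ) : ℝ) + 2 ^ 27 * T * e ≤ d := by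
      rcases max_choice (x i - h) 0 with h5 | h5
      · rw [h5] at h2
        nlinarith
      · rw [h5] at h2
        nlinarith
    exact_mod_cast h4
  · have h1 : ((∑ i ∈ A, (v i - g) : ℕ) : ℝ) ≤ N * ∑ i ∈ A, max (x i - h) 0 + A.card := by
      push_cast
      calc ∑ i ∈ A, ((v i - g : ℕ) : ℝ) ≤ ∑ i ∈ A, (N * max (x i - h) 0 + 1) :=
            sum_le_sum fun i _ => hsub i
        _ = _ := by rw [sum_add_distrib, ← mul_sum, sum_const, nsmul_eq_mul, mul_one]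
    obtain ⟨q, hq⟩ : ∃ q : ℝ, q = ((A.filter fun i => h < x i ∧ x i ≤ h + 2 ^ 27 * t).card : ℝ) :=
      ⟨_, rfl⟩
    have hq0 : 0 ≤ q := by rw [hq]; exact Nat.cast_nonneg _
    have h3 := H.c3
    rw [← hq] at h3 hcard1
    have h4 := mul_le_mul_of_nonneg_left h3 hN0
    have h5 : (T : ℝ) * (e + ((A.filter fun i => g < v i ∧ v i ≤ g + 2 ^ 26 * T).card : ℝ)) ≤
        N * t * (e + q) := mul_le_mul hT1 (by linarith) (by positivity) k0
    have h6 : (N : ℝ) * t ≤ N * t * (e + q) := le_mul_of_one_le_right k0 (by linarith)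
    have h7 : (e : ℝ) * g + ((∑ i ∈ A, (v i - g) : ℕ) : ℝ) + 2 ^ 31 * T *
        (e + ((A.filter fun i => g < v i ∧ v i ≤ g + 2 ^ 26 * T).card : ℝ)) ≤ d := by nlinarith
    exact_mod_cast h7
  · obtain ⟨q, hq⟩ : ∃ q : ℝ, q = ((A.filter fun i => 0 < x i ∧ x i ≤ 2 ^ 27 * t).card : ℝ) :=
      ⟨_, rfl⟩
    have hq0 : 0 ≤ q := by rw [hq]; exact Nat.cast_nonneg _
    have h3 := H.c4
    rw [← hq] at h3 hcard2
    have h4 := mul_le_mul_of_nonneg_left h3 hN0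
    have h5 : (T : ℝ) * (1 + ((A.filter fun i => 0 < v i ∧ v i ≤ 2 ^ 26 * T).card : ℝ)) ≤
        N * t * (1 + q) := mul_le_mul hT1 (by linarith) (by positivity) k0
    have h6 := mul_le_mul_of_nonneg_left h5 (by positivity : (0 : ℝ) ≤ (e : ℝ) ^ 2)
    have h7 : ∑ i ∈ A, (v i : ℝ) ≤ N * ∑ i ∈ A, x i := by
      rw [mul_sum]
      exact sum_le_sum fun i _ => hv1 i
    have h8 : (e : ℝ) * (N * c) ≤ e * d := mul_le_mul_of_nonneg_left hd1 (by linarith)
    have h9 : 0 ≤ (e : ℝ) ^ 2 * (N * t * (1 + q)) := by positivity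
    have h10 : ∑ i ∈ A, (v i : ℝ) + 2 ^ 31 * T * e ^ 2 *
        (1 + ((A.filter fun i => 0 < v i ∧ v i ≤ 2 ^ 26 * T).card : ℝ)) ≤ e * d := by nlinarith
    exact_mod_cast h10

/-- A chain of arbitrary coefficients, the others at most a fraction of `t`, self-intersection at
least the part `ε` of the volume left by the chain. -/
theorem nefCh_room (ε : ℝ) (hε : 0 < ε) (hε1 : ε < 1) : ∃ γ : ℝ, 0 < γ ∧ ∀ {n : ℕ}
    {P : Fin n → Fin 2 → ℂ},
    AlgebraicIndependent ℚ (fun ij : Fin n × Fin 2 => P ij.1 ij.2) →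
    ∀ (c t h : ℝ) (x : Fin n → ℝ) (p : Fin n) (A : Finset (Fin n)) (e : ℕ), (∀ i, 0 ≤ x i) →
    CoreR t c x p A e h → (∀ i ∉ insert p A, x i ≤ γ * t) →
    ∑ i ∈ univ \ insert p A, x i ^ 2 ≤ (1 - ε) * (c ^ 2 - ∑ i ∈ insert p A, x i ^ 2) →
    ∀ (G : MvPolynomial (Fin 3) ℂ) (e : ℕ) (u : Fin n → ℕ), G ≠ 0 → G.IsHomogeneous e →
      (∀ i, Van (aff (P i)) (u i) G) → ∑ i, x i * (u i : ℝ) ≤ c * e := by
  classical
  obtain ⟨γ, hγ, H⟩ := mainCh_all (ε / 2) (by linarith)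
  refine ⟨γ / 2, by linarith, fun {n P} hP c t h x p A e hx hc hle hsq G e' u hG hGe hu => ?_⟩
  have ht := hc.t_pos
  have hc0 : 0 ≤ c := by
    refine le_trans ?_ hc.c1
    have := hx p
    have := hc.h_nonneg
    positivity
  obtain ⟨V, hV⟩ : ∃ V : ℝ, V = c ^ 2 - ∑ i ∈ insert p A, x i ^ 2 := ⟨_, rfl⟩
  rw [← hV] at hsq
  have hV0 : 0 ≤ V := by
    have h1 : 0 ≤ (1 - ε) * V := le_trans (sum_nonneg fun _ _ => sq_nonneg _) hsq
    by_contra hcon
    push Not at hcon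
    have : (1 - ε) * V < 0 := mul_neg_of_pos_of_neg (by linarith) hcon
    linarith
  have hsplit : ∀ f : Fin n → ℝ, ∑ i, f i = ∑ i ∈ insert p A, f i +
      ∑ i ∈ univ \ insert p A, f i := fun f => by
    rw [add_comm]
    exact (sum_sdiff (subset_univ _)).symm
  obtain ⟨N0, hN0⟩ := exists_nat_ge ((2 + 2 / ε + A.card) / t)
  have key : ∀ N : ℕ, N0 ≤ N →
      (N : ℝ) * (∑ i, x i * (u i : ℝ) - c * e') ≤ e' + ∑ i, (u i : ℝ) := by
    intro N hN
    have hNt : 2 + 2 / ε + A.card ≤ (N : ℝ) * t := by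
      rw [div_le_iff₀ ht] at hN0
      refine hN0.trans (mul_le_mul_of_nonneg_right ?_ ht.le)
      exact_mod_cast hN
    have hε2 : 0 < 2 / ε := by positivity
    have hAc : (0 : ℝ) ≤ A.card := Nat.cast_nonneg _
    have hNt1 : 1 ≤ (N : ℝ) * t := by linarith
    have hcore := hc.round hx hNt1 (by linarith)
    obtain ⟨v, hv⟩ : ∃ v : Fin n → ℕ, v = fun i => ⌊(N : ℝ) * x i⌋₊ := ⟨_, rfl⟩
    obtain ⟨d, hd⟩ : ∃ d : ℕ, d = ⌈(N : ℝ) * c⌉₊ := ⟨_, rfl⟩
    obtain ⟨T, hT⟩ : ∃ T : ℕ, T = ⌊(N : ℝ) * t⌋₊ := ⟨_, rfl⟩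
    rw [← hv, ← hd, ← hT] at hcore
    have hNn : (0 : ℝ) ≤ N := Nat.cast_nonneg _
    have hT1 : (N : ℝ) * t < T + 1 := by
      rw [hT]
      exact Nat.lt_floor_add_one _
    have hT2 : (N : ℝ) * t ≤ 2 * T := by linarith
    have hT3 : 2 / ε ≤ 2 * T := by linarith
    have hTp : 1 ≤ T := by
      rcases Nat.eq_zero_or_pos T with h1 | h1
      · rw [h1] at hT2
        norm_num at hT2
        linarith
      · exact h1
    have hTR : (1 : ℝ) ≤ T := by exact_mod_cast hTp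
    have hv1 : ∀ i, (v i : ℝ) ≤ N * x i := fun i => by
      rw [hv]
      exact Nat.floor_le (mul_nonneg (Nat.cast_nonneg _) (hx i))
    have hv2 : ∀ i, (N : ℝ) * x i - 1 ≤ v i := fun i => by
      rw [hv]
      exact (Nat.sub_one_lt_floor _).le
    have hd1 : (N : ℝ) * c ≤ d := by
      rw [hd]
      exact Nat.le_ceil _
    have hd2 : (d : ℝ) ≤ N * c + 1 := by
      rw [hd]
      exact (Nat.ceil_lt_add_one (mul_nonneg (Nat.cast_nonneg _) hc0)).le
    obtain ⟨q, hq1, hq2, hq3, hq4⟩ := chain_vol hcore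
    obtain ⟨W, hW⟩ : ∃ W : ℝ, W = (d : ℝ) ^ 2 - ∑ i ∈ insert p A, (v i : ℝ) ^ 2 := ⟨_, rfl⟩
    rw [← hW] at hq3
    have hqR : (1 : ℝ) ≤ q := by exact_mod_cast hq1
    have hdn : (0 : ℝ) ≤ d := Nat.cast_nonneg _
    have hWV : (N : ℝ) ^ 2 * V ≤ W := by
      rw [hV, hW]
      have h1 : ((N : ℝ) * c) ^ 2 ≤ (d : ℝ) ^ 2 :=
        pow_le_pow_left₀ (mul_nonneg (Nat.cast_nonneg _) hc0) hd1 2
      have h2 : ∑ i ∈ insert p A, (v i : ℝ) ^ 2 ≤ (N : ℝ) ^ 2 * ∑ i ∈ insert p A, x i ^ 2 := by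
        rw [mul_sum]
        refine sum_le_sum fun i _ => ?_
        calc (v i : ℝ) ^ 2 ≤ (N * x i) ^ 2 := pow_le_pow_left₀ (Nat.cast_nonneg _) (hv1 i) 2
          _ = _ := by ring
      have h3 : ((N : ℝ) * c) ^ 2 = (N : ℝ) ^ 2 * c ^ 2 := by ring
      rw [h3] at h1
      linarith
    have hW0 : 0 ≤ W := le_trans (by positivity) hWV
    have hSv : ∑ i ∈ univ \ insert p A, (v i : ℝ) ^ 2 ≤ (1 - ε) * W := by
      calc ∑ i ∈ univ \ insert p A, (v i : ℝ) ^ 2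
          ≤ ∑ i ∈ univ \ insert p A, (N : ℝ) ^ 2 * x i ^ 2 := by
            refine sum_le_sum fun i _ => ?_
            calc (v i : ℝ) ^ 2 ≤ (N * x i) ^ 2 := pow_le_pow_left₀ (Nat.cast_nonneg _) (hv1 i) 2
              _ = _ := by ring
        _ = (N : ℝ) ^ 2 * ∑ i ∈ univ \ insert p A, x i ^ 2 := by rw [mul_sum]
        _ ≤ (N : ℝ) ^ 2 * ((1 - ε) * V) := mul_le_mul_of_nonneg_left hsq (by positivity)
        _ = (1 - ε) * ((N : ℝ) ^ 2 * V) := by ring
        _ ≤ _ := mul_le_mul_of_nonneg_left hWV (by linarith)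
    have hsqv : ∑ i, v i ^ 2 ≤ d ^ 2 := by
      have h1 : ∑ i, (v i : ℝ) ^ 2 ≤ (d : ℝ) ^ 2 := by
        rw [hsplit]
        have h2 : (1 - ε) * W ≤ W := by nlinarith
        linarith
      exact_mod_cast h1
    have hqd : (q : ℝ) * d ≤ ε / 2 * W := by
      have h1 : 0 ≤ (q : ℝ) * d := by positivity
      have h2 : 2 ^ 27 * ((T : ℝ) * (q * d)) ≤ W := by
        have : 2 ^ 27 * ((T : ℝ) * (q * d)) = 2 ^ 27 * (T : ℝ) * q * d := by ring
        rw [this]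
        exact hq3
      have h3 : 1 ≤ ε * T := by
        have h4 := mul_le_mul_of_nonneg_left hT3 hε.le
        have h5 : ε * (2 / ε) = 2 := by field_simp
        rw [h5] at h4
        linarith
      have h4 : (q : ℝ) * d ≤ ε * T * (q * d) := le_mul_of_one_le_left h1 h3
      have h5 := mul_le_mul_of_nonneg_left h2 hε.le
      have h6 : 0 ≤ ε * T * ((q : ℝ) * d) := by positivity
      nlinarith
    have hk : ∀ k : ℕ, 1 ≤ k → ExpDim ℂ (fun i => k * v i) P (k * d) := by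
      intro k hk
      have hkR : (1 : ℝ) ≤ k := by exact_mod_cast hk
      obtain ⟨a1, E, m, a2, a3, a4, a5, a6⟩ := hcore.scale (v := fun i => k * v i) hk
        (fun i _ => rfl)
      have hX : (1 - ε / 2) * ((k : ℝ) ^ 2 * W) ≤
          XA (fun i => k * v i) (insert p A) (k * d) := by
        have h1 : XA (fun i => k * v i) (insert p A) (k * d) = (k : ℝ) ^ 2 * W +
            k * (3 * d - ∑ i ∈ insert p A, (v i : ℝ)) + 2 := by
          have h2 : ∑ i ∈ insert p A, ((k * v i : ℕ) : ℝ) * ((k * v i : ℕ) + 1) =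
              (k : ℝ) ^ 2 * ∑ i ∈ insert p A, (v i : ℝ) ^ 2 +
                (k : ℝ) * ∑ i ∈ insert p A, (v i : ℝ) := by
            rw [mul_sum, mul_sum, ← sum_add_distrib]
            refine sum_congr rfl fun i _ => ?_
            push_cast
            ring
          unfold XA
          rw [h2, hW]
          push_cast
          ring
        rw [h1]
        have h3 : -(ε / 2 * W) ≤ 3 * d - ∑ i ∈ insert p A, (v i : ℝ) := by linarith
        have h4 := mul_le_mul_of_nonneg_left h3 (Nat.cast_nonneg (α := ℝ) k)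
        have h5 : (k : ℝ) * (ε / 2 * W) ≤ (k : ℝ) ^ 2 * (ε / 2 * W) := by
          refine mul_le_mul_of_nonneg_right ?_ (by positivity)
          nlinarith
        nlinarith
      refine @H n (k * d) (k * T) m 0 (fun i => k * v i) p A E a1 (Nat.mul_pos hk hTp) a2 a3 a4 a5
        a6 (fun i hi => ?_) ?_ (Or.inl ?_) ℂ _ _ P hP
      · have h1 := hle i hi
        have h2 : (v i : ℝ) ≤ γ * T := by
          calc (v i : ℝ) ≤ N * x i := hv1 i
            _ ≤ N * (γ / 2 * t) := mul_le_mul_of_nonneg_left h1 hNn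
            _ = γ / 2 * (N * t) := by ring
            _ ≤ γ / 2 * (2 * T) := mul_le_mul_of_nonneg_left hT2 (by linarith)
            _ = γ * T := by ring
        have h3 := mul_le_mul_of_nonneg_left h2 (Nat.cast_nonneg (α := ℝ) k)
        push_cast
        refine h3.trans (le_of_eq ?_)
        ring
      · left
        intro i _ hi0 hi1
        have : (1 : ℝ) ≤ ((k * v i : ℕ) : ℝ) := by
          have : 1 ≤ k * v i := Nat.one_le_iff_ne_zero.2 hi0
          exact_mod_cast this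
        linarith
      · refine le_trans (sum_le_sum_of_subset_of_nonneg (filter_subset _ _)
          fun _ _ _ => sq_nonneg _) ?_
        have h1 : ∑ i ∈ univ \ insert p A, (((k * v i : ℕ) : ℝ)) ^ 2 =
            (k : ℝ) ^ 2 * ∑ i ∈ univ \ insert p A, (v i : ℝ) ^ 2 := by
          rw [mul_sum]
          refine sum_congr rfl fun i _ => ?_
          push_cast
          ring
        rw [h1]
        have h2 := mul_le_mul_of_nonneg_left hSv (by positivity : (0 : ℝ) ≤ (k : ℝ) ^ 2)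
        have h3 := mul_le_mul_of_nonneg_left hX (by linarith : (0 : ℝ) ≤ 1 - ε / 2)
        have h4 : 0 ≤ ε ^ 2 / 4 * ((k : ℝ) ^ 2 * W) := by positivity
        nlinarith
    have h1 := nefExp (P := P) (v := v) (d := d) (k0 := 1) hsqv hk G e' u hG hGe hu
    have h2 : ∑ i, (v i : ℝ) * u i ≤ (d : ℝ) * e' := by exact_mod_cast h1
    have h3 : ∑ i, ((N : ℝ) * x i - 1) * (u i : ℝ) ≤ ∑ i, (v i : ℝ) * u i :=
      sum_le_sum fun i _ => mul_le_mul_of_nonneg_right (hv2 i) (Nat.cast_nonneg _)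
    have h4 : ∑ i, ((N : ℝ) * x i - 1) * (u i : ℝ) = N * ∑ i, x i * (u i : ℝ) - ∑ i, (u i : ℝ) := by
      rw [mul_sum, ← sum_sub_distrib]
      refine sum_congr rfl fun i _ => ?_
      ring
    have h5 : (d : ℝ) * e' ≤ (N * c + 1) * e' := mul_le_mul_of_nonneg_right hd2 (Nat.cast_nonneg _)
    rw [h4] at h3
    nlinarith
  by_contra hcon
  push Not at hcon
  obtain ⟨D, hD⟩ : ∃ D : ℝ, D = ∑ i, x i * (u i : ℝ) - c * e' := ⟨_, rfl⟩
  have hD0 : 0 < D := by rw [hD]; linarith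
  obtain ⟨N, hN⟩ := exists_nat_gt ((e' + ∑ i, (u i : ℝ)) / D)
  have h1 := key (max N0 N + 1) (by omega)
  rw [← hD] at h1
  rw [div_lt_iff₀ hD0] at hN
  have h2 : (N : ℝ) ≤ ((max N0 N + 1 : ℕ) : ℝ) := by
    exact_mod_cast (by omega : N ≤ max N0 N + 1)
  have h3 := mul_le_mul_of_nonneg_right h2 hD0.le
  linarith

/-- The real class `c H - ∑ x_i E_i`, `x_i ≥ 0`, has a chain of arbitrary coefficients (`CoreR`) with margin
`t`; the other coefficients are at most `g t`, and the sum of their squares is at most `(1 - ε) V`, `V`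
the volume left by the chain. -/
def RoomCh (g ε : ℝ) {n : ℕ} (c : ℝ) (x : Fin n → ℝ) : Prop :=
  (∀ i, 0 ≤ x i) ∧ ∃ (p : Fin n) (A : Finset (Fin n)) (e : ℕ) (h t : ℝ), CoreR t c x p A e h ∧
    (∀ i ∉ insert p A, x i ≤ g * t) ∧
    ∑ i ∈ univ \ insert p A, x i ^ 2 ≤ (1 - ε) * (c ^ 2 - ∑ i ∈ insert p A, x i ^ 2)

theorem nef_roomCh : ∃ γ : ℝ → ℝ, (∀ ε, 0 < ε → 0 < γ ε) ∧ ∀ (ε : ℝ), 0 < ε → ε < 1 → ∀ {n : ℕ}
    {P : Fin n → Fin 2 → ℂ}, AlgebraicIndependent ℚ (fun ij : Fin n × Fin 2 => P ij.1 ij.2) →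
    ∀ (c : ℝ) (x : Fin n → ℝ), RoomCh (γ ε) ε c x →
    ∀ (G : MvPolynomial (Fin 3) ℂ) (e : ℕ) (u : Fin n → ℕ), G ≠ 0 → G.IsHomogeneous e →
      (∀ i, Van (Pool.Agent.W609.CR.aff (P i)) (u i) G) → ∑ i, x i * (u i : ℝ) ≤ c * e := by
  classical
  choose! γ hγ H using nefCh_room
  refine ⟨fun ε => if ε < 1 then γ ε else 1, fun ε hε => ?_,
    fun ε hε hε1 {n P} hP c x hx G e u hG hGe hu => ?_⟩
  · dsimp only
    split_ifs with h
    · exact hγ ε hε h
    · exact one_pos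
  · dsimp only at hx
    rw [if_pos hε1] at hx
    obtain ⟨h0, p, A, e', h, t, h1, h2, h3⟩ := hx
    exact @H ε hε hε1 n P hP c t h x p A e' h0 h1 h2 h3 G e u hG hGe hu

theorem RoomCh.c_nonneg {g ε : ℝ} {n : ℕ} {c : ℝ} {x : Fin n → ℝ} (H : RoomCh g ε c x) : 0 ≤ c := by
  obtain ⟨h0, p, A, e, h, t, h1, -, -⟩ := H
  refine le_trans ?_ h1.c1
  have := h0 p
  have := h1.h_nonneg
  have := h1.t_pos
  positivity

theorem RoomCh.mono {g ε : ℝ} (hε : ε < 1) {n : ℕ} {c c' : ℝ} {x : Fin n → ℝ}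
    (H : RoomCh g ε c' x) (h : c' ≤ c) : RoomCh g ε c x := by
  have hc := H.c_nonneg
  obtain ⟨h0, p, A, e, a, t, h1, h2, h3⟩ := H
  refine ⟨h0, p, A, e, a, t, ⟨h1.notMem, h1.one_le, h1.h_nonneg, h1.t_pos, h1.c1.trans h,
    fun i hi => (h1.c2 i hi).trans h, h1.c3.trans h, h1.c4.trans ?_⟩, h2, h3.trans ?_⟩
  · exact mul_le_mul_of_nonneg_left h (Nat.cast_nonneg _)
  · have h4 : c' ^ 2 ≤ c ^ 2 := pow_le_pow_left₀ hc h 2
    exact mul_le_mul_of_nonneg_left (by linarith) (by linarith)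

end Pool.Agent.H200M
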