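import Pool.Agent.H200M.Asm
import Pool.Agent.TH167.SH.Gen
import Pool.Agent.TH442.NF.Fin
import Pool.Agent.TH698.NagT3

/-! # Project MC: emptiness beyond the critical volume. -/

set_option autoImplicit false

namespace Pool.Agent.H200M

open Finset Pool.Agent.H200W Pool.Agent.H200P Pool.Agent.H200C Pool.Agent.H200G Pool.Agent.W609.CR
open Pool.Agent.TH167 Pool.Agent.TH167.SH Pool.Agent.TH442.NF Pool.Agent.H932R3 Pool.Agent

theorem exists_gen (n : ℕ) : ∃ P : Fin n → Fin 2 → ℂ,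
    AlgebraicIndependent ℚ (fun ij : Fin n × Fin 2 => P ij.1 ij.2) := by
  obtain ⟨f, hf⟩ := Pool.Agent.TH698.NagT3.exists_indep (Fin n × Fin 2)
  exact ⟨fun i j => f (i, j), hf⟩

/-- One generic configuration suffices. -/
theorem genExp_of {n d : ℕ} {w : Fin n → ℕ} {P : Fin n → Fin 2 → ℂ}
    (hP : AlgebraicIndependent ℚ (fun ij : Fin n × Fin 2 => P ij.1 ij.2)) (h : ExpDim ℂ w P d) :
    GenExp d w := by
  obtain ⟨g, F, hF, hF'⟩ := SH.dim_gen w d
  rw [expDim_iff, hF' ℂ P fun h0 => hF (hP.eq_zero_of_aeval_eq_zero F h0)] at h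
  intro K _ _ P' hP'
  rw [expDim_iff, hF' K P' fun h0 => hF (hP'.eq_zero_of_aeval_eq_zero F h0)]
  exact h

/-- no nonzero form -/
theorem expDim_bot {n d : ℕ} {w : Fin n → ℕ} {P : Fin n → Fin 2 → ℂ}
    (h : ∀ G : MvPolynomial (Fin 3) ℂ, G.IsHomogeneous d → (∀ i, Van (aff (P i)) (w i) G) → G = 0)
    (hc : (d + 2).choose 2 ≤ ∑ i, (w i + 1).choose 2) : ExpDim ℂ w P d := by
  rw [expDim_iff]
  have h1 : VS (fun j => aff (P j)) w d = ⊥ := by
    rw [Submodule.eq_bot_iff]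
    rintro G ⟨hG1, hG2⟩
    refine h G hG1 fun i => ?_
    have h2 : G ∈ ⨅ i, (RingHom.ker (MvPolynomial.eval (aff (P i)))) ^ (w i) := hG2
    rw [Submodule.mem_iInf] at h2
    exact h2 i
  rw [h1, finrank_bot]
  have h2 : chi d w ≤ 0 := by
    have h3 : chi d w = ((d + 2).choose 2 : ℤ) - ((∑ i, (w i + 1).choose 2 : ℕ) : ℤ) := by
      unfold chi
      push_cast
      rfl
    rw [h3]
    have h4 : ((d + 2).choose 2 : ℤ) ≤ ((∑ i, (w i + 1).choose 2 : ℕ) : ℤ) := by exact_mod_cast hc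
    linarith
  rw [max_eq_left h2]
  rfl

/-- Emptiness beyond the critical volume: if the points outside of `C` can be given multiplicities with
sum of squares almost `V = d ^ 2 - ∑_C w ^ 2`, all multiples being of the expected dimension, then there
are no curves if their sum of squares is larger than `(1 + ε) V`. -/
theorem beyond {n d : ℕ} (w : Fin n → ℕ) (C : Finset (Fin n)) {ε V : ℝ} (hε : 0 < ε) (hε1 : ε ≤ 1)
    (hV : V = (d : ℝ) ^ 2 - ∑ i ∈ C, (w i : ℝ) ^ 2) (hV0 : 0 < V)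
    (hS : (1 + ε) * V ≤ ∑ i ∈ univ \ C, (w i : ℝ) ^ 2)
    (hX : XA w C d ≤ ∑ i ∈ univ \ C, (w i : ℝ) * (w i + 1))
    (hcore : ∀ (k : ℕ) (v : Fin n → ℕ), 1 ≤ k → (∀ i ∈ C, v i = k * w i) →
      (∀ i ∉ C, v i ≤ k * w i) →
      ∑ i ∈ univ \ C, (v i : ℝ) ^ 2 ≤ (1 - ε / 8) * XA v C (k * d) → GenExp (k * d) v) :
    GenExp d w := by
  classical
  obtain ⟨P, hP⟩ := exists_gen n
  obtain ⟨S, hSd⟩ : ∃ S : ℝ, S = ∑ i ∈ univ \ C, (w i : ℝ) ^ 2 := ⟨_, rfl⟩
  obtain ⟨δ, hδ⟩ : ∃ δ : ℝ, δ = ε / 8 := ⟨_, rfl⟩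
  rw [← hSd] at hS
  rw [← hδ] at hcore
  have hδ0 : 0 < δ := by rw [hδ]; linarith
  have hδ1 : δ ≤ 1 / 8 := by rw [hδ]; linarith
  have hS0 : 0 < S := lt_of_lt_of_le (by positivity) hS
  have hVS : V ≤ S := by nlinarith
  obtain ⟨lam, hlam⟩ : ∃ lam : ℝ, lam = √((1 - 2 * δ) * V / S) := ⟨_, rfl⟩
  have hl2 : lam ^ 2 = (1 - 2 * δ) * V / S := by
    rw [hlam]
    exact Real.sq_sqrt (div_nonneg (mul_nonneg (by linarith) hV0.le) hS0.le)
  have hl0 : 0 ≤ lam := by rw [hlam]; exact Real.sqrt_nonneg _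
  have hl2S : lam ^ 2 * S = (1 - 2 * δ) * V := by
    rw [hl2]
    exact div_mul_cancel₀ _ hS0.ne'
  have hl1 : lam ≤ 1 := by
    have h1 : lam ^ 2 ≤ 1 := by
      rw [hl2, div_le_one hS0]
      nlinarith
    nlinarith
  obtain ⟨W, hW⟩ : ∃ W : ℝ, W = ∑ i, (w i : ℝ) := ⟨_, rfl⟩
  have hW0 : 0 ≤ W := by
    rw [hW]
    exact sum_nonneg fun i _ => Nat.cast_nonneg _
  obtain ⟨N, hN⟩ := exists_nat_ge ((W + 1) / (δ * V))
  have hdV : 0 < δ * V := mul_pos hδ0 hV0
  have hN1 : W + 1 ≤ N * (δ * V) := by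
    rw [div_le_iff₀ hdV] at hN
    exact hN
  have hN0 : 1 ≤ N := by
    rcases Nat.eq_zero_or_pos N with h | h
    · rw [h] at hN1
      simp only [Nat.cast_zero, zero_mul] at hN1
      linarith
    · exact h
  have hNR : (1 : ℝ) ≤ N := by exact_mod_cast hN0
  have hWC : ∑ i ∈ C, (w i : ℝ) ≤ W := by
    rw [hW]
    exact sum_le_sum_of_subset_of_nonneg (subset_univ _) fun i _ _ => Nat.cast_nonneg _
  have hWS : ∑ i ∈ univ \ C, (w i : ℝ) ≤ W := by
    rw [hW]
    exact sum_le_sum_of_subset_of_nonneg (subset_univ _) fun i _ _ => Nat.cast_nonneg _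
  obtain ⟨v, hv⟩ : ∃ v : Fin n → ℕ, v = fun i => if i ∈ C then N * w i else ⌊(N : ℝ) * lam * w i⌋₊ :=
    ⟨_, rfl⟩
  have hvC : ∀ i ∈ C, v i = N * w i := fun i hi => by rw [hv]; exact if_pos hi
  have hvS : ∀ i ∉ C, v i = ⌊(N : ℝ) * lam * w i⌋₊ := fun i hi => by rw [hv]; exact if_neg hi
  have hvS1 : ∀ i ∉ C, (v i : ℝ) ≤ N * lam * w i := fun i hi => by
    rw [hvS i hi]
    exact Nat.floor_le (mul_nonneg (mul_nonneg (Nat.cast_nonneg _) hl0) (Nat.cast_nonneg _))
  have hvS2 : ∀ i ∉ C, (N : ℝ) * lam * w i - 1 ≤ v i := fun i hi => by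
    rw [hvS i hi]
    exact (Nat.sub_one_lt_floor _).le
  have hvS3 : ∀ i ∉ C, v i ≤ N * w i := fun i hi => by
    have h1 := hvS1 i hi
    have h2 : (N : ℝ) * lam * w i ≤ N * w i := by
      have h3 : (0 : ℝ) ≤ N * w i := mul_nonneg (Nat.cast_nonneg _) (Nat.cast_nonneg _)
      nlinarith
    exact_mod_cast h1.trans h2
  have hsplit : ∀ f : Fin n → ℝ, ∑ i, f i = ∑ i ∈ C, f i + ∑ i ∈ univ \ C, f i := fun f => by
    rw [add_comm]
    exact (sum_sdiff (subset_univ C)).symm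
  have hvSq : ∑ i ∈ univ \ C, (v i : ℝ) ^ 2 ≤ (N : ℝ) ^ 2 * ((1 - 2 * δ) * V) := by
    calc ∑ i ∈ univ \ C, (v i : ℝ) ^ 2 ≤ ∑ i ∈ univ \ C, (N : ℝ) ^ 2 * lam ^ 2 * (w i : ℝ) ^ 2 := by
          refine sum_le_sum fun i hi => ?_
          have h1 := hvS1 i (mem_sdiff.1 hi).2
          calc (v i : ℝ) ^ 2 ≤ (N * lam * w i) ^ 2 := pow_le_pow_left₀ (Nat.cast_nonneg _) h1 2
            _ = _ := by ring
      _ = (N : ℝ) ^ 2 * (lam ^ 2 * S) := by rw [← mul_sum, ← hSd]; ring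
      _ = _ := by rw [hl2S]
  have hvCq : ∑ i ∈ C, (v i : ℝ) ^ 2 = (N : ℝ) ^ 2 * ((d : ℝ) ^ 2 - V) := by
    have h1 : ∑ i ∈ C, (w i : ℝ) ^ 2 = (d : ℝ) ^ 2 - V := by rw [hV]; ring
    rw [← h1, mul_sum]
    refine sum_congr rfl fun i hi => ?_
    rw [hvC i hi]
    push_cast
    ring
  have hsq : ∑ i, v i ^ 2 ≤ (N * d) ^ 2 := by
    have h1 : ∑ i, (v i : ℝ) ^ 2 ≤ ((N * d : ℕ) : ℝ) ^ 2 := by
      rw [hsplit, hvCq]
      push_cast
      have h2 : 0 ≤ (N : ℝ) ^ 2 * (2 * δ * V) := by positivity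
      nlinarith
    exact_mod_cast h1
  have hk : ∀ k : ℕ, 1 ≤ k → ExpDim ℂ (fun i => k * v i) P (k * (N * d)) := by
    intro k hk
    have hkR : (1 : ℝ) ≤ k := by exact_mod_cast hk
    have h1 : GenExp (k * N * d) (fun i => k * v i) := by
      refine hcore (k * N) _ (Nat.mul_pos hk hN0) (fun i hi => ?_) (fun i hi => ?_) ?_
      · rw [hvC i hi, mul_assoc]
      · rw [mul_assoc]
        exact Nat.mul_le_mul_left _ (hvS3 i hi)
      · have h2 : ∑ i ∈ univ \ C, (((k * v i : ℕ) : ℝ)) ^ 2 ≤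
            (k : ℝ) ^ 2 * ((N : ℝ) ^ 2 * ((1 - 2 * δ) * V)) := by
          calc ∑ i ∈ univ \ C, (((k * v i : ℕ) : ℝ)) ^ 2
              = (k : ℝ) ^ 2 * ∑ i ∈ univ \ C, (v i : ℝ) ^ 2 := by
                rw [mul_sum]
                refine sum_congr rfl fun i _ => ?_
                push_cast
                ring
            _ ≤ _ := mul_le_mul_of_nonneg_left hvSq (by positivity)
        refine h2.trans ?_
        have h3 : XA (fun i => k * v i) C (k * N * d) = (k : ℝ) ^ 2 * (N : ℝ) ^ 2 * V +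
            (k : ℝ) * N * (3 * d - ∑ i ∈ C, (w i : ℝ)) + 2 := by
          have h4 : ∑ i ∈ C, ((k * v i : ℕ) : ℝ) * ((k * v i : ℕ) + 1) =
              (k : ℝ) ^ 2 * (N : ℝ) ^ 2 * ∑ i ∈ C, (w i : ℝ) ^ 2 +
                (k : ℝ) * N * ∑ i ∈ C, (w i : ℝ) := by
            rw [mul_sum, mul_sum, ← sum_add_distrib]
            refine sum_congr rfl fun i hi => ?_
            rw [hvC i hi]
            push_cast
            ring
          unfold XA
          rw [h4, hV]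
          push_cast
          ring
        rw [h3]
        have h5 : (k : ℝ) * N * ∑ i ∈ C, (w i : ℝ) ≤ (k : ℝ) ^ 2 * (N : ℝ) ^ 2 * (δ * V) := by
          have h6 : ∑ i ∈ C, (w i : ℝ) ≤ (k : ℝ) * (N * (δ * V)) := by
            have h7 : (N : ℝ) * (δ * V) ≤ (k : ℝ) * (N * (δ * V)) :=
              le_mul_of_one_le_left (by positivity) hkR
            linarith
          calc (k : ℝ) * N * ∑ i ∈ C, (w i : ℝ) ≤ (k : ℝ) * N * ((k : ℝ) * (N * (δ * V))) :=
                mul_le_mul_of_nonneg_left h6 (by positivity)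
            _ = _ := by ring
        have h8 : 0 ≤ (k : ℝ) * N * (3 * d) := by positivity
        have h9 : (k : ℝ) ^ 2 * (N : ℝ) ^ 2 * ((1 - δ) * V) ≤ (k : ℝ) ^ 2 * (N : ℝ) ^ 2 * V +
            (k : ℝ) * N * (3 * d - ∑ i ∈ C, (w i : ℝ)) + 2 := by
          have e1 : (k : ℝ) * N * (3 * d - ∑ i ∈ C, (w i : ℝ)) =
            (k : ℝ) * N * (3 * d) - (k : ℝ) * N * ∑ i ∈ C, (w i : ℝ) := by ring
          have e2 : (k : ℝ) ^ 2 * (N : ℝ) ^ 2 * ((1 - δ) * V) =
            (k : ℝ) ^ 2 * (N : ℝ) ^ 2 * V - (k : ℝ) ^ 2 * (N : ℝ) ^ 2 * (δ * V) := by ring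
          rw [e1, e2]
          linarith
        refine le_trans ?_ (mul_le_mul_of_nonneg_left h9 (by linarith))
        have h10 : 0 ≤ (k : ℝ) ^ 2 * (N : ℝ) ^ 2 * V := by positivity
        have e3 : (1 - δ) * ((k : ℝ) ^ 2 * (N : ℝ) ^ 2 * ((1 - δ) * V)) -
            (k : ℝ) ^ 2 * ((N : ℝ) ^ 2 * ((1 - 2 * δ) * V)) =
            δ ^ 2 * ((k : ℝ) ^ 2 * (N : ℝ) ^ 2 * V) := by ring
        have h11 : 0 ≤ δ ^ 2 * ((k : ℝ) ^ 2 * (N : ℝ) ^ 2 * V) := by positivity
        linarith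
    rw [← mul_assoc]
    exact @h1 ℂ _ _ P hP
  suffices key : ExpDim ℂ w P d from @genExp_of n d w P hP key
  refine expDim_bot (fun G hG hGv => ?_) ?_
  · by_contra hG0
    have h1 := nefExp (P := P) (v := v) (d := N * d) (k0 := 1) hsq hk G d w hG0 hG hGv
    have h2 : ∑ i, (v i : ℝ) * w i ≤ (N : ℝ) * d * d := by exact_mod_cast h1
    rw [hsplit] at h2
    have h3 : ∑ i ∈ C, (v i : ℝ) * w i = N * ((d : ℝ) ^ 2 - V) := by
      have h4 : ∑ i ∈ C, (w i : ℝ) ^ 2 = (d : ℝ) ^ 2 - V := by rw [hV]; ring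
      rw [← h4, mul_sum]
      refine sum_congr rfl fun i hi => ?_
      rw [hvC i hi]
      push_cast
      ring
    have h5 : N * lam * S - W ≤ ∑ i ∈ univ \ C, (v i : ℝ) * w i := by
      calc N * lam * S - W ≤ N * lam * S - ∑ i ∈ univ \ C, (w i : ℝ) := by linarith
        _ = ∑ i ∈ univ \ C, (N * lam * w i - 1) * (w i : ℝ) := by
            rw [hSd, mul_sum, ← sum_sub_distrib]
            refine sum_congr rfl fun i _ => ?_
            ring
        _ ≤ _ := sum_le_sum fun i hi =>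
            mul_le_mul_of_nonneg_right (hvS2 i (mem_sdiff.1 hi).2) (Nat.cast_nonneg _)
    rw [h3] at h2
    have h6 : (N : ℝ) * (lam * S) ≤ N * (V * (1 + δ)) := by nlinarith
    have h7 : lam * S ≤ V * (1 + δ) := le_of_mul_le_mul_left h6 (by linarith)
    have h8 : (lam * S) ^ 2 ≤ (V * (1 + δ)) ^ 2 :=
      pow_le_pow_left₀ (mul_nonneg hl0 hS0.le) h7 2
    have h9 : (lam * S) ^ 2 = (1 - 2 * δ) * V * S := by
      have : (lam * S) ^ 2 = lam ^ 2 * S * S := by ring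
      rw [this, hl2S]
    rw [h9] at h8
    have h10 : (1 - 2 * δ) * V * ((1 + ε) * V) ≤ (1 - 2 * δ) * V * S :=
      mul_le_mul_of_nonneg_left hS (mul_nonneg (by linarith) hV0.le)
    have h11 : (1 - 2 * δ) * (1 + ε) ≤ (1 + δ) ^ 2 := by
      have h12 : V ^ 2 * ((1 - 2 * δ) * (1 + ε)) ≤ V ^ 2 * (1 + δ) ^ 2 := by nlinarith
      exact le_of_mul_le_mul_left h12 (by positivity)
    have h13 : ε = 8 * δ := by rw [hδ]; ring
    rw [h13] at h11
    nlinarith
  · have h1 : ((d : ℝ) + 1) * (d + 2) ≤ ∑ i, (w i : ℝ) * (w i + 1) := by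
      rw [hsplit]
      unfold XA at hX
      linarith
    have h2 : ∀ m : ℕ, (((m + 1).choose 2 : ℕ) : ℝ) * 2 = (m : ℝ) * (m + 1) := by
      intro m
      have h3 := Nat.choose_two_right (m + 1)
      have h4 : 2 ∣ (m + 1) * (m + 1 - 1) := (Nat.even_mul_pred_self (m + 1)).two_dvd
      have h5 : (m + 1).choose 2 * 2 = (m + 1) * m := by
        rw [h3]
        exact Nat.div_mul_cancel h4
      have h6 : (((m + 1).choose 2 : ℕ) : ℝ) * 2 = ((m : ℝ) + 1) * m := by exact_mod_cast h5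
      rw [h6]
      ring
    have h3 : (((d + 2).choose 2 : ℕ) : ℝ) * 2 ≤ ((∑ i, (w i + 1).choose 2 : ℕ) : ℝ) * 2 := by
      rw [show d + 2 = (d + 1) + 1 by ring, h2 (d + 1), Nat.cast_sum, sum_mul,
        sum_congr rfl fun i _ => h2 (w i)]
      push_cast
      linarith
    have h4 : (((d + 2).choose 2 : ℕ) : ℝ) ≤ ((∑ i, (w i + 1).choose 2 : ℕ) : ℝ) := by linarith
    exact_mod_cast h4

theorem sum_img {n : ℕ} {p : Fin 3 → Fin n} (hp : Function.Injective p) (f : Fin n → ℝ) :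
    ∑ i ∈ univ.image p, f i = f (p 0) + f (p 1) + f (p 2) := by
  rw [sum_image fun a _ b _ h => hp h, Fin.sum_univ_three]

theorem Few.shrink {n : ℕ} {w : Fin n → ℕ} {S : Finset (Fin n)} {μ c c1 X : ℝ} (hc : 0 < c)
    (hc1 : c ≤ c1) (h : Few w S μ (c * X)) : Few w S (c / c1 * μ) (c1 * X) := by
  have hc0 : 0 < c1 := hc.trans_le hc1
  have hq : 0 ≤ c / c1 := (div_pos hc hc0).le
  have hq1 : c / c1 ≤ 1 := (div_le_one hc0).2 hc1
  rcases h with h | ⟨h0, h⟩
  · left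
    intro i hi hw hle
    refine h i hi hw ?_
    have h1 : (1 : ℝ) ≤ w i := by
      have : 1 ≤ w i := Nat.one_le_iff_ne_zero.2 hw
      exact_mod_cast this
    rcases le_or_gt 0 μ with h2 | h2
    · nlinarith
    · have h3 : c / c1 * μ ≤ 0 := mul_nonpos_of_nonneg_of_nonpos hq h2.le
      linarith
  · right
    refine ⟨mul_nonneg hq h0, ?_⟩
    have hX : 0 ≤ c * X := le_trans (by positivity) h
    have hX0 : 0 ≤ X := by
      by_contra hcon
      push Not at hcon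
      have : c * X < 0 := mul_neg_of_pos_of_neg hc hcon
      linarith
    have h3 : c / c1 * μ ≤ μ := by nlinarith
    have h4 : ((((S.filter fun i => (w i : ℝ) ≤ c / c1 * μ).image w).card : ℕ) : ℝ) ≤
        (((S.filter fun i => (w i : ℝ) ≤ μ).image w).card : ℕ) := by
      exact_mod_cast card_le_card (image_subset_image fun i hi => by
        rw [mem_filter] at hi ⊢
        exact ⟨hi.1, hi.2.trans h3⟩)
    have h5 : (c / c1 * μ) ^ 2 ≤ μ ^ 2 := pow_le_pow_left₀ (mul_nonneg hq h0) h3 2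
    calc ((((S.filter fun i => (w i : ℝ) ≤ c / c1 * μ).image w).card : ℝ) + 1) * (c / c1 * μ) ^ 2
        ≤ ((((S.filter fun i => (w i : ℝ) ≤ μ).image w).card : ℝ) + 1) * μ ^ 2 :=
          mul_le_mul (by linarith) h5 (by positivity) (by positivity)
      _ ≤ c * X := h
      _ ≤ c1 * X := mul_le_mul_of_nonneg_right hc1 hX0

/-- Three arbitrary multiplicities: too many conditions at the other points. -/
theorem main3_above (ε : ℝ) (hε : 0 < ε) : ∃ c : ℝ, 0 < c ∧ ∀ {n d : ℕ} (w : Fin n → ℕ)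
    (p : Fin 3 → Fin n), Function.Injective p → w (p 2) ≤ w (p 1) → w (p 1) ≤ w (p 0) →
    w (p 0) + w (p 1) + w (p 2) ≤ d →
    (∀ i, (∀ j, p j ≠ i) → (w i : ℝ) ≤ c * ((d : ℝ) - w (p 0))) →
    (1 + ε) * XA w (univ.image p) d ≤ ∑ i ∈ univ \ univ.image p, (w i : ℝ) ^ 2 → GenExp d w := by
  classical
  obtain ⟨ε', hε', hε'0, hε'1, hε'2⟩ : ∃ ε' : ℝ, ε' = min ε 1 ∧ 0 < ε' ∧ ε' ≤ 1 ∧ ε' ≤ ε :=
    ⟨min ε 1, rfl, lt_min hε one_pos, min_le_right _ _, min_le_left _ _⟩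
  obtain ⟨c, hc, H⟩ := main3_all (ε' / 8) (by linarith)
  refine ⟨c, hc, fun {n d} w p hp h21 h10 hs hw hS => ?_⟩
  obtain ⟨a, ha⟩ : ∃ a : ℝ, a = w (p 0) := ⟨_, rfl⟩
  obtain ⟨b, hb⟩ : ∃ b : ℝ, b = w (p 1) := ⟨_, rfl⟩
  obtain ⟨e, he⟩ : ∃ e : ℝ, e = w (p 2) := ⟨_, rfl⟩
  have ha0 : 0 ≤ a := by rw [ha]; exact Nat.cast_nonneg _
  have hb0 : 0 ≤ b := by rw [hb]; exact Nat.cast_nonneg _
  have he0 : 0 ≤ e := by rw [he]; exact Nat.cast_nonneg _
  have hba : b ≤ a := by rw [ha, hb]; exact_mod_cast h10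
  have heb : e ≤ b := by rw [he, hb]; exact_mod_cast h21
  have hsR : a + b + e ≤ d := by rw [ha, hb, he]; exact_mod_cast hs
  have hXe : XA w (univ.image p) d =
      ((d : ℝ) + 1) * (d + 2) - (a * (a + 1) + b * (b + 1) + e * (e + 1)) := by
    unfold XA
    rw [sum_img hp fun i => (w i : ℝ) * (w i + 1), ← ha, ← hb, ← he]
  obtain ⟨V, hV⟩ : ∃ V : ℝ, V = (d : ℝ) ^ 2 - ∑ i ∈ univ.image p, (w i : ℝ) ^ 2 := ⟨_, rfl⟩
  have hVe : V = (d : ℝ) ^ 2 - (a ^ 2 + b ^ 2 + e ^ 2) := by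
    rw [hV, sum_img hp fun i => (w i : ℝ) ^ 2, ← ha, ← hb, ← he]
  have hXV : XA w (univ.image p) d = V + 3 * d + 2 - (a + b + e) := by
    rw [hXe, hVe]
    ring
  have hVd : (d : ℝ) * (d - a) ≤ V := by
    rw [hVe]
    have h1 : b ^ 2 + e ^ 2 ≤ a * (b + e) := by nlinarith
    have h2 : a * (b + e) ≤ a * (d - a) := mul_le_mul_of_nonneg_left (by linarith) ha0
    nlinarith
  have hd0 : (0 : ℝ) ≤ d := Nat.cast_nonneg _
  have hXp : V + 2 * d + 2 ≤ XA w (univ.image p) d := by rw [hXV]; linarith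
  have hVn : 0 ≤ V := le_trans (mul_nonneg hd0 (by linarith)) hVd
  have hXpos : 0 < XA w (univ.image p) d := by linarith
  have hda : 0 < (d : ℝ) - a := by
    by_contra hcon
    push Not at hcon
    have h1 : ∑ i ∈ univ \ univ.image p, (w i : ℝ) ^ 2 = 0 := by
      refine sum_eq_zero fun i hi => ?_
      have hi' : ∀ j, p j ≠ i := fun j hj =>
        (mem_sdiff.1 hi).2 (mem_image.2 ⟨j, mem_univ _, hj⟩)
      have h2 := hw i hi'
      rw [← ha] at h2
      have h3 : (w i : ℝ) ≤ 0 := by nlinarith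
      have h4 : (w i : ℝ) = 0 := le_antisymm h3 (Nat.cast_nonneg _)
      rw [h4]
      ring
    rw [h1] at hS
    have h2 : 0 < (1 + ε) * XA w (univ.image p) d := by positivity
    linarith
  have hd1 : (0 : ℝ) < d := by linarith
  have hV0 : 0 < V := lt_of_lt_of_le (mul_pos hd1 hda) hVd
  have hS1 : (1 + ε') * V ≤ ∑ i ∈ univ \ univ.image p, (w i : ℝ) ^ 2 := by
    refine le_trans ?_ hS
    exact mul_le_mul (by linarith) (by linarith) hVn (by linarith)
  refine @beyond n d w (univ.image p) ε' V hε'0 hε'1 hV hV0 hS1 ?_ ?_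
  · refine le_trans (le_trans ?_ hS) (sum_le_sum fun i _ => ?_)
    · nlinarith
    · have : (0 : ℝ) ≤ w i := Nat.cast_nonneg _
      nlinarith
  · intro k v hk hvC hvS hvX
    have hpC : ∀ j, v (p j) = k * w (p j) := fun j =>
      hvC _ (mem_image.2 ⟨j, mem_univ _, rfl⟩)
    have hnot : ∀ i, (∀ j, p j ≠ i) → i ∉ univ.image p := fun i hi hcon => by
      obtain ⟨j, -, hj⟩ := mem_image.1 hcon
      exact hi j hj
    refine @H n (k * d) 0 v p hp ?_ ?_ ?_ (fun i hi => ?_) ?_ (Or.inl ?_)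
    · rw [hpC, hpC]
      exact Nat.mul_le_mul_left _ h21
    · rw [hpC, hpC]
      exact Nat.mul_le_mul_left _ h10
    · rw [hpC, hpC, hpC, ← Nat.mul_add, ← Nat.mul_add]
      exact Nat.mul_le_mul_left _ hs
    · have h1 : (v i : ℝ) ≤ k * w i := by exact_mod_cast hvS i (hnot i hi)
      have h2 := mul_le_mul_of_nonneg_left (hw i hi) (Nat.cast_nonneg (α := ℝ) k)
      rw [hpC]
      push_cast
      refine h1.trans (h2.trans (le_of_eq ?_))
      ring
    · left
      intro i _ hi0 hi1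
      have : (1 : ℝ) ≤ v i := by
        have : 1 ≤ v i := Nat.one_le_iff_ne_zero.2 hi0
        exact_mod_cast this
      linarith
    · refine le_trans ?_ hvX
      exact sum_le_sum_of_subset_of_nonneg (filter_subset _ _) fun _ _ _ => sq_nonneg _

/-- chains: the sum of the squares -/
theorem chain_sq {n d m : ℕ} {w : Fin n → ℕ} {p : Fin n} {A : Finset (Fin n)} {E : ℕ → ℕ}
    (hE : Antitone E) (hA : ∀ i ∈ A, w i ≤ m) (h0 : w p + ∑ j ∈ range m, E j ≤ d)
    (h : ∀ k < m, (k = 0 ∨ E k < E (k - 1)) →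
      ∑ i ∈ A, (w i - k) + E k * ∑ j ∈ range k, E j ≤ E k * d) :
    (w p : ℤ) ^ 2 + ∑ i ∈ A, (w i : ℤ) ^ 2 ≤ (d : ℤ) ^ 2 := by
  classical
  obtain ⟨S, hS⟩ : ∃ S : ℕ → ℤ, S = fun k => ∑ i ∈ A, ((w i - k : ℕ) : ℤ) := ⟨_, rfl⟩
  obtain ⟨F, hF⟩ : ∃ F : ℕ → ℤ, F = fun k => ∑ j ∈ range k, (E j : ℤ) := ⟨_, rfl⟩
  have hF0 : F 0 = 0 := by rw [hF]; simp
  have hFs : ∀ k, F (k + 1) = F k + E k := fun k => by rw [hF]; simp [sum_range_succ]
  have hFm : ∀ a b, a ≤ b → F a ≤ F b := fun a b hab => by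
    rw [hF]
    exact sum_le_sum_of_subset_of_nonneg (range_subset_range.2 hab) fun _ _ _ => Nat.cast_nonneg _
  have hFd : (w p : ℤ) + F m ≤ d := by
    have h9 : (w p : ℤ) + ∑ j ∈ range m, (E j : ℤ) ≤ d := by exact_mod_cast h0
    rw [hF]
    exact h9
  have hwp : (0 : ℤ) ≤ w p := Nat.cast_nonneg _
  have hFd' : ∀ s ≤ m, 0 ≤ (d : ℤ) - F s := fun s hs => by
    have := hFm s m hs
    linarith
  have hSm : S m = 0 := by
    rw [hS]
    exact sum_eq_zero fun i hi => by rw [Nat.sub_eq_zero_of_le (hA i hi)]; rfl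
  have hbr : ∀ k < m, (k = 0 ∨ E k < E (k - 1)) → S k ≤ E k * (d - F k) := by
    intro k hk hk'
    have h1 := h k hk hk'
    have h2 : S k + E k * F k ≤ E k * d := by
      rw [hS, hF]
      simp only
      exact_mod_cast h1
    linarith
  have hdiff : ∀ a b, a ≤ b → S b - S (b + 1) ≤ S a - S (a + 1) := by
    intro a b hab
    rw [hS]
    simp only
    rw [← sum_sub_distrib, ← sum_sub_distrib]
    refine sum_le_sum fun i _ => ?_
    omega
  have key : ∀ s < m, S s ≤ E s * (d - F s) := by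
    by_contra hcon
    push Not at hcon
    have hex : ∃ s, s < m ∧ E s * (d - F s) < S s := hcon
    obtain ⟨s0, hs0⟩ : ∃ s0, s0 = Nat.find hex := ⟨_, rfl⟩
    have hsp := Nat.find_spec hex
    rw [← hs0] at hsp
    obtain ⟨hm0, hlt0⟩ := hsp
    have hmin : ∀ s < s0, s < m → S s ≤ E s * (d - F s) := by
      intro s hs hsm
      by_contra hc
      push Not at hc
      exact Nat.find_min hex (hs0 ▸ hs) ⟨hsm, hc⟩
    have hnb : ¬ (s0 = 0 ∨ E s0 < E (s0 - 1)) := fun hb => by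
      have := hbr s0 hm0 hb
      linarith
    push Not at hnb
    obtain ⟨hs1, hs2⟩ := hnb
    obtain ⟨r, rfl⟩ : ∃ r, s0 = r + 1 := ⟨s0 - 1, by omega⟩
    rw [Nat.add_sub_cancel] at hs2
    have hEe : E (r + 1) = E r := le_antisymm (hE (Nat.le_succ r)) hs2
    have h1 := hmin r (Nat.lt_succ_self r) (by omega)
    have h2 : S r - S (r + 1) < (E r : ℤ) * E r := by
      rw [hFs, hEe] at hlt0
      nlinarith
    have h3 : ∀ s, r + 1 ≤ s → s ≤ m → (E r : ℤ) * (d - F s) < S s ∧ (s < m → E s = E r) := by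
      intro s hs
      induction s, hs using Nat.le_induction with
      | base =>
        intro _
        refine ⟨?_, fun _ => hEe⟩
        rw [← hEe]
        exact hlt0
      | succ s hs ih =>
        intro hsm
        obtain ⟨h4, h5⟩ := ih (by omega)
        have h6 := h5 (by omega)
        have h7 := hdiff r s (by omega)
        have h8 : (E r : ℤ) * (d - F (s + 1)) < S (s + 1) := by
          rw [hFs, h6]
          nlinarith
        refine ⟨h8, fun hlt => ?_⟩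
        by_contra hne
        have h9 : E (s + 1) ≤ E s := hE (Nat.le_succ s)
        have h10 : E (s + 1) < E s := by
          rw [h6]
          rw [h6] at h9
          exact lt_of_le_of_ne h9 hne
        have h11 := hbr (s + 1) hlt (Or.inr (by rw [Nat.add_sub_cancel]; exact h10))
        have h12 : (E (s + 1) : ℤ) * (d - F (s + 1)) ≤ E r * (d - F (s + 1)) := by
          refine mul_le_mul_of_nonneg_right ?_ (hFd' (s + 1) hsm)
          rw [← h6]
          exact_mod_cast h9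
        linarith
    have h4 := (h3 m (by omega) le_rfl).1
    rw [hSm] at h4
    have h5 : 0 ≤ (E r : ℤ) * (d - F m) := mul_nonneg (Nat.cast_nonneg _) (hFd' m le_rfl)
    linarith
  have key2 : ∀ s < m, S (s + 1) ≤ E s * (d - F (s + 1)) := by
    intro s hs
    rcases Nat.lt_or_ge (s + 1) m with h1 | h1
    · refine (key (s + 1) h1).trans ?_
      refine mul_le_mul_of_nonneg_right ?_ (hFd' _ h1.le)
      exact_mod_cast hE (Nat.le_succ s)
    · have h2 : s + 1 = m := by omega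
      rw [h2, hSm]
      exact mul_nonneg (Nat.cast_nonneg _) (hFd' m le_rfl)
  have hsum : ∀ r ≤ m, ∑ i ∈ A, ((w i : ℤ) ^ 2 - ((w i - r : ℕ) : ℤ) ^ 2) ≤
      (d : ℤ) ^ 2 - (d - F r) ^ 2 := by
    intro r
    induction r with
    | zero =>
      intro _
      rw [hF0]
      simp
    | succ r ih =>
      intro hr
      have h1 := ih (by omega)
      have h2 := key r (by omega)
      have h3 := key2 r (by omega)
      have h4 : ∑ i ∈ A, ((w i : ℤ) ^ 2 - ((w i - (r + 1) : ℕ) : ℤ) ^ 2) =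
          ∑ i ∈ A, ((w i : ℤ) ^ 2 - ((w i - r : ℕ) : ℤ) ^ 2) + (S r + S (r + 1)) := by
        rw [hS]
        simp only
        rw [← sum_add_distrib, ← sum_add_distrib]
        refine sum_congr rfl fun i _ => ?_
        rcases Nat.lt_or_ge r (w i) with h5 | h5
        · obtain ⟨x, hx⟩ : ∃ x, w i = r + 1 + x := ⟨w i - (r + 1), by omega⟩
          rw [hx, show r + 1 + x - (r + 1) = x by omega, show r + 1 + x - r = x + 1 by omega]
          push_cast
          ring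
        · rw [Nat.sub_eq_zero_of_le h5, Nat.sub_eq_zero_of_le (by omega : w i ≤ r + 1)]
          push_cast
          ring
      rw [h4]
      have h5 : (d : ℤ) ^ 2 - (d - F (r + 1)) ^ 2 = (d : ℤ) ^ 2 - (d - F r) ^ 2 +
          (E r * (d - F r) + E r * (d - F (r + 1))) := by
        rw [hFs]
        ring
      rw [h5]
      linarith
  have h1 := hsum m le_rfl
  have h2 : ∑ i ∈ A, ((w i : ℤ) ^ 2 - ((w i - m : ℕ) : ℤ) ^ 2) = ∑ i ∈ A, (w i : ℤ) ^ 2 := by
    refine sum_congr rfl fun i hi => ?_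
    rw [Nat.sub_eq_zero_of_le (hA i hi)]
    push_cast
    ring
  rw [h2] at h1
  have h3 : (w p : ℤ) ^ 2 ≤ (d - F m) ^ 2 := pow_le_pow_left₀ hwp (by linarith) 2
  linarith

/-- chains: the volume -/
theorem chain_vol {n t d : ℕ} {w : Fin n → ℕ} {p : Fin n} {A : Finset (Fin n)}
    (h : ChainCore t d w p A) : ∃ e : ℕ, 1 ≤ e ∧ 2 ^ 27 * t * e ≤ d ∧
      2 ^ 27 * (t : ℝ) * e * d ≤ (d : ℝ) ^ 2 - ∑ i ∈ insert p A, (w i : ℝ) ^ 2 ∧
      ∑ i ∈ insert p A, (w i : ℝ) ≤ (1 + e) * d := by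
  classical
  obtain ⟨hp, E, m, hE, hE1, hA, h1, h2⟩ := h
  have hd : 2 ^ 27 * t * E 0 ≤ d := le_trans (Nat.le_add_left _ _) h1
  refine ⟨E 0, hE1 0, hd, ?_, ?_⟩
  · obtain ⟨d', hd'⟩ : ∃ d', d' = d - 2 ^ 27 * t * E 0 := ⟨_, rfl⟩
    have hdd : d = d' + 2 ^ 27 * t * E 0 := by omega
    have h3 := chain_sq (n := n) (d := d') (m := m) (w := w) (p := p) (A := A) (E := E) hE hA
      (by omega) (fun k hk hk' => by
        have h4 := h2 k hk hk'
        have h5 : E k * d = E k * d' + 2 ^ 27 * t * E 0 * E k := by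
          rw [hdd]
          ring
        have h6 : 2 ^ 31 * t * E k *
            (E 0 + E k * (A.filter fun i => k < w i ∧ w i ≤ k + 2 ^ 26 * t).card) ≥
            2 ^ 27 * t * E 0 * E k := by
          calc 2 ^ 27 * t * E 0 * E k = 2 ^ 27 * (t * E k * E 0) := by ring
            _ ≤ 2 ^ 31 * (t * E k * E 0) := Nat.mul_le_mul_right _ (by norm_num)
            _ = 2 ^ 31 * t * E k * E 0 := by ring
            _ ≤ _ := Nat.mul_le_mul_left _ (Nat.le_add_right _ _)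
        rw [h5] at h4
        linarith)
    have h4 : (w p : ℝ) ^ 2 + ∑ i ∈ A, (w i : ℝ) ^ 2 ≤ (d' : ℝ) ^ 2 := by exact_mod_cast h3
    rw [sum_insert hp]
    have h5 : (d' : ℝ) = d - 2 ^ 27 * t * E 0 := by
      rw [hdd]
      push_cast
      ring
    have h6 : (0 : ℝ) ≤ 2 ^ 27 * t * E 0 := by positivity
    have h7 : (0 : ℝ) ≤ d' := Nat.cast_nonneg _
    have h8 : (2 : ℝ) ^ 27 * t * E 0 = d - d' := by rw [h5]; ring
    rw [h8] at h6 ⊢
    nlinarith
  · rw [sum_insert hp]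
    have h3 : w p ≤ d := by omega
    have h4 : ∑ i ∈ A, w i ≤ E 0 * d := by
      rcases Nat.eq_zero_or_pos m with hm | hm
      · refine le_trans (le_of_eq (sum_eq_zero fun i hi => ?_)) (Nat.zero_le _)
        have := hA i hi
        omega
      · have h5 := h2 0 hm (Or.inl rfl)
        simp only [Nat.sub_zero] at h5
        exact le_trans (le_trans (Nat.le_add_right _ _) (Nat.le_add_right _ _)) h5
    have h5 : (w p : ℝ) ≤ d := by exact_mod_cast h3
    have h6 : ∑ i ∈ A, (w i : ℝ) ≤ E 0 * d := by exact_mod_cast h4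
    linarith

theorem sum_div (E : ℕ → ℕ) {k : ℕ} (hk : 1 ≤ k) (m : ℕ) :
    ∑ j ∈ range (k * m), E (j / k) = k * ∑ j ∈ range m, E j := by
  induction m with
  | zero => simp
  | succ m ih =>
    rw [Nat.mul_succ, sum_range_add, ih, sum_range_succ, Nat.mul_add]
    congr 1
    rw [sum_congr rfl fun x hx => ?_, sum_const, card_range, smul_eq_mul]
    rw [mem_range] at hx
    congr 1
    rw [Nat.mul_add_div (by omega), Nat.div_eq_of_lt hx, add_zero]

/-- chains: scaling -/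
theorem ChainCore.scale {n t d : ℕ} {w v : Fin n → ℕ} {p : Fin n} {A : Finset (Fin n)}
    (h : ChainCore t d w p A) {k : ℕ} (hk : 1 ≤ k) (hv : ∀ i ∈ insert p A, v i = k * w i) :
    ChainCore (k * t) (k * d) v p A := by
  classical
  obtain ⟨hp, E, m, hE, hE1, hA, h1, h2⟩ := h
  have hvp := hv p (mem_insert_self _ _)
  have hvA : ∀ i ∈ A, v i = k * w i := fun i hi => hv i (mem_insert_of_mem hi)
  refine ⟨hp, fun j => E (j / k), k * m, ?_, fun j => hE1 _, ?_, ?_, ?_⟩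
  · intro a b hab
    exact hE (Nat.div_le_div_right hab)
  · intro i hi
    rw [hvA i hi]
    exact Nat.mul_le_mul_left _ (hA i hi)
  · rw [hvp, sum_div E hk]
    simp only [Nat.zero_div]
    calc k * w p + k * ∑ j ∈ range m, E j + 2 ^ 27 * (k * t) * E 0
        = k * (w p + ∑ j ∈ range m, E j + 2 ^ 27 * t * E 0) := by ring
      _ ≤ k * d := Nat.mul_le_mul_left _ h1
  · intro j hj hj'
    simp only at hj' ⊢
    have hjk : k ∣ j ∧ (j / k = 0 ∨ E (j / k) < E (j / k - 1)) := by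
      rcases hj' with hj' | hj'
      · rw [hj']
        exact ⟨dvd_zero _, Or.inl (Nat.zero_div _)⟩
      · by_cases hdv : k ∣ j
        · refine ⟨hdv, ?_⟩
          obtain ⟨r, rfl⟩ := hdv
          rw [Nat.mul_div_cancel_left _ (by omega)] at hj' ⊢
          rcases Nat.eq_zero_or_pos r with hr | hr
          · exact Or.inl hr
          · right
            have h3 : (k * r - 1) / k = r - 1 := by
              obtain ⟨r', rfl⟩ : ∃ r', r = r' + 1 := ⟨r - 1, by omega⟩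
              rw [Nat.add_sub_cancel, Nat.mul_succ, Nat.add_sub_assoc hk,
                Nat.mul_add_div (by omega), Nat.div_eq_of_lt (by omega), add_zero]
            rw [h3] at hj'
            exact hj'
        · exfalso
          have h3 : (j - 1) / k = j / k := by
            have h4 : 0 < j % k := by
              rw [Nat.pos_iff_ne_zero]
              exact fun h5 => hdv (Nat.dvd_of_mod_eq_zero h5)
            have h5 := Nat.div_add_mod j k
            have h6 := Nat.mod_lt j (by omega : 0 < k)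
            have h7 : j - 1 = k * (j / k) + (j % k - 1) := by omega
            rw [h7, Nat.mul_add_div (by omega), Nat.div_eq_of_lt (show j % k - 1 < k by omega), add_zero]
          rw [h3] at hj'
          exact lt_irrefl _ hj'
    obtain ⟨⟨r, rfl⟩, hr⟩ := hjk
    rw [Nat.mul_div_cancel_left _ (by omega)] at hr ⊢
    have hrm : r < m := Nat.lt_of_mul_lt_mul_left hj
    have h3 := h2 r hrm hr
    rw [sum_div E hk, Nat.zero_div]
    have h4 : ∑ i ∈ A, (v i - k * r) = k * ∑ i ∈ A, (w i - r) := by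
      rw [mul_sum]
      refine sum_congr rfl fun i hi => ?_
      rw [hvA i hi, Nat.mul_sub]
    have h5 : (A.filter fun i => k * r < v i ∧ v i ≤ k * r + 2 ^ 26 * (k * t)) =
        A.filter fun i => r < w i ∧ w i ≤ r + 2 ^ 26 * t := by
      refine filter_congr fun i hi => ?_
      rw [hvA i hi, show k * r + 2 ^ 26 * (k * t) = k * (r + 2 ^ 26 * t) by ring]
      rw [Nat.mul_lt_mul_left (by omega), Nat.mul_le_mul_left_iff (by omega)]
    rw [h4, h5]
    calc k * ∑ i ∈ A, (w i - r) + E r * (k * ∑ j ∈ range r, E j) + 2 ^ 31 * (k * t) * E r *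
          (E 0 + E r * (A.filter fun i => r < w i ∧ w i ≤ r + 2 ^ 26 * t).card)
        = k * (∑ i ∈ A, (w i - r) + E r * ∑ j ∈ range r, E j + 2 ^ 31 * t * E r *
          (E 0 + E r * (A.filter fun i => r < w i ∧ w i ≤ r + 2 ^ 26 * t).card)) := by ring
      _ ≤ k * (E r * d) := Nat.mul_le_mul_left _ h3
      _ = E r * (k * d) := by ring

/-- Chains: too many conditions at the other points. -/
theorem mainCh_above (ε : ℝ) (hε : 0 < ε) : ∃ c : ℝ, 0 < c ∧ ∀ {n d t : ℕ} (w : Fin n → ℕ)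
    (p : Fin n) (A : Finset (Fin n)), 1 ≤ t → ChainCore t d w p A →
    (∀ i, i ∉ insert p A → (w i : ℝ) ≤ c * t) →
    (1 + ε) * XA w (insert p A) d ≤ ∑ i ∈ univ \ insert p A, (w i : ℝ) ^ 2 → GenExp d w := by
  classical
  obtain ⟨ε', hε'0, hε'1, hε'2⟩ : ∃ ε' : ℝ, 0 < ε' ∧ ε' ≤ 1 ∧ ε' ≤ ε :=
    ⟨min ε 1, lt_min hε one_pos, min_le_right _ _, min_le_left _ _⟩
  obtain ⟨c1, hc1, H⟩ := mainCh_all (ε' / 2 / 8) (by linarith)
  refine ⟨min c1 ε', lt_min hc1 hε'0, fun {n d t} w p A ht hcc hw hS => ?_⟩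
  obtain ⟨e, he, h1, h2, h3⟩ := chain_vol hcc
  obtain ⟨V, hV⟩ : ∃ V : ℝ, V = (d : ℝ) ^ 2 - ∑ i ∈ insert p A, (w i : ℝ) ^ 2 := ⟨_, rfl⟩
  rw [← hV] at h2
  have htR : (1 : ℝ) ≤ t := by exact_mod_cast ht
  have heR : (1 : ℝ) ≤ e := by exact_mod_cast he
  have hd1 : (1 : ℝ) ≤ d := by
    have h4 : 1 ≤ 2 ^ 27 * t * e := Nat.mul_pos (Nat.mul_pos (by norm_num) ht) he
    have h5 : 1 ≤ d := h4.trans h1
    exact_mod_cast h5
  have hed : 0 < (e : ℝ) * d := by positivity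
  have hted : (e : ℝ) * d ≤ t * (e * d) := le_mul_of_one_le_left hed.le htR
  have hV1 : 2 ^ 27 * ((t : ℝ) * (e * d)) ≤ V := by
    have : 2 ^ 27 * ((t : ℝ) * (e * d)) = 2 ^ 27 * (t : ℝ) * e * d := by ring
    rw [this]
    exact h2
  have hV0 : 0 < V := by linarith
  have hXV : XA w (insert p A) d = V + 3 * d + 2 - ∑ i ∈ insert p A, (w i : ℝ) := by
    unfold XA
    rw [hV]
    have h4 : ∑ i ∈ insert p A, (w i : ℝ) * (w i + 1) = ∑ i ∈ insert p A, (w i : ℝ) ^ 2 +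
        ∑ i ∈ insert p A, (w i : ℝ) := by
      rw [← sum_add_distrib]
      refine sum_congr rfl fun i _ => ?_
      ring
    rw [h4]
    ring
  have hX1 : V - e * d ≤ XA w (insert p A) d := by
    rw [hXV]
    linarith
  have hX0 : 0 < XA w (insert p A) d := by linarith
  have hex : ∃ i, i ∉ insert p A ∧ 1 ≤ w i := by
    by_contra hcon
    push Not at hcon
    have h4 : ∑ i ∈ univ \ insert p A, (w i : ℝ) ^ 2 = 0 := by
      refine sum_eq_zero fun i hi => ?_
      have h5 := hcon i (mem_sdiff.1 hi).2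
      have h6 : w i = 0 := by omega
      rw [h6]
      norm_num
    rw [h4] at hS
    have h5 : 0 < (1 + ε) * XA w (insert p A) d := by positivity
    linarith
  obtain ⟨i0, hi0, hi1⟩ := hex
  have hct : 1 ≤ ε' * t := by
    have h4 : (1 : ℝ) ≤ w i0 := by exact_mod_cast hi1
    have h5 := hw i0 hi0
    have h6 : min c1 ε' * (t : ℝ) ≤ ε' * t :=
      mul_le_mul_of_nonneg_right (min_le_right _ _) (by linarith)
    linarith
  have hedV : (e : ℝ) * d ≤ ε' / 4 * V := by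
    have h4 : (e : ℝ) * d ≤ ε' * t * (e * d) := le_mul_of_one_le_left hed.le hct
    have h5 : ε' * (2 ^ 27 * ((t : ℝ) * (e * d))) ≤ ε' * V := mul_le_mul_of_nonneg_left hV1 hε'0.le
    have h6 : 0 ≤ ε' * t * (e * d) := by positivity
    have h7 : ε' * (2 ^ 27 * ((t : ℝ) * (e * d))) = 2 ^ 27 * (ε' * t * (e * d)) := by ring
    rw [h7] at h5
    linarith
  have hS1 : (1 + ε' / 2) * V ≤ ∑ i ∈ univ \ insert p A, (w i : ℝ) ^ 2 := by
    refine le_trans ?_ hS
    have h4 : (1 - ε' / 4) * V ≤ XA w (insert p A) d := by linarith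
    have h5 : (1 + ε') * ((1 - ε' / 4) * V) ≤ (1 + ε) * XA w (insert p A) d :=
      mul_le_mul (by linarith) h4 (mul_nonneg (by linarith) hV0.le) (by linarith)
    refine le_trans ?_ h5
    have h6 : 0 ≤ ε' * V * (1 - ε') := mul_nonneg (by positivity) (by linarith)
    nlinarith
  refine @beyond n d w (insert p A) (ε' / 2) V (by linarith) (by linarith) hV hV0 hS1 ?_ ?_
  · refine le_trans (le_trans ?_ hS) (sum_le_sum fun i _ => ?_)
    · nlinarith
    · have : (0 : ℝ) ≤ w i := Nat.cast_nonneg _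
      nlinarith
  · intro k v hk hvC hvS hvX
    obtain ⟨a1, E, m, a2, a3, a4, a5, a6⟩ := hcc.scale hk hvC
    refine @H n (k * d) (k * t) m 0 v p A E a1 (Nat.mul_pos hk ht) a2 a3 a4 a5 a6 (fun i hi => ?_)
      ?_ (Or.inl ?_)
    · have h4 : (v i : ℝ) ≤ k * w i := by exact_mod_cast hvS i hi
      have h5 := mul_le_mul_of_nonneg_left (hw i hi) (Nat.cast_nonneg (α := ℝ) k)
      have h6 : min c1 ε' * (t : ℝ) ≤ c1 * t :=
        mul_le_mul_of_nonneg_right (min_le_left _ _) (by linarith)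
      have h7 := mul_le_mul_of_nonneg_left h6 (Nat.cast_nonneg (α := ℝ) k)
      push_cast
      refine h4.trans (h5.trans (h7.trans (le_of_eq ?_)))
      ring
    · left
      intro i _ hi0 hi1
      have : (1 : ℝ) ≤ v i := by
        have : 1 ≤ v i := Nat.one_le_iff_ne_zero.2 hi0
        exact_mod_cast this
      linarith
    · refine le_trans ?_ hvX
      exact sum_le_sum_of_subset_of_nonneg (filter_subset _ _) fun _ _ _ => sq_nonneg _

end Pool.Agent.H200M
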