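import Pool.Agent.H200M.Def

/-! # Project MC: statements of the lemmas, with their proofs. Part 1: right triangles.

All lemmas of the projects WR, PK and CH are available: `Pool.Agent.H200W.p_...` (H200W/All.lean),
`Pool.Agent.H200P.p_...` (H200P/All.lean, imported here), and `divKS`, `divKE`, `GoodSK.mono`, `GoodS.toK`, ...
in H200P/Base.lean. The lemmas below are the analogues, for right triangles `RO b ρ`, of the lemmas PK4 - PK8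
(statements in H200P/Stm.lean, proofs in Pool/Agent/Q162/PK, Q195/PK, Q211/PK, Q285/PK). -/

set_option autoImplicit false

namespace Pool.Agent.H200M

open Finset Pool.Agent.TH176.Nag Pool.Agent.TH603.Sur Pool.Agent.TH2.NU Pool.Agent.TH641.UM
open Pool.Agent.Y205.FW Pool.Agent.Y205.MD Pool.Agent.H200W Pool.Agent.H200P Pool.Agent.H200C
open Pool.Agent.H200G

/-- MC1. A box with two points, the thickness `w` in the second coordinate. -/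
def BoxT : Prop := ∀ {h u G w b : ℝ} {M M' : ℕ}, 1 ≤ h → 5 * h ≤ G → 0 ≤ u → u ≤ G ^ 2 → G ≤ b →
  (M : ℝ) + 2 ≤ b → (M' : ℝ) + 2 ≤ b → (M : ℝ) + 2 + 13 * G ≤ w → (M' : ℝ) + 2 + 13 * G ≤ w →
  GoodSK {M, M'} h u (BO b w) (2 * w * b - ((M : ℝ) + 1) ^ 2 - ((M' : ℝ) + 1) ^ 2 - 6 * b) ∧
  GoodEK {M, M'} h u (BC b w) (2 * w * b - (M : ℝ) ^ 2 - (M' : ℝ) ^ 2)

/-- MC1. Proof. `p_boxS`, `p_boxE` (H200P/All.lean) for `BO w b`, `BC w b`, and `Sur.comap`, `Emp.comap` with the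
swap of the coordinates (as in `S_RowS`, proved in Pool/Agent/Q24/WR/Flat.lean): `SurM M (BO w b)` implies
`SurM M (BO b w)`; `GoodSK.mono`. -/
def S_BoxT : Prop := BoxT

/-- MC2. A slab (right trapezoid) with boxes, independence. -/
def SlabRS : Prop := ∀ {h u G ρ : ℝ}, 1 ≤ h → 5 * h ≤ G → 0 ≤ u → u ≤ G ^ 2 → 0 ≤ ρ →
  ∀ (B : List (ℕ × ℕ)) (w b : ℝ), 15 * G ≤ w →
    (∀ p ∈ B, (p.1 : ℝ) + 2 + 13 * G ≤ w ∧ (p.2 : ℝ) + 2 + 13 * G ≤ w) →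
    ρ * w + w + 1 + (B.map (ht G)).sum ≤ b →
    GoodSK (pm B) h u (TO b ρ w) ((2 * b - ρ * w) * w - sq1 B - 6 * b)

/-- MC2. Proof (compare `S_SlabS` in H200P/Stm.lean, proved in Pool/Agent/Q162/PK). Induction on `B`
(generalising `b`). `B = []`: `p_fatS` (H200W/All.lean) with `s = ρ`, `H = w`, `B = b`, as `GoodSK 0` (`GoodS.toK`);
`2 w ≤ 6 b`. `B = (M, M') :: B'`: put `β = max M M' + 2 + G`, so `ht G (M, M') = β + G`; `divKS` with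
`t ∈ [β, β + G]`, `S1 t = BO t w` (MC1), which is contained in `TO b ρ w` as `t + ρ w ≤ b`,
`S2 t = {p | t < p.1} ∩ TO b ρ w`, which contains the translate of `TO (b - t) ρ w` by `(⌊t⌋, 0)`, and the
induction hypothesis for `b - t`. `α1 t = 2 w t - (M + 1) ^ 2 - (M' + 1) ^ 2 - 6 t`,
`α2 t = (2 (b - t) - ρ w) w - sq1 B' - 6 (b - t)`, with sum exactly `(2 b - ρ w) w - sq1 B - 6 b`. `α1 β ≥ 0`:
`w ≥ m + 2 + 13 G`, `m = max M M'`, so `(2 w - 6) β ≥ 2 (m + 1) ^ 2`. `α1 (β + G) - α1 β = G (2 w - 6) ≥ G ^ 2 ≥ u`.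
The cut is `x = t` (`p_cutS` with `β = 0`). -/
def S_SlabRS : Prop := BoxT → SlabRS

/-- MC2E. A slab with boxes, emptiness. -/
def SlabRE : Prop := ∀ {h u G ρ : ℝ}, 1 ≤ h → 5 * h ≤ G → 0 ≤ u → u ≤ G ^ 2 → 0 ≤ ρ →
  ∀ (B : List (ℕ × ℕ)) (w b : ℝ), 15 * G ≤ w →
    (∀ p ∈ B, (p.1 : ℝ) + 2 + 13 * G ≤ w ∧ (p.2 : ℝ) + 2 + 13 * G ≤ w) →
    ρ * w + w + 1 + (B.map (ht G)).sum ≤ b →
    GoodEK (pm B) h u (TC b ρ w) ((2 * b - ρ * w) * w - sq0 B)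

/-- MC2E. Proof. As MC2 with `divKE`, `p_fatE`; `S1 t = BC t w`, `S2 t = {p | t < p.1} ∩ TC b ρ w` is contained
in the translate of `TC (b - t) ρ w` by `(⌊t⌋ + 1, 0)`. `α1 t = 2 w t - M ^ 2 - M' ^ 2`,
`α2 t = (2 (b - t) - ρ w) w - sq0 B' ≥ 0`, since `2 (b - t) - ρ w ≥ 2 ∑ (ht G)` over `B'` and
`2 w ht G (N, N') ≥ N ^ 2 + N' ^ 2`. -/
def S_SlabRE : Prop := BoxT → SlabRE

/-- MC3. Elementary properties of `FitR`. -/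
def FitP : Prop := ∀ {G ρ : ℝ}, 0 < G → 2 ≤ ρ → ∀ (L : List (ℝ × List (ℕ × ℕ))) (b b' : ℝ),
  FitR G ρ b L → (b ≤ b' → FitR G ρ b' L) ∧ 16 * G * ρ * L.length ≤ b ∧ sqT0 L ≤ b ^ 2 / ρ ∧
    14 * G ≤ b

/-- MC3. Proof (compare `S_FitT` in H200P/Stm.lean, proved in Pool/Agent/Q211/PK). Induction on `L`. Area:
with `w = W + G`, `b ^ 2 / ρ = (2 b - ρ w) w + (b - ρ w) ^ 2 / ρ` and
`(2 b - ρ w) w ≥ 2 (b - ρ w) w ≥ 2 w ∑ (ht G) ≥ sq0 B`, since `w ≥ m`, `ht G ≥ m` for `m = max M M'`. -/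
def S_FitP : Prop := FitP

/-- MC4. A right triangle with slabs, independence. -/
def TriRS : Prop := ∀ {h u G ρ : ℝ}, 1 ≤ h → 5 * h ≤ G → 0 ≤ u → u ≤ G ^ 2 → 2 ≤ ρ → ρ ≤ 7 →
  ∀ (L : List (ℝ × List (ℕ × ℕ))) (b : ℝ), FitR G ρ b L →
    GoodSK (pmT L) h u (RO b ρ) (b ^ 2 / ρ - sqT1 L - (6 * L.length + 1) * b)

/-- MC4. Proof (compare `S_TriS` in H200P/Stm.lean, proved in Pool/Agent/Q162/PK). Induction on `L`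
(generalising `b`). `L = []`: `p_rtS`, `28 h < 2 b - 1`. `L = (W, B) :: L'`: `divKS` with `t ∈ [W, W + G]`,
`S1 t = TO b ρ t` (MC2 with `w = t`), `S2 t = {p | t < p.2} ∩ RO b ρ`, which contains the translate of
`RO (b - ρ t) ρ` by `(0, ⌊t⌋)`; the induction hypothesis for `b - ρ t ≥ b - ρ (W + G)` (MC3). Cut `y = t`.
`α1 t = (2 b - ρ t) t - sq1 B - 6 b`, `α2 t = (b - ρ t) ^ 2 / ρ - sqT1 L' - (6 |L'| + 1) (b - ρ t)`; the sum is at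
least `b ^ 2 / ρ - sqT1 L - (6 |L| + 1) b`. `α1 W ≥ 0`: let `E = b - ρ W - ∑ (ht G) ≥ W`; then
`(2 b - ρ W) W - sq1 B = 2 E W + ρ W ^ 2 + ∑ (2 W ht - (M + 1) ^ 2 - (M' + 1) ^ 2)`, each term of the sum is at least
`6 ht` (`W ≥ m + 2 + 13 G`, `ht = m + 2 + 2 G`, `G ≥ 5`), and `2 E W + ρ W ^ 2 ≥ 6 E + 6 ρ W`.
`α1 (W + G) - α1 W = G (2 b - 2 ρ W - ρ G) ≥ G ^ 2 ≥ u`. -/
def S_TriRS : Prop := SlabRS → FitP → TriRS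

/-- MC4E. A right triangle with slabs, emptiness. -/
def TriRE : Prop := ∀ {h u G ρ : ℝ}, 1 ≤ h → 5 * h ≤ G → 0 ≤ u → u ≤ G ^ 2 → 2 ≤ ρ → ρ ≤ 7 →
  ∀ (L : List (ℝ × List (ℕ × ℕ))) (b : ℝ), FitR G ρ b L →
    GoodEK (pmT L) h u (RC b ρ) (b ^ 2 / ρ - sqT0 L)

/-- MC4E. Proof. As MC4 with `divKE`, `p_rtE`; `S1 t = TC b ρ t`, `S2 t = {p | t < p.2} ∩ RC b ρ` is contained in
the translate of `RC (b - ρ t) ρ` by `(0, ⌊t⌋ + 1)`. `α1 t = (2 b - ρ t) t - sq0 B`,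
`α2 t = (b - ρ t) ^ 2 / ρ - sqT0 L' ≥ 0` (MC3 for `b - ρ t`), with sum `b ^ 2 / ρ - sqT0 L`. -/
def S_TriRE : Prop := SlabRE → FitP → TriRE

/-- MC5. Filling slabs greedily. -/
def GreedyR : Prop := ∀ {G ρ b0 D0 : ℝ}, 1 ≤ G → 2 ≤ ρ → ρ ≤ 7 → ∀ (P : List (ℕ × ℕ)) (β b : ℝ),
  14 * G ≤ b → b ≤ D0 → 0 ≤ β → β ≤ b0 → (P.Pairwise fun p q => max q.1 q.2 ≤ max p.1 p.2) →
  (∀ p ∈ P, (max p.1 p.2 : ℕ) + 16 * G ≤ β) →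
  2 * (P.map fun p => (((max p.1 p.2 : ℕ) : ℝ) + 16 * G) ^ 2).sum + 2 * β * D0 +
    (4 * b0 + 1) * b ≤ b ^ 2 / ρ →
  ∃ L : List (ℝ × List (ℕ × ℕ)), FitR G ρ b L ∧ (L.map Prod.snd).flatten = P

/-- MC5. Proof (compare `S_Greedy` in H200P/Stm.lean, proved in Pool/Agent/Q195/PK). Strong induction on
`P.length`; `β p = max p.1 p.2 + 16 G`. `P = []`: `L = []`. Otherwise let `w = β (head)`, `w ≤ β`, and let `j` be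
maximal with `ρ w + w + 1 + ∑_{i < j} β_i ≤ b`; `b ≥ ρ (4 b0 + 1)` by the inequality (`b > 0`), so `j ≥ 1`. The
first slab is `(w - G, P.take j)`: `w - G = max + 15 G ≥ 15 G`, `p.i + 2 + 13 G ≤ w - G`, `ht G p ≤ β p`. If `j` is
the length of `P` the rest is `[]`, `b - ρ w ≥ 3 ρ b0 ≥ 14 G`. Otherwise let `β'` be the `β` of the entry number
`j` (the first one which is left), `b' = b - ρ w`, `P' = P.drop j`. By maximality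
`∑_{i < j} β_i > b - ρ w - w - 1 - β'`, so `2 ∑_{i < j} β_i ^ 2 ≥ 2 β' (b - ρ w - w - 1 - β')`, and
`b' ^ 2 / ρ = b ^ 2 / ρ - 2 w b + ρ w ^ 2
≥ 2 ∑_{P'} β ^ 2 + 2 β' (b - ρ w - w - 1 - β') + 2 w D0 + (4 b0 + 1) b - 2 w b + ρ w ^ 2
≥ 2 ∑_{P'} β ^ 2 + 2 β' D0 + (4 b0 + 1) b'`: the difference of the last two is
`2 (w - β') (D0 - b) + (4 b0 + 1) ρ w + ρ w ^ 2 - 2 β' (ρ w + w + 1 + β')`, where `β' ≤ w ≤ b0` and `ρ ≥ 2`. -/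
def S_GreedyR : Prop := GreedyR

/-- MC6. Packing into a right triangle. -/
def PackR : Prop := ∀ {G ρ b : ℝ} {m1 : ℕ} (K : Multiset ℕ), 1 ≤ G → 2 ≤ ρ → ρ ≤ 7 → 14 * G ≤ b →
  (∀ m ∈ K, m ≤ m1) →
  qG G K + ((m1 : ℝ) + 16 * G) ^ 2 + (6 * ((m1 : ℝ) + 16 * G) + 1) * b ≤ b ^ 2 / ρ →
  ∃ L : List (ℝ × List (ℕ × ℕ)), FitR G ρ b L ∧ (pmT L = K ∨ pmT L = K + {0})

/-- MC6. Proof (compare `S_Pack` in H200P/Stm.lean, proved in Pool/Agent/Q195/PK). Sort `K` decreasingly and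
form pairs `P` of consecutive elements, with `0` at the end if the number is odd; with `β_i = m_{2 i - 1} + 16 G`
one has `2 ∑ β_i ^ 2 ≤ qG G K + β_1 ^ 2`, `β_1 ≤ m1 + 16 G`. MC5 with `D0 = b`, `β = b0 = m1 + 16 G`. -/
def S_PackR : Prop := GreedyR → PackR

/-- MC7. An item from middle multiplicities `K` and small items `L` of height `h0`. -/
def ItemR : Prop := ∀ {h0 h G : ℝ} {m1 : ℕ} (K : Multiset ℕ) (L : List (Multiset ℕ × ℝ × ℝ)), 1 ≤ h0 →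
  32 * h0 ≤ G → 1000 * ((m1 : ℝ) + 16 * G) ≤ h → (∀ m ∈ K, m ≤ m1) → (∀ x ∈ L, Ir h0 x) →
  qG G K + 50 * ((m1 : ℝ) + 16 * G) * h ≤ q0 K + tE L → 2 * h ^ 2 ≤ q0 K + tE L →
  q1 K + tS L + 3 * h ^ 2 / G ≤ 7 * h ^ 2 →
  UnitS h (K + tM L) (q1 K + tS L + 3 * h ^ 2 / G) ∧ UnitE h (K + tM L) (q0 K + tE L)

/-- MC7. Proof. Emptiness. Put `n = q0 K + tE L`, `2 h ^ 2 ≤ n ≤ 7 h ^ 2` (`q0 K ≤ q1 K`, `tE L ≤ tS L`), `ρ = n / h ^ 2`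
and `b = ρ h`, so `b ^ 2 / ρ = n` and `2 h ≤ b ≤ 7 h`. With `β = m1 + 16 G ≥ 512`, `1000 β ≤ h`:
`β ^ 2 + (6 β + 1) b ≤ β h / 1000 + 42 β h + 7 h ≤ 50 β h`, so MC6 gives `L1`. MC4E with `h := h0`, `u = 1024 h0 ^ 2 ≤ G ^ 2`:
`b ^ 2 / ρ - sqT0 L1 = tE L` (`sqT0 L1 = q0 K`; the element `0` contributes `0`), applied to the list of the
`(x.1, x.2.2)`; if `pmT L1 = K + {0}` use PK9 (`S_Zero`, H200P/Stm.lean, proved by `Q211.PK.zero`). So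
`EmpM (K + tM L) (RC b ρ)`; for `0 < ρ'`, `ρ' h ^ 2 ≤ n` one has `RC (ρ' h) ρ' ⊆ RC (ρ h) ρ`. Independence: the same
with `n' = q1 K + tS L + 3 h ^ 2 / G` (`n ≤ n' ≤ 7 h ^ 2`), `ρ = n' / h ^ 2`, `b = ρ h`, `L2` from MC6 and MC4:
`sqT1 L2 ≤ q1 K + 1`, `(6 |L2| + 1) b ≤ (6 h / (16 G)) 7 h + 7 h` as `16 G ρ |L2| ≤ b = ρ h` (MC3), and
`21 / 8 * h ^ 2 / G + 7 h + 1 ≤ 3 h ^ 2 / G` because `16000 G ≤ h`. For `ρ' ≥ ρ`: `RO (ρ h) ρ ⊆ RO (ρ' h) ρ'`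
(`x < ρ (h - y) ≤ ρ' (h - y)`). -/
def S_ItemR : Prop := PackR → TriRS → TriRE → FitP → ItemR

end Pool.Agent.H200M
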