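import Pool.Agent.H200M.Stm

/-! # Project MC: statements of the lemmas, with their proofs. Part 2: items and coranks. -/

set_option autoImplicit false

namespace Pool.Agent.H200M

open Finset Pool.Agent.TH176.Nag Pool.Agent.TH603.Sur Pool.Agent.TH2.NU Pool.Agent.TH641.UM
open Pool.Agent.Y205.FW Pool.Agent.Y205.MD Pool.Agent.H200W Pool.Agent.H200P Pool.Agent.H200C
open Pool.Agent.H200G

/-- MC8. Merging nonnegative and nonpositive terms of total sum `0` such that all partial sums are small. -/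
def Merge : Prop := ∀ {α : Type} (g : α → ℝ) (A B : ℝ) (P N : List α), 0 ≤ A → 0 ≤ B →
  (∀ x ∈ P, 0 ≤ g x ∧ g x ≤ A) → (∀ x ∈ N, -B ≤ g x ∧ g x ≤ 0) →
  (P.map g).sum + (N.map g).sum = 0 →
  ∃ L : List α, L.Perm (P ++ N) ∧
    ∀ L1 L2 : List α, L = L1 ++ L2 → -B ≤ (L1.map g).sum ∧ (L1.map g).sum ≤ A

/-- MC8. Proof. More generally, with a starting value `c`, `-B ≤ c ≤ A`,
`c + (P.map g).sum + (N.map g).sum = 0`, and the conclusion for `c + (L1.map g).sum`; induction on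
`P.length + N.length`. If `c ≤ 0` and `P = x :: P'` take `x` first; if `c > 0` and `N = x :: N'` take `x` first. If
`c ≤ 0` and `P = []`, then `c = 0` and all terms of `N` are `0` (nonpositive terms of nonnegative sum); if
`c > 0` and `N = []` there is a contradiction. -/
def S_Merge : Prop := Merge

/-- MC9. Items of many small heights are grouped to items of height `h`, with comparable needs. -/
def RegI : Prop := ∀ (J : Finset ℕ) (L : ℕ → List (Multiset ℕ × ℝ × ℝ)) (h : ℝ), 1 ≤ h →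
  (∀ k ∈ J, ∀ x ∈ L k, It (et k) x) → (∀ k ∈ J, 1024 * et k ^ 2 ≤ tE (L k)) →
  (∀ k ∈ J, 64 * et k ≤ h) → 2 * h ^ 2 ≤ ∑ k ∈ J, tE (L k) →
  ∃ L' : List (Multiset ℕ × ℝ × ℝ), (∀ x ∈ L', Ir h x) ∧ tM L' = ∑ k ∈ J, tM (L k) ∧
    tS L' ≤ ∑ k ∈ J, tS (L k) + 3 / 4 * (∑ k ∈ J, tE (L k)) / h ∧ tE L' = ∑ k ∈ J, tE (L k)

/-- MC9. Proof. This is `Regroup` (H200G/Stm.lean, proved in Pool/Agent/Q162/GR/Regroup.lean) with `Ir h` instead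
of `Iw h`: copy that proof. The items there are `(M, s + 3 / 2 * h, e)` with `2 h ^ 2 ≤ e ≤ 5 h ^ 2`, `e ≤ s ≤ 5 / 4 * e`,
so `s + 3 / 2 * h ≤ 4 / 3 * e` (`h ≥ 64 * 256`: `J` is not empty). -/
def S_RegI : Prop := Slab → TrU → Cutl → RegI

/-- MC10. Middle multiplicities and small items are grouped to items of height `h`. -/
def RegM : Prop := ∀ {h0 h G η : ℝ} {m1 : ℕ} (K : Multiset ℕ) (L : List (Multiset ℕ × ℝ × ℝ)), 1 ≤ h0 →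
  0 < η → η ≤ 1 → 32 * h0 ≤ G → 1000 * ((m1 : ℝ) + 16 * G) ≤ η * h → (∀ m ∈ K, m ≤ m1) →
  (∀ x ∈ L, Ir h0 x) → qG G K ≤ (1 - η) * (q0 K + tE L) → 2 * h ^ 2 ≤ q0 K + tE L →
  ∃ L' : List (Multiset ℕ × ℝ × ℝ), (∀ x ∈ L', Iw h x) ∧ tM L' = K + tM L ∧
    tS L' ≤ q1 K + tS L + 3 / 2 * (q0 K + tE L) / G ∧ tE L' = q0 K + tE L

/-- MC10. Proof. Let `β = m1 + 16 G`, `E = q0 K + tE L > 0`, `θ = qG G K / E`, `0 ≤ θ ≤ 1 - η`. Objects: `ℕ ⊕ items`;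
for `m` of `K`: `f = m ^ 2`, `a = (m + 16 G) ^ 2`; for `x` of `L`: `f = x.2.2`, `a = 0`; `g = a - θ f`. On `K`:
`0 ≤ g ≤ β ^ 2`, on `L`: `-G ^ 2 ≤ -768 h0 ^ 2 ≤ g ≤ 0`; the sum of all `g` is `0`. MC8 gives a list `Q` of all objects
(`K.toList` and `L`); `Cutl` (H200G/Stm.lean) with `f`, `T = 2 h ^ 2`, `c = β ^ 2` (`≥ G ^ 2`) cuts it into parts `l` with
`2 h ^ 2 ≤ e ≤ 4 h ^ 2 + β ^ 2`, `e = ∑_l f`. The sum of `g` over a part is the difference of two partial sums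
(`P = P1 ++ l :: P2`, `P.flatten = P1.flatten ++ l ++ P2.flatten`), so at most `β ^ 2 + G ^ 2 ≤ 2 β ^ 2`, and
`∑_l a ≤ (1 - η) e + 2 β ^ 2`. MC7 for the multiset `K_l` of the `m` and the list `L_l` of the `x` of the part:
`2 β ^ 2 + 50 β h ≤ 2 η h ^ 2 ≤ η e` as `1000 β ≤ η h`; `q1 K_l ≤ q0 K_l + ∑_l a / (16 G)` (`2 m + 1 ≤ (m + 16 G) ^ 2 / (16 G)`),
`tS L_l ≤ 4 / 3 tE L_l`, so `q1 K_l + tS L_l + 3 h ^ 2 / G ≤ (4 / 3 + 1 / 512) e + h ^ 2 / 10 ≤ 7 h ^ 2`. The item is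
`(K_l + tM L_l, q1 K_l + tS L_l + 3 h ^ 2 / G, e)`, `Iw h`. The number of parts is at most `E / (2 h ^ 2)`. Sums over
the parts: `List.sum_flatten`, `List.Perm.sum_eq`, and `q1`, `tM`, ... of a part as sums over the objects. -/
def S_RegM : Prop := Merge → Cutl → ItemR → RegM

/-- MC11. The corank for a core `K0`, middle multiplicities `K` and graded small ones. -/
def KCM : Prop := ∀ {d m1 κ : ℕ} {h G η : ℝ} (K0 K : Multiset ℕ) (J : Finset ℕ) (w : ℕ → Multiset ℕ),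
  J.Nonempty → (∀ k ∈ J, Grp k (w k) ∧ k ≤ κ) → WinAb h K0 d → 0 < η → η ≤ 1 →
  2 ^ 20 * 2 ^ κ ≤ η * G → 1000 * ((m1 : ℝ) + 16 * G) ≤ η * h → (∀ m ∈ K, m ≤ m1) →
  qG G K ≤ (1 - η) * (q0 K + 4 / 5 * ∑ k ∈ J, ((w k).map fun v : ℕ => (v : ℝ) ^ 2).sum) →
  2 * h ^ 2 ≤ q0 K + 4 / 5 * ∑ k ∈ J, ((w k).map fun v : ℕ => (v : ℝ) ^ 2).sum →
  crkM (HX 0 0 0 d) (K0 + K + ∑ k ∈ J, w k) ≤
    (HX 0 0 0 d).card - TH2.NU.condM (K0 + K + ∑ k ∈ J, w k)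

/-- MC11. Proof. As GR16 (`KC`, H200G/Stm2.lean, proved in Pool/Agent/Q162/GR/KC.lean); here are the changes. `Acc`
with `E` also containing `K0 + K`. Given the leaves, `F k`, `F = ∑ F k`, `W = ∑ WW (V k) (N k)`, lists `L k` from
`UnitsR` as there; `tE (L k) ≥ 9 / 10 * 99 / 100 * ∑ (w k) v ^ 2 ≥ 4 / 5 * ∑ (w k) v ^ 2`. Put `e0 = et κ`, `h0 = 64 * e0`, so
`32 * h0 = 2 ^ 19 * 2 ^ κ ≤ η * G / 2`. Let `T = ∑ tE (L k)`, `E = q0 K + T`. `q0 K ≤ qG G K ≤ (1 - η) E`, so `T ≥ η E ≥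
2 η h ^ 2 ≥ 2 h0 ^ 2`, and MC9 (`RegI`) with `h := h0` gives `L0` (`Ir h0`), `tM L0 = F`, `tE L0 = T`,
`tS L0 ≤ ∑ tS (L k) + 3 / 4 * T / h0`. MC10 gives `L'` with `tM L' = K + F`, `tE L' = E`,
`tS L' ≤ q1 K + tS L0 + 3 / 2 * E / G`. `LeafG` with `K := K0 + K`, `s = tS L' - 2 condM K`, `e = tE L' - 2 condM K`
(`XX (K0 + K) f = XX K0 f - 2 condM K`), the `Λ` of `WinAb` and `Z = tS L' / (32 h)`: if `XX (K0 + K) f - Λ f < s` then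
`XX K0 f - Λ f < tS L'`, `Λ f ≤ XX K0 f / (64 h) ≤ XX K0 f / 2`, `XX K0 f ≤ 2 tS L'` and
`Λ f + 2 (f + 2) ≤ XX K0 f / (64 h) ≤ Z`. `NumG` with `K := K0 + K`. Numbers: `∑ tS (L k) ≤ e0 W / 100`, `T ≤ e0 W / 100`,
`3 / 4 * T / h0 ≤ W / 8000`; `E ≤ T / η ≤ e0 W / (100 η)` and `G ≥ 2 ^ 12 e0 / η`, so `2 E / G ≤ W / 200000`;
`q1 K - 2 condM K = ∑ (m + 1) ≤ qG G K / (16 G) ≤ E / (16 G)`, `2 condM K - q0 K = ∑ m` the same;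
`tS L' ≤ 2 E + e0 W / 100 + W` and `h ≥ 16000 G`, so `Z ≤ W / 1000`. So `s - 2 condM F + Z ≤
∑ E0 k + W / 8000 + W / 200000 + W / 1000 ≤ W / 5` (`E0 k ≤ 24 / 125 * WW`), and the same for `2 condM F - e + Z`. -/
def S_KCM : Prop := RegI → RegM → UnitsR → LeafG → NumG → Acc → Color → ColNum → KCM

/-- MC12. The same if there is enough room. -/
def KCR : Prop := ∀ {d m1 κ : ℕ} {h G η : ℝ} (K0 K : Multiset ℕ) (J : Finset ℕ) (w : ℕ → Multiset ℕ),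
  (∀ k ∈ J, Grp k (w k) ∧ k ≤ κ) → WinAb h K0 d → 0 < η → η ≤ 1 / 16 →
  2 ^ 50 * 2 ^ κ ≤ η * G → 1000 * ((m1 : ℝ) + 16 * G) ≤ η * h → (∀ m ∈ K, m ≤ m1) →
  h ^ 2 ≤ η * XX K0 d →
  2 * (TH2.NU.condM K : ℝ) + 4 * (qG G K - q0 K) + 16 * η * XX K0 d ≤ XX K0 d →
  crkM (HX 0 0 0 d) (K0 + K + ∑ k ∈ J, w k) ≤
    (HX 0 0 0 d).card - TH2.NU.condM (K0 + K + ∑ k ∈ J, w k)

/-- MC12. Proof. Let `X = XX K0 d > 0` (from `WinAb`, `h > 0`), `A = qG G K`, `Q = q0 K ≤ 2 condM K ≤ X`, so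
`A - Q ≤ X / 4` and `A ≤ 2 X`. Let `S0 = ∑ w ^ 2`. Consider the two inequalities
(1) `A ≤ (1 - η) (Q + 4 / 5 * S)`, (2) `2 h ^ 2 ≤ Q + 4 / 5 * S`. If they hold for `S = S0` and `J` is not empty,
this is MC11. Otherwise one of them fails for `S0` (if `J = ∅` then `S0 = 0`; (2) fails for `K = 0`, and (1) fails for
`K ≠ 0` as `A > Q`). Add a new group to the family: `k0 = κ + 28` (so `k0 ∉ J`, and `2 ^ 20 * 2 ^ k0 ≤ η G`),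
`v0 = 2 ^ k0 - 1`, `w' k0 = replicate n v0` with `n ≥ 2 ^ 29` (`Grp k0`: `2 ^ 27 * 4 ^ k0 ≤ n v0 ^ 2`, as
`v0 ≥ 2 ^ k0 / 2`). Let `n` be the least number `≥ 2 ^ 29` such that (1) and (2) hold for `S = S0 + n v0 ^ 2`. Since one
of them fails for `S0`, and for `n - 1` if `n > 2 ^ 29`, one has
`4 / 5 * (S - 2 ^ 30 * v0 ^ 2) ≤ max (A / (1 - η) - Q) (2 h ^ 2) ≤ A - Q + 4 η X + 2 η X`
(`A / (1 - η) ≤ A + 2 η A`). MC11 (with `k0` for `κ`) for the new family `w'`: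
`crkM (K0 + K + ∑ w') ≤ |HX| - condM (K0 + K + ∑ w')`. Here `2 condM (∑ w') ≤ 2 S ≤ 5 / 2 * (A - Q) + 15 η X +
2 ^ 31 * v0 ^ 2` and `2 ^ 31 * v0 ^ 2 ≤ 2 ^ 87 * 4 ^ κ ≤ η ^ 2 G ^ 2 / 2 ≤ h ^ 2 / 2 ≤ η X / 2`, so
`2 condM K + 2 condM (∑ w') ≤ X`, that is `condM (K0 + K + ∑ w') ≤ |HX|`. As in Pool/Agent/Q211/PK/Cor2K.lean this
gives `SurM (K0 + K + ∑ w')`, hence `SurM (K0 + K + ∑ w)`, hence the claim. -/
def S_KCR : Prop := KCM → KCR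

end Pool.Agent.H200M
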