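import Pool.Agent.H200M.Stm2
import Pool.Agent.H200G.Stm5
import Pool.Agent.H200C.Stm2
import Pool.Agent.H200W.NefFin

/-! # Project MC: statements of the lemmas, with their proofs. Part 3: classes. -/

set_option autoImplicit false

namespace Pool.Agent.H200M

open Finset Pool.Agent.TH176.Nag Pool.Agent.TH603.Sur Pool.Agent.TH2.NU Pool.Agent.TH641.UM
open Pool.Agent.Y205.FW Pool.Agent.Y205.MD Pool.Agent.H200W Pool.Agent.H200P Pool.Agent.H200C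
open Pool.Agent.H200G Pool.Agent.H932R3 Pool.Agent.W609.CR

/-- twice the number of forms of degree `d` left by the points in `A`, as expected -/
noncomputable def XA {n : ℕ} (w : Fin n → ℕ) (A : Finset (Fin n)) (d : ℕ) : ℝ :=
  ((d : ℝ) + 1) * (d + 2) - ∑ i ∈ A, (w i : ℝ) * (w i + 1)

/-- All nonzero multiplicities `≤ μ` in `S` are taken at least `2 ^ 29` times in `S`, or the number of the
values `≤ μ` is small: plus `1`, times `μ ^ 2` at most `v`. -/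
def Few {n : ℕ} (w : Fin n → ℕ) (S : Finset (Fin n)) (μ v : ℝ) : Prop :=
  (∀ i ∈ S, w i ≠ 0 → (w i : ℝ) ≤ μ → 2 ^ 29 ≤ (S.filter fun j => w j = w i).card) ∨
    0 ≤ μ ∧ ((((S.filter fun i => (w i : ℝ) ≤ μ).image w).card : ℝ) + 1) * μ ^ 2 ≤ v

/-- MC13. From the corank to general points: core `A`, middle part `B`, graded small part. -/
def ExpM : Prop := ∀ {n d κ m1 : ℕ} {h G η : ℝ} {w : Fin n → ℕ} {A B : Finset (Fin n)}, Disjoint A B →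
  WinAb h (A.val.map w) d → Gr w (univ \ (A ∪ B)) κ → (∀ i ∈ B, w i ≤ m1) → 0 < η → η ≤ 1 / 16 →
  2 ^ 50 * 2 ^ κ ≤ η * G → 1000 * ((m1 : ℝ) + 16 * G) ≤ η * h → h ^ 2 ≤ η * XA w A d →
  ∑ i ∈ B, (w i : ℝ) * (w i + 1) + 4 * ∑ i ∈ B, (((w i : ℝ) + 16 * G) ^ 2 - (w i : ℝ) ^ 2) +
    16 * η * XA w A d ≤ XA w A d → GenExp d w

/-- MC13. Proof (compare `S_ExpAb` in H200G/Stm3.lean, proved in Pool/Agent/Q195/GR/Exp.lean). Let `c` be as in
`Gr`, `J` the image of `c` on `{i | w i ≠ 0}` (outside of `A ∪ B`), and for `k ∈ J` let `w k` be the multiset of the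
`w i` with `c i = k`, `w i ≠ 0`; `Grp k (w k)`. MC12 with `K0 = A.val.map w`, `K = B.val.map w`
(`XX K0 d = XA w A d` by `p_card`), and `RankG` with `M = K0 + K + ∑ w k`. -/
def S_ExpM : Prop := KCR → RankG → ExpM

/-- MC14. The choice of the scale; the first alternative. -/
def ScaleM : Prop := ∀ ε : ℝ, 0 < ε → ∃ c : ℝ, 0 < c ∧ ∀ {n d T : ℕ} {μ : ℝ} (w : Fin n → ℕ)
  (A : Finset (Fin n)), 1 ≤ T → (∀ t : ℕ, 1 ≤ t → t ≤ T → WinAb (256 * t) (A.val.map w) d) →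
  (T : ℝ) ^ 2 ≤ XA w A d → (∀ i ∉ A, (w i : ℝ) ≤ c * T) → Few w (univ \ A) μ (c * XA w A d) →
  ∑ i ∈ (univ \ A).filter (fun i => c * μ < (w i : ℝ)), (w i : ℝ) ^ 2 ≤ (1 - ε) * XA w A d →
  GenExp d w

/-- MC14. Proof (compare `S_Scale` in H200P/Stm3.lean, proved in Pool/Agent/Q195/PK, and `S_MainR` in
H200G/Stm4.lean). We may assume `ε ≤ 1`; `η = ε / 64`, `X = XA w A d`, `S = univ \ A`.
(0) If all `w i`, `i ∈ S`, are `0`: `SurM (A.val.map w) (HX 0 0 0 d)` (first part of `GoodSK` in `WinAb`, `f = d`,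
`t = 1`), `crk_of_Sur` and `RankG`. Otherwise `c T ≥ 1`, so `T` is large.
(1) The case `c T ≤ μ`: all values on `S` are at most `μ`; let `ν = ⌊c T⌋₊ ≥ 1` (all values on `S` are at most `ν`).
First part of `Few`: `RepUn` and `UnGr` give `Gr w S κ` with `κ = Nat.size ν`, `2 ^ κ ≤ 2 ν`, and `ExpAb` with `h = 256 t`,
`256 t = 2 ^ 14 * 2 ^ κ`, `t = 64 * 2 ^ κ ≤ 128 c T ≤ T`. Second part: let `s` be the number of values on `S`,
`(s + 1) ν ^ 2 ≤ (s + 1) μ ^ 2 ≤ c X`. If `∑_S w ^ 2 ≥ 2 ^ 29 * s * ν ^ 2` then `Gr w S κ` by one single group (`4 ^ κ ≤ 4 ν ^ 2`), and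
`ExpAb`. Otherwise `∑_S w ^ 2 < 2 ^ 29 c X`, and we add points: let `v : Fin (n + N) → ℕ` be the family `w` together with
`N = 2 ^ 29 (s + 1)` points of multiplicity `ν`; one single group again (the number of values is at most
`s + 1`, the sum of squares at least `2 ^ 29 (s + 1) ν ^ 2`), so `GenExp d v` by `ExpAb` with `A` mapped into `Fin (n + N)`
(`Fin.castAdd`), and the number of conditions of `v` is at most half of
`∑_A w (w + 1) + 2 ∑_S w ^ 2 + 2 N ν ^ 2 ≤ ∑_A w (w + 1) + X = (d + 1) (d + 2)` if `2 ^ 31 c ≤ 1`; `Hered` gives the claim.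
(2) The case `μ < c T`. `C = 2 ^ 55 / η`; natural numbers `K0 ≥ 96 C / ε`, `J ≥ 32 (1 + C) ^ 2 / ε`;
`ν0 = max 1 ⌈c μ⌉₊`, `ν j = K0 ^ j ν0`, so `ν J ≤ K0 ^ J` or `ν J ≤ 2 c μ K0 ^ J ≤ μ` (if `μ ≤ 0` then `ν0 = 1`); in both cases
`ν J ≤ K0 ^ J c T`, as `1 ≤ c T`. The bands `{i ∈ S | ν j < w i ≤ ν (j + 1)}`, `j < J`, are disjoint and
contained in `{c μ < w i}`, so one of them has `∑ w ^ 2 ≤ X / J`. Let `ν = ν j`, `B = {i ∈ S | ν < w i}`, `m1 = ⌊c T⌋₊`,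
`κ = Nat.size ν`, `G = 2 ^ 50 * 2 ^ κ / η`, `16 G ≤ C ν`; `t = ⌊√η T / 256⌋₊ ≥ 1` (as `T ≥ 1 / c`), `h = 256 t ≤ √η T`, so
`h ^ 2 ≤ η X`, and `h ≥ √η T / 2`, so `1000 (m1 + 16 G) ≤ η h` if `c (1 + C K0 ^ J) ≤ η √η / 2000`. The sum in MC13:
`(w + 16 G) ^ 2 - w ^ 2 ≤ 2 C ν w + C ^ 2 ν ^ 2` is at most `(ε / 32) w ^ 2` if `w > K0 ν`, at most `(1 + C) ^ 2 w ^ 2` on the band; so
`4 ∑_B (..) ≤ (ε / 8) X + (ε / 8) X`. `∑_B w ≤ ∑_B (..) / (32 G) ≤ (ε / 4) X`, `∑_B w ^ 2 ≤ (1 - ε) X`, `16 η = ε / 4`. If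
`Gr w (S \ B) κ`, MC13 gives the claim. This is so in the first case of `Few` (if `ν ≤ μ`: all values `≤ ν` are
repeated, also in `S \ B`, `RepUn`, `UnGr`). In general let `s` be the number of values on `S \ B`. If
`∑_{S \ B} w ^ 2 ≥ 2 ^ 29 s ν ^ 2`: `Gr` by one single group. Otherwise `(s + 1) ν ^ 2 ≤ c' X` with a small `c'`: in the second
case of `Few` with `ν ≤ μ` because of `(s + 1) μ ^ 2 ≤ c X`; if `ν > μ` then `ν ≤ K0 ^ J`, `s ≤ ν + 1` and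
`(s + 1) ν ^ 2 ≤ 3 K0 ^ (3 J) ≤ 3 K0 ^ (3 J) c ^ 2 T ^ 2 ≤ 3 K0 ^ (3 J) c ^ 2 X`. Then add `N = 2 ^ 29 (s + 1)` points of multiplicity `ν`
as in (1): MC13 for the new family `v` (same `B`), and the number of conditions of `v` is at most half of
`∑_A w (w + 1) + ∑_B w (w + 1) + 2 ^ 30 s ν ^ 2 + 2 N ν ^ 2 ≤ (d + 1) (d + 2)`, as `∑_B w (w + 1) ≤ (1 - 3 ε / 4) X`; `Hered`. -/
def S_ScaleM : Prop := ExpM → ExpAb → UnGr → RepUn → RankG → Hered → ScaleM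

/-- MC15. The main theorem for cores. -/
def CoreT : Prop := ∀ ε : ℝ, 0 < ε → ∃ c : ℝ, 0 < c ∧ ∀ {n d T : ℕ} {μ : ℝ} (w : Fin n → ℕ)
  (A : Finset (Fin n)), 1 ≤ T → (∀ t : ℕ, 1 ≤ t → t ≤ T → WinAb (256 * t) (A.val.map w) d) →
  (T : ℝ) ^ 2 ≤ XA w A d → (∀ i ∉ A, (w i : ℝ) ≤ c * T) → Few w (univ \ A) μ (c * XA w A d) →
  (∑ i ∈ (univ \ A).filter (fun i => c * μ < (w i : ℝ)), (w i : ℝ) ^ 2 ≤ (1 - ε) * XA w A d ∨
    ε * XA w A d ≤ ∑ i ∈ (univ \ A).filter (fun i => (w i : ℝ) ≤ c * μ), (w i : ℝ) ^ 2) →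
  GenExp d w

/-- MC15. Proof (compare `S_MainC` in H200P/Stm3.lean, proved in Pool/Agent/Q195/PK, and `S_MainR` in
H200G/Stm4.lean). We may assume `ε ≤ 1`. The constant of MC14 may be decreased (all hypotheses become
stronger). Let `c'` be the constant of MC14 for `ε / 4`, `c' ≤ 1 / 4`, `c' ^ 2 ≤ ε / 8`, and `c = c' ^ 2`. First
alternative: MC14 (`{c' μ < w} ⊆ {c μ < w}` if `μ ≥ 0`; if `μ < 0` both are everything). Second alternative: if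
`μ < 0` the sum is `0`, so `X ≤ 0`, but `X ≥ T ^ 2 ≥ 1`. Let `S = univ \ A`, `μ' = c' μ ≤ μ`, so `c μ = c' μ'`; `Few` holds with `μ'`
instead of `μ`. (a) If `∑_{S, w > c' μ'} w ^ 2 ≤ (1 - ε / 4) X` this is MC14 with `μ'`. (b) If
`∑_{S, w ≤ μ'} w ^ 2 ≥ (1 + ε / 2) X`: let `w'` be `w` with all values `> μ'` on `S` replaced by `0`; MC14 applies to `w'`
with `μ`, since `{i ∈ S | c' μ < w' i}` is empty (`Few w' S μ (c' X)`: the nonzero values of `w'` are values of `w`,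
with the same points; the number of values increases at most by `1`, `s + 2 ≤ 2 (s + 1)`, `2 c ≤ c'`). Twice the
number of conditions of `w'` on `S` is at least `X`, so the system of `w'` is `0`, and so is that of `w`
(`w' ≤ w`; see the end of the proof of PK17 in Pool/Agent/Q195/PK; `exp_low2` in H200P/Fin.lean). (c) Otherwise
`∑_{S, c' μ' < w ≤ μ'} w ^ 2 ≤ (1 + ε / 2) X - ε X = (1 - ε / 2) X`, and `∑_{S, w > c' μ'} w ^ 2 > (1 - ε / 4) X`. Replace the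
multiplicities `w i > μ'`, `i ∈ S`, by `0`, one by one, until the sum `S'` of `w ^ 2` over the remaining ones with
`w > c' μ'` is at most `(1 - ε / 4) X`; then `S' > (1 - ε / 4) X - (c T) ^ 2 ≥ (1 - ε / 4 - c ^ 2) X`. MC14 with `μ'` applies
to the new family `w'` (`Few w' S μ' (c' X)` as in (b)). Twice the number of conditions of `w'` on `S` is at least
`S' + ε X ≥ X`, and we conclude as in (b). -/
def S_CoreT : Prop := ScaleM → CoreT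

/-- MC16. Three arbitrary multiplicities. -/
def Main3 : Prop := ∀ ε : ℝ, 0 < ε → ∃ c : ℝ, 0 < c ∧ ∀ {n d : ℕ} {μ : ℝ} (w : Fin n → ℕ)
  (p : Fin 3 → Fin n), Function.Injective p → w (p 2) ≤ w (p 1) → w (p 1) ≤ w (p 0) →
  w (p 0) + w (p 1) + w (p 2) ≤ d → (∀ i, (∀ j, p j ≠ i) → (w i : ℝ) ≤ c * ((d : ℝ) - w (p 0))) →
  Few w (univ \ univ.image p) μ (c * XA w (univ.image p) d) →
  (∑ i ∈ (univ \ univ.image p).filter (fun i => c * μ < (w i : ℝ)), (w i : ℝ) ^ 2 ≤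
      (1 - ε) * XA w (univ.image p) d ∨
    ε * XA w (univ.image p) d ≤
      ∑ i ∈ (univ \ univ.image p).filter (fun i => (w i : ℝ) ≤ c * μ), (w i : ℝ) ^ 2) →
  GenExp d w

/-- MC16. Proof. Let `c'` be the constant of MC15, `c ≤ c' / (8320 * 256)`, `c ≤ c'` (so that the hypotheses of
MC15 for `c'` hold, see the beginning of the proof of MC15 for `μ < 0`; replace `μ` by `c μ / c'` if
necessary: `Few` is inherited by smaller `μ`, and `c' (c μ / c') = c μ`). `D = d - w (p 0)`. If all `w i`, `i` not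
among the `p j`, are `0`: `Corner3` with `W = 0` (`surM_zero`) gives `SurM {M1, M2, M3} (HX 0 0 0 d)`, and `RankG`.
Otherwise `c D ≥ 1`, `T = D / (4160 * 256) ≥ 1` (natural division), `D ≤ 2 * 4160 * 256 * T`; `Win3` with `h = 256 t`
for `t ≤ T` (the multiset `(univ.image p).val.map w` is `{w (p 0), w (p 1), w (p 2)}`, see `wideG_exp` in
H200G/Fin.lean). `XA ≥ d ^ 2 - ∑ w (p j) ^ 2 ≥ d D ≥ T ^ 2`. -/
def S_Main3 : Prop := CoreT → Win3 → Corner3 → RankG → Main3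

/-- MC17. A chain of arbitrary multiplicities (see `ChainG` in H200G/Stm4.lean for the case without a
middle part). The parameter is `t`. -/
def MainCh : Prop := ∀ ε : ℝ, 0 < ε → ∃ c : ℝ, 0 < c ∧ ∀ {n d t m : ℕ} {μ : ℝ} (w : Fin n → ℕ)
  (p : Fin n) (A : Finset (Fin n)) (E : ℕ → ℕ), p ∉ A → 1 ≤ t → Antitone E → (∀ k, 1 ≤ E k) →
  (∀ i ∈ A, w i ≤ m) → w p + ∑ j ∈ range m, E j + 2 ^ 27 * t * E 0 ≤ d →
  (∀ k < m, (k = 0 ∨ E k < E (k - 1)) → ∑ i ∈ A, (w i - k) + E k * ∑ j ∈ range k, E j +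
    2 ^ 31 * t * E k * (E 0 + E k * (A.filter fun i => k < w i ∧ w i ≤ k + 2 ^ 26 * t).card) ≤
      E k * d) →
  (∀ i, i ∉ insert p A → (w i : ℝ) ≤ c * t) →
  Few w (univ \ insert p A) μ (c * XA w (insert p A) d) →
  (∑ i ∈ (univ \ insert p A).filter (fun i => c * μ < (w i : ℝ)), (w i : ℝ) ^ 2 ≤
      (1 - ε) * XA w (insert p A) d ∨
    ε * XA w (insert p A) d ≤
      ∑ i ∈ (univ \ insert p A).filter (fun i => (w i : ℝ) ≤ c * μ), (w i : ℝ) ^ 2) →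
  GenExp d w

/-- MC17. Proof. MC15 with `T = t`; `WinC` (H200C/Stm2.lean) for all `t' ≤ t`: `Chain (2 ^ 18 t') d (M + 2 ^ 18 t') W E m`
with `M = w p`, `W = A.val.map w` as in `chainG_exp` in H200G/Fin.lean (`2 ^ 18 t + 2 ^ 26 t E 0 ≤ 2 ^ 27 t E 0`). The
condition `T ^ 2 ≤ XA`: `WinAb (256 t)` for `f = d` gives `2 (d + 2) ≤ XX / (64 * 256 t)` with `XX = XA` (`p_card`), and
`d ≥ 2 ^ 27 t`. -/
def S_MainCh : Prop := CoreT → WinC → MainCh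

/-- MC18. Real classes with three arbitrary coefficients. -/
def Nef3 : Prop := ∀ ε : ℝ, 0 < ε → ∃ γ : ℝ, 0 < γ ∧ ∀ {n : ℕ} {P : Fin n → Fin 2 → ℂ},
  AlgebraicIndependent ℚ (fun ij : Fin n × Fin 2 => P ij.1 ij.2) →
  ∀ (c M : ℝ) (x : Fin n → ℝ) (p : Fin 3 → Fin n), Function.Injective p → (∀ i, 0 ≤ x i) →
  x (p 2) ≤ x (p 1) → x (p 1) ≤ x (p 0) → x (p 0) + x (p 1) + x (p 2) ≤ c → x (p 0) < c →
  (∀ i, (∀ j, p j ≠ i) → x i ≤ γ * (c - x (p 0))) →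
  ((∀ i, (∀ j, p j ≠ i) → x i ≠ 0 → x i ≤ M →
      2 ^ 29 ≤ (univ.filter fun k => (∀ j, p j ≠ k) ∧ x k = x i).card) ∨
    0 ≤ M ∧ ((((univ.filter fun i => (∀ j, p j ≠ i) ∧ x i ≤ M).image x).card : ℝ) + 1) * M ^ 2 ≤
      γ * (c ^ 2 - ∑ j, x (p j) ^ 2)) →
  ε * (c ^ 2 - ∑ j, x (p j) ^ 2) ≤ ∑ i ∈ univ.filter (fun i => (∀ j, p j ≠ i) ∧ x i ≤ γ * M), x i ^ 2 →
  ∑ i, x i ^ 2 ≤ c ^ 2 →
  ∀ (G : MvPolynomial (Fin 3) ℂ) (e : ℕ) (u : Fin n → ℕ), G ≠ 0 → G.IsHomogeneous e →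
    (∀ i, Van (Pool.Agent.W609.CR.aff (P i)) (u i) G) → ∑ i, x i * (u i : ℝ) ≤ c * e

/-- MC18. Proof (compare PK18, `S_NefK` in H200P/Stm3.lean, proved in Pool/Agent/Q195/PK/NefK.lean, and `S_NefWide` in
H200W/Stm5.lean). Let `γ` be half of the constant of MC16 for `ε / 2` (and at most `1`). For a natural number `N` put
`v i = ⌊N x i⌋₊`, `d = ⌈N c⌉₊`. For all large `N` and all `k`, MC16 (second alternative, with `ε / 2`) applies to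
`(k d; k v)` with the same `p` and `μ = k N M`: `v (p 0) + v (p 1) + v (p 2) ≤ N c ≤ d`;
`k v i ≤ γ k N (c - x (p 0)) ≤ γ (k d - k v (p 0))`; for `k ≥ 1`, `k v i ≤ k N M` and `v i ≠ 0` imply `x i ≤ M` for large `N`
(finitely many `i`: `x i > M` implies `v i > N M` for large `N`), and equal `x i` have equal `v i`; the volume:
`X = (k d + 1) (k d + 2) - ∑ k v (p j) (k v (p j) + 1) ≥ k ^ 2 (d ^ 2 - ∑ v (p j) ^ 2) ≥ k ^ 2 N ^ 2 (c ^ 2 - ∑ x (p j) ^ 2)`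
(`3 k d ≥ k ∑ v (p j)`), and
`X ≤ k ^ 2 N ^ 2 (c ^ 2 - ∑ x (p j) ^ 2) (1 + o(1)) + ..` for `N → ∞`, uniformly in `k ≥ 1` (`c ^ 2 - ∑ x (p j) ^ 2 > 0` because
`x (p 1) ^ 2 + x (p 2) ^ 2 ≤ x (p 0) (c - x (p 0))` and `x (p 0) < c`); for `k = 0` all multiplicities are `0`
(first alternative with `μ = 0`, or use `S_NefExp` for `k ≥ 1`). `x i ≤ γ M` implies `k v i ≤ γ k N M`, and
`∑ v i ^ 2 ≥ ∑ (N x i) ^ 2 - 2 N ∑ x i` over these `i`, which is at least `(ε / 2) X / k ^ 2` for large `N`.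
`∑ v i ^ 2 ≤ N ^ 2 ∑ x i ^ 2 ≤ (N c) ^ 2 ≤ d ^ 2`. `S_NefExp` (with `k0 = 1`) gives `∑ v i u i ≤ d e`; divide by
`N → ∞`. -/
def S_Nef3 : Prop := Main3 → S_NefExp → Nef3

end Pool.Agent.H200M
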