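import Pool.Agent.H200M.Room
import Pool.Agent.H200M.Cube

/-! # Project MC: the classes, with the upper bound. -/

set_option autoImplicit false

namespace Pool.Agent.H200M

open Finset Pool.Agent.TH176.Nag Pool.Agent.TH603.Sur Pool.Agent.TH2.NU Pool.Agent.TH641.UM
open Pool.Agent.Y205.FW Pool.Agent.Y205.MD Pool.Agent.H200W Pool.Agent.H200P Pool.Agent.H200C
open Pool.Agent.H200G Pool.Agent.H932R3 Pool.Agent.W609.CR

/-- The points outside `C` have a volume `X` at their disposal (twice the number of forms left by the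
points in `C`, as expected). They fill it up to the part `ε`, and with their large multiplicities: the
sum of all `w i ^ 2` outside `C` is less than `(1 + ε) X`; and for every `μ` such that all nonzero
multiplicities `≤ μ` outside `C` are taken at least `2 ^ 29` times there, or the number of the values
`≤ μ`, plus `1`, times `μ ^ 2` is at most `c X`, the multiplicities larger than `c μ` have more than the
part `1 - ε` of `X`, and those at most `c μ` less than the part `ε`. -/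
def Crit (c ε : ℝ) {n : ℕ} (d : ℕ) (w : Fin n → ℕ) (C : Finset (Fin n)) : Prop :=
  ∑ i ∈ univ \ C, (w i : ℝ) ^ 2 < (1 + ε) * XA w C d ∧
    ∀ μ : ℝ, Few w (univ \ C) μ (c * XA w C d) →
      (1 - ε) * XA w C d < ∑ i ∈ (univ \ C).filter (fun i => c * μ < (w i : ℝ)), (w i : ℝ) ^ 2 ∧
      ∑ i ∈ (univ \ C).filter (fun i => (w i : ℝ) ≤ c * μ), (w i : ℝ) ^ 2 < ε * XA w C d

/-- The class `(d; w)` is critical outside of any three points: for every `ε > 0` and all three points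
`p` with `w (p 2) ≤ w (p 1) ≤ w (p 0)`, `w (p 0) + w (p 1) + w (p 2) ≤ d`, such that all others have
multiplicities at most `c(ε) (d - w (p 0))`, `Crit` holds. -/
def Crit3 (c : ℝ → ℝ) {n : ℕ} (d : ℕ) (w : Fin n → ℕ) : Prop :=
  ∀ (ε : ℝ) (p : Fin 3 → Fin n), 0 < ε → Function.Injective p → w (p 2) ≤ w (p 1) →
    w (p 1) ≤ w (p 0) → w (p 0) + w (p 1) + w (p 2) ≤ d →
    (∀ i, (∀ j, p j ≠ i) → (w i : ℝ) ≤ c ε * ((d : ℝ) - w (p 0))) →
    Crit (c ε) ε d w (univ.image p)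

/-- The class `(d; w)` is critical outside of any chain: for every `ε > 0` and all `t ≥ 1`, `p`, `A` with
`ChainCore t d w p A` such that all other multiplicities are at most `c(ε) t`, `Crit` holds. -/
def CritCh (c : ℝ → ℝ) {n : ℕ} (d : ℕ) (w : Fin n → ℕ) : Prop :=
  ∀ (ε : ℝ) (t : ℕ) (p : Fin n) (A : Finset (Fin n)), 0 < ε → 1 ≤ t → ChainCore t d w p A →
    (∀ i, i ∉ insert p A → (w i : ℝ) ≤ c ε * t) → Crit (c ε) ε d w (insert p A)

theorem shrink_mul {c c1 μ : ℝ} (h : 0 < c1) : c1 * (c / c1 * μ) = c * μ := by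
  field_simp

/-- Three arbitrary multiplicities: both sides with one constant. -/
theorem main3_two (ε : ℝ) (hε : 0 < ε) : ∃ c : ℝ, 0 < c ∧ ∀ {n d : ℕ} (w : Fin n → ℕ)
    (p : Fin 3 → Fin n), Function.Injective p → w (p 2) ≤ w (p 1) → w (p 1) ≤ w (p 0) →
    w (p 0) + w (p 1) + w (p 2) ≤ d →
    (∀ i, (∀ j, p j ≠ i) → (w i : ℝ) ≤ c * ((d : ℝ) - w (p 0))) →
    ¬ Crit c ε d w (univ.image p) → GenExp d w := by
  obtain ⟨c1, hc1, H1⟩ := main3_all ε hε
  obtain ⟨c2, hc2, H2⟩ := main3_above ε hε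
  refine ⟨min c1 c2, lt_min hc1 hc2, fun {n d} w p h1 h2 h3 h4 h5 h6 => ?_⟩
  have hc : 0 < min c1 c2 := lt_min hc1 hc2
  have hd : (0 : ℝ) ≤ (d : ℝ) - w (p 0) := by
    have : ((w (p 0) : ℕ) : ℝ) ≤ (d : ℝ) := by exact_mod_cast (by omega : w (p 0) ≤ d)
    linarith
  rcases lt_or_ge (∑ i ∈ univ \ univ.image p, (w i : ℝ) ^ 2) ((1 + ε) * XA w (univ.image p) d)
    with h7 | h7
  · unfold Crit at h6
    rw [not_and_or] at h6
    rcases h6 with h6 | h6
    · exact (h6 h7).elim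
    push Not at h6
    obtain ⟨μ, h8, h9⟩ := h6
    refine @H1 n d (min c1 c2 / c1 * μ) w p h1 h2 h3 h4 (fun i hi => (h5 i hi).trans
      (mul_le_mul_of_nonneg_right (min_le_left _ _) hd)) (Few.shrink hc (min_le_left _ _) h8) ?_
    rw [shrink_mul hc1]
    rcases le_or_gt (∑ i ∈ (univ \ univ.image p).filter
      (fun i => min c1 c2 * μ < (w i : ℝ)), (w i : ℝ) ^ 2) ((1 - ε) * XA w (univ.image p) d)
      with h10 | h10
    · exact Or.inl h10
    · exact Or.inr (h9 h10)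
  · exact @H2 n d w p h1 h2 h3 h4 (fun i hi => (h5 i hi).trans
      (mul_le_mul_of_nonneg_right (min_le_right _ _) hd)) h7

/-- Chains: both sides with one constant. -/
theorem mainCh_two (ε : ℝ) (hε : 0 < ε) : ∃ c : ℝ, 0 < c ∧ ∀ {n d t : ℕ} (w : Fin n → ℕ)
    (p : Fin n) (A : Finset (Fin n)), 1 ≤ t → ChainCore t d w p A →
    (∀ i, i ∉ insert p A → (w i : ℝ) ≤ c * t) → ¬ Crit c ε d w (insert p A) → GenExp d w := by
  classical
  obtain ⟨c1, hc1, H1⟩ := mainCh_all ε hε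
  obtain ⟨c2, hc2, H2⟩ := mainCh_above ε hε
  refine ⟨min c1 c2, lt_min hc1 hc2, fun {n d t} w p A ht hcc h5 h6 => ?_⟩
  have hc : 0 < min c1 c2 := lt_min hc1 hc2
  have htR : (0 : ℝ) ≤ t := Nat.cast_nonneg _
  rcases lt_or_ge (∑ i ∈ univ \ insert p A, (w i : ℝ) ^ 2) ((1 + ε) * XA w (insert p A) d)
    with h7 | h7
  · unfold Crit at h6
    rw [not_and_or] at h6
    rcases h6 with h6 | h6
    · exact (h6 h7).elim
    push Not at h6
    obtain ⟨μ, h8, h9⟩ := h6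
    obtain ⟨a1, E, m, a2, a3, a4, a5, a6⟩ := hcc
    refine @H1 n d t m (min c1 c2 / c1 * μ) w p A E a1 ht a2 a3 a4 a5 a6 (fun i hi => (h5 i hi).trans
      (mul_le_mul_of_nonneg_right (min_le_left _ _) htR)) (Few.shrink hc (min_le_left _ _) h8) ?_
    rw [shrink_mul hc1]
    rcases le_or_gt (∑ i ∈ (univ \ insert p A).filter
      (fun i => min c1 c2 * μ < (w i : ℝ)), (w i : ℝ) ^ 2) ((1 - ε) * XA w (insert p A) d)
      with h10 | h10
    · exact Or.inl h10
    · exact Or.inr (h9 h10)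
  · exact @H2 n d t w p A ht hcc (fun i hi => (h5 i hi).trans
      (mul_le_mul_of_nonneg_right (min_le_right _ _) htR)) h7

theorem crit3_all : ∃ c : ℝ → ℝ, (∀ ε, 0 < ε → 0 < c ε) ∧
    ∀ {n d : ℕ} (w : Fin n → ℕ), ¬ Crit3 c d w → GenExp d w := by
  have h := main3_two
  choose! c hc H using h
  refine ⟨c, hc, fun {n d} w hw => ?_⟩
  unfold Crit3 at hw
  push Not at hw
  obtain ⟨ε, p, hε, h1, h2, h3, h4, h5, h6⟩ := hw
  exact @H ε hε n d w p h1 h2 h3 h4 h5 h6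

theorem critCh_all : ∃ c : ℝ → ℝ, (∀ ε, 0 < ε → 0 < c ε) ∧
    ∀ {n d : ℕ} (w : Fin n → ℕ), ¬ CritCh c d w → GenExp d w := by
  have h := mainCh_two
  choose! c hc H using h
  refine ⟨c, hc, fun {n d} w hw => ?_⟩
  unfold CritCh at hw
  push Not at hw
  obtain ⟨ε, t, p, A, hε, h1, h2, h3, h4⟩ := hw
  exact @H ε hε n d t w p A h1 h2 h3 h4

/-- Three arbitrary multiplicities, with the cube root of the volume as a threshold. -/
theorem main3_both_two (ε : ℝ) (hε : 0 < ε) : ∃ c : ℝ, 0 < c ∧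
    ∀ {n d : ℕ} (w : Fin n → ℕ) (p : Fin 3 → Fin n), Function.Injective p → w (p 2) ≤ w (p 1) →
      w (p 1) ≤ w (p 0) → w (p 0) + w (p 1) + w (p 2) ≤ d →
      (∀ i, (∀ j, p j ≠ i) → (w i : ℝ) ≤ c * ((d : ℝ) - w (p 0))) →
      ((1 + ε) * XA w (univ.image p) d ≤ ∑ i ∈ univ \ univ.image p, (w i : ℝ) ^ 2 ∨
        ∑ i ∈ (univ \ univ.image p).filter
          (fun i => c * XA w (univ.image p) d ^ (1 / 3 : ℝ) < (w i : ℝ)), (w i : ℝ) ^ 2 ≤
          (1 - ε) * XA w (univ.image p) d ∨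
        ε * XA w (univ.image p) d ≤ ∑ i ∈ (univ \ univ.image p).filter
          (fun i => (w i : ℝ) ≤ c * XA w (univ.image p) d ^ (1 / 3 : ℝ)), (w i : ℝ) ^ 2 ∨
        ∃ μ : ℝ, 0 ≤ μ ∧ Few w (univ \ univ.image p) μ (c * XA w (univ.image p) d) ∧
          (∑ i ∈ (univ \ univ.image p).filter (fun i => c * μ < (w i : ℝ)), (w i : ℝ) ^ 2 ≤
              (1 - ε) * XA w (univ.image p) d ∨
            ε * XA w (univ.image p) d ≤
              ∑ i ∈ (univ \ univ.image p).filter (fun i => (w i : ℝ) ≤ c * μ), (w i : ℝ) ^ 2)) →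
      GenExp d w := by
  obtain ⟨c1, hc1, H1⟩ := main3_both main3_all ε hε
  obtain ⟨c2, hc2, H2⟩ := main3_above ε hε
  refine ⟨min c1 c2, lt_min hc1 hc2, fun {n d} w p h1 h2 h3 h4 h5 h6 => ?_⟩
  have hX := XA_three h1 h4
  have hX0 : (0 : ℝ) ≤ XA w (univ.image p) d := by linarith
  have hd : (0 : ℝ) ≤ (d : ℝ) - w (p 0) := by
    have : ((w (p 0) : ℕ) : ℝ) ≤ (d : ℝ) := by exact_mod_cast (by omega : w (p 0) ≤ d)
    linarith
  have h5' : ∀ i, (∀ j, p j ≠ i) → (w i : ℝ) ≤ c1 * ((d : ℝ) - w (p 0)) := fun i hi =>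
    (h5 i hi).trans (mul_le_mul_of_nonneg_right (min_le_left _ _) hd)
  have hle : min c1 c2 * XA w (univ.image p) d ^ (1 / 3 : ℝ) ≤
      c1 * XA w (univ.image p) d ^ (1 / 3 : ℝ) :=
    mul_le_mul_of_nonneg_right (min_le_left _ _) (by positivity)
  rcases h6 with h6 | h6 | h6 | ⟨μ, hμ, h6, h7⟩
  · exact @H2 n d w p h1 h2 h3 h4 (fun i hi => (h5 i hi).trans
      (mul_le_mul_of_nonneg_right (min_le_right _ _) hd)) h6
  · refine @H1 n d w p h1 h2 h3 h4 h5' ?_
    rcases alt_le hle (Or.inl h6) with h | h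
    · exact Or.inl h
    · exact Or.inr (Or.inl h)
  · refine @H1 n d w p h1 h2 h3 h4 h5' ?_
    rcases alt_le hle (Or.inr h6) with h | h
    · exact Or.inl h
    · exact Or.inr (Or.inl h)
  · refine @H1 n d w p h1 h2 h3 h4 h5' (Or.inr (Or.inr ⟨μ, hμ, ?_, ?_⟩))
    · rcases h6 with h6 | ⟨h6, h8⟩
      · exact Or.inl h6
      · exact Or.inr ⟨h6, h8.trans (mul_le_mul_of_nonneg_right (min_le_left _ _) hX0)⟩
    · exact alt_le (mul_le_mul_of_nonneg_right (min_le_left _ _) hμ) h7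

end Pool.Agent.H200M
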